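import Pool.Agent.RID.St
import Pool.Agent.RI.LAY

/-!
# LAYC: the layers are cyclic
-/

open NumberField Polynomial

namespace Pool.Agent.RID

open Pool.Agent.RI

namespace LAYC

/-- The quotient of `(ℤ/2^(k+2))ˣ` by `±1` is cyclic. -/
lemma cyc_two (k : ℕ) {H : Type} [Group H] (f : (ZMod (2 ^ (k + 2)))ˣ →* H)
    (hf : Function.Surjective f) (h1 : f (-1) = 1) : IsCyclic H := by
  have h5 : IsUnit (5 : ZMod (2 ^ (k + 2))) := by
    rw [show (5 : ZMod (2 ^ (k + 2))) = ((5 : ℕ) : ZMod (2 ^ (k + 2))) by norm_num,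
      ZMod.isUnit_iff_coprime]
    apply Nat.Coprime.pow_right
    norm_num
  set u := h5.unit with hu
  have hou : orderOf u = 2 ^ k := by
    rw [← orderOf_injective _ Units.coeHom_injective u, Units.coeHom_apply, hu, IsUnit.unit_spec]
    exact ZMod.orderOf_five k
  have hcardG : Nat.card (ZMod (2 ^ (k + 2)))ˣ = 2 ^ (k + 1) := by
    rw [Nat.card_eq_fintype_card, ZMod.card_units_eq_totient,
      Nat.totient_prime_pow_succ Nat.prime_two]
    simp
  have hind : (Subgroup.zpowers u).index = 2 := by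
    have h := Subgroup.card_mul_index (Subgroup.zpowers u)
    rw [Nat.card_zpowers, hou, hcardG] at h
    have h' : 2 ^ k * (Subgroup.zpowers u).index = 2 ^ k * 2 := by rw [h]; ring
    exact Nat.eq_of_mul_eq_mul_left (by positivity) h'
  have hdvd : 4 ∣ 2 ^ (k + 2) := ⟨2 ^ k, by ring⟩
  have hker : Subgroup.zpowers u ≤ (ZMod.unitsMap hdvd).ker := by
    rw [Subgroup.zpowers_le, MonoidHom.mem_ker]
    apply Units.ext
    rw [ZMod.unitsMap_val, hu, IsUnit.unit_spec]
    have : ((5 : ZMod (2 ^ (k + 2))).cast : ZMod 4) = 5 := by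
      have := ZMod.cast_natCast hdvd (R := ZMod 4) 5
      simpa using this
    rw [this]
    rfl
  have hneg : (-1 : (ZMod (2 ^ (k + 2)))ˣ) ∉ Subgroup.zpowers u := by
    intro hmem
    have h := hker hmem
    rw [MonoidHom.mem_ker] at h
    have h' := congrArg (fun x : (ZMod 4)ˣ => (x : ZMod 4)) h
    simp only [ZMod.unitsMap_val, Units.val_one, Units.val_neg] at h'
    have h2 : ((-1 : ZMod (2 ^ (k + 2))).cast : ZMod 4) = -1 := by
      rw [ZMod.cast_neg hdvd, ZMod.cast_one hdvd]
    rw [h2] at h'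
    exact absurd h' (by decide)
  refine ⟨⟨f u, fun y => ?_⟩⟩
  obtain ⟨x, rfl⟩ := hf y
  by_cases hx : x ∈ Subgroup.zpowers u
  · obtain ⟨j, rfl⟩ := hx
    exact ⟨j, by simp⟩
  · have h := (Subgroup.mul_mem_iff_of_index_two hind (a := -1) (b := x)).2
      ⟨fun h => absurd h hneg, fun h => absurd h hx⟩
    obtain ⟨j, hj⟩ := h
    refine ⟨j, ?_⟩
    have : f (-1 * x) = f x := by rw [map_mul, h1, one_mul]
    rw [← this, ← hj]
    simp

/-- The quotient of `(ℤ/p^m)ˣ` by `±1` is cyclic. -/
lemma cyc_units (p m : ℕ) [hp : Fact p.Prime] {H : Type} [Group H] (f : (ZMod (p ^ m))ˣ →* H)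
    (hf : Function.Surjective f) (h1 : f (-1) = 1) : IsCyclic H := by
  by_cases h2 : p = 2
  · subst h2
    rcases m with _ | _ | k
    · have : IsCyclic (ZMod (2 ^ 0))ˣ := (ZMod.isCyclic_units_two_pow_iff 0).2 (by norm_num)
      exact isCyclic_of_surjective f hf
    · have : IsCyclic (ZMod (2 ^ (0 + 1)))ˣ := (ZMod.isCyclic_units_two_pow_iff 1).2 (by norm_num)
      exact isCyclic_of_surjective f hf
    · exact cyc_two k f hf h1
  · have := ZMod.isCyclic_units_of_prime_pow p hp.out h2 m
    exact isCyclic_of_surjective f hf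

/-- A subfield of a cyclotomic field of prime power order on which the inversion of the roots of
unity is trivial is cyclic. -/
lemma gen {F E : Type} [Field F] [Field E] [Algebra F E] (p m : ℕ) [hp : Fact p.Prime]
    (hirr : Irreducible (cyclotomic (p ^ m) F)) {r : E} (hr : IsPrimitiveRoot r (p ^ m))
    (c : E →ₐ[F] E) (hc : c r = r⁻¹) (B : IntermediateField F E)
    (hB : B ≤ IntermediateField.adjoin F {z : E | z ^ (p ^ m) = 1})
    (hcB : ∀ x ∈ B, c x = x) : IsCyclic (B ≃ₐ[F] B) := by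
  have hN : p ^ m ≠ 0 := pow_ne_zero m hp.out.ne_zero
  have : NeZero (p ^ m) := ⟨hN⟩
  have hBab := LAY.isAbelian_of_le (p ^ m) hN ⟨r, hr⟩ B hB
  have hBG := hBab.toIsGalois
  have hBn := hBG.to_normal
  set C := IntermediateField.adjoin F {z : E | z ^ (p ^ m) = 1} with hC
  have hcyc : IsCyclotomicExtension {p ^ m} F C := by
    have h := IntermediateField.isCyclotomicExtension_adjoin_of_exists_isPrimitiveRoot
      ({p ^ m} : Set ℕ) F E (fun n hn _ => by
        rw [Set.mem_singleton_iff] at hn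
        rw [hn]
        exact ⟨r, hr⟩)
    have hset : {x : E | ∃ n ∈ ({p ^ m} : Set ℕ), n ≠ 0 ∧ x ^ n = 1} =
        {z : E | z ^ (p ^ m) = 1} := by
      ext x
      simp [hp.out.ne_zero]
    rw [hset] at h
    exact h
  have : IsGalois F C := IsCyclotomicExtension.isGalois {p ^ m} F C
  have hcz : ∀ z : E, z ^ (p ^ m) = 1 → c z = z⁻¹ := by
    intro z hz
    obtain ⟨i, _, rfl⟩ := hr.eq_pow_of_pow_eq_one hz
    rw [map_pow, hc, inv_pow]
  set e := IsCyclotomicExtension.autEquivPow C hirr with he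
  let _ : Algebra B C := (IntermediateField.inclusion hB).toRingHom.toAlgebra
  have : IsScalarTower F B C := IsScalarTower.of_algebraMap_eq fun x => rfl
  let ρ : (C ≃ₐ[F] C) →* (B ≃ₐ[F] B) := AlgEquiv.restrictNormalHom B
  have hρ : Function.Surjective ρ := AlgEquiv.restrictNormalHom_surjective C
  refine cyc_units p m (ρ.comp e.symm.toMonoidHom) (hρ.comp e.symm.surjective) ?_
  set σ := e.symm (-1) with hσ
  -- `σ` is the restriction of `c`
  have hσr : ∀ x : C, ((σ x : C) : E) = c (x : E) := by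
    have hζ := IsCyclotomicExtension.zeta_spec (p ^ m) F C
    have h1 : (C.val.comp (σ : C →ₐ[F] C)) = c.comp C.val := by
      apply (hζ.powerBasis F).algHom_ext
      rw [IsPrimitiveRoot.powerBasis_gen]
      set z := IsCyclotomicExtension.zeta (p ^ m) F C with hz
      have hσz : σ z = z ^ ((-1 : (ZMod (p ^ m))ˣ) : ZMod (p ^ m)).val := by
        rw [hσ, he, IsCyclotomicExtension.autEquivPow_symm_apply]
        have h2 := hζ.pow_of_coprime _ (ZMod.val_coe_unit_coprime (-1 : (ZMod (p ^ m))ˣ))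
        have key : ∀ h3, (hζ.powerBasis F).equivOfMinpoly (h2.powerBasis F) h3 z =
            z ^ ((-1 : (ZMod (p ^ m))ˣ) : ZMod (p ^ m)).val := by
          intro h3
          have key := (hζ.powerBasis F).equivOfMinpoly_gen (h2.powerBasis F) h3
          rw [hζ.powerBasis_gen F, h2.powerBasis_gen F] at key
          exact key
        exact key _
      have hzz : (z : E) ^ (p ^ m) = 1 := by
        have := congrArg (fun x : C => (x : E)) hζ.pow_eq_one
        simpa using this
      have hz0 : (z : E) ≠ 0 := by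
        intro h0
        rw [h0, zero_pow hN] at hzz
        exact zero_ne_one hzz
      change ((σ z : C) : E) = c (z : E)
      rw [hσz, hcz _ hzz]
      apply eq_inv_of_mul_eq_one_left
      have hd : p ^ m ∣ ((-1 : (ZMod (p ^ m))ˣ) : ZMod (p ^ m)).val + 1 := by
        rw [← ZMod.natCast_eq_zero_iff, Nat.cast_add, ZMod.natCast_val, ZMod.cast_id]
        simp
      obtain ⟨q, hq⟩ := hd
      have h4 : ((z ^ ((-1 : (ZMod (p ^ m))ˣ) : ZMod (p ^ m)).val : C) : E) * (z : E) =
          (z : E) ^ (((-1 : (ZMod (p ^ m))ˣ) : ZMod (p ^ m)).val + 1) := by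
        rw [pow_succ]
        push_cast
        rfl
      rw [h4, hq, pow_mul, hzz, one_pow]
    intro x
    exact DFunLike.congr_fun h1 x
  change ρ σ = 1
  ext x
  have h1 := AlgEquiv.restrictNormal_commutes σ B x
  have h2 : ((algebraMap B C ((ρ σ) x) : C) : E) = c (x : E) := by
    rw [show ρ σ = σ.restrictNormal B from rfl, h1, hσr]
    rfl
  have h3 : ((algebraMap B C ((ρ σ) x) : C) : E) = (((ρ σ) x : B) : E) := rfl
  rw [← h3, h2, hcB _ x.2]
  rfl

/-- Independence of the algebra structure over `ℚ`. -/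
lemma transport {B : Type} [Field B] (a b : Algebra ℚ B)
    (h : IsCyclic (@AlgEquiv ℚ B B _ _ _ a a)) : IsCyclic (@AlgEquiv ℚ B B _ _ _ b b) := by
  have e : b = a := Subsingleton.elim b a
  subst e
  exact h

end LAYC

theorem t_LAYC : S_LAYC := by
  intro p n hp B hB
  obtain ⟨hdeg, hreal, m, hle⟩ := hB
  have hN : p ^ m ≠ 0 := pow_ne_zero m hp.out.ne_zero
  have hr := Complex.isPrimitiveRoot_exp _ hN
  set r := Complex.exp (2 * Real.pi * Complex.I / ((p ^ m : ℕ) : ℂ)) with hrdef
  have hirr : Irreducible (cyclotomic (p ^ m) ℚ) :=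
    cyclotomic.irreducible_rat (Nat.pos_of_ne_zero hN)
  have key := LAYC.gen (F := ℚ) (E := ℂ) p m hirr hr
    ((Complex.conjAe.toAlgHom).restrictScalars ℚ) (by
      change (starRingEnd ℂ) r = r⁻¹
      have h1 : ‖r‖ = 1 := hr.norm'_eq_one hN
      rw [Complex.inv_def, Complex.normSq_eq_norm_sq, h1]
      simp) B hle (fun x hx => hreal x hx)
  exact LAYC.transport _ _ key

end Pool.Agent.RID
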