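import Pool.Agent.RID.St
import Pool.Agent.RI.BCH

/-!
# Decomposition fields and the growth of class groups: module GCP
-/

open NumberField Finset IsDedekindDomain
open scoped nonZeroDivisors Pointwise

namespace Pool.Agent.RID

open Pool.Agent.RI

namespace GCP

/-- The fixed field of a power of an automorphism. -/
lemma cyc_fixed {F L : Type} [Field F] [Field L] [Algebra F L] [FiniteDimensional F L]
    [IsGalois F L] (γ : L ≃ₐ[F] L) (A B : IntermediateField F L) (q : ℕ)
    (hA : ∀ x, γ x = x ↔ x ∈ A) (hAB : A ≤ B)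
    (hd : Module.finrank F B = Module.finrank F A * q) : ∀ x, (γ ^ q) x = x ↔ x ∈ B := by
  classical
  have hq : 0 < q := by
    rcases Nat.eq_zero_or_pos q with h | h
    · rw [h, mul_zero] at hd
      exact absurd hd (Module.finrank_pos (R := F) (M := B)).ne'
    · exact h
  -- powers and fixed elements
  have hfix : ∀ (δ : L ≃ₐ[F] L) (x : L),
      x ∈ IntermediateField.fixedField (Subgroup.zpowers δ) ↔ δ x = x := by
    intro δ x
    constructor
    · intro h
      exact h ⟨δ, Subgroup.mem_zpowers δ⟩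
    · intro h τ
      obtain ⟨τ, j, rfl⟩ := τ
      have h5 : δ ∈ MulAction.stabilizer (L ≃ₐ[F] L) x := h
      exact zpow_mem h5 j
  have hAf : IntermediateField.fixedField (Subgroup.zpowers γ) = A := by
    ext x
    rw [hfix, hA]
  have hAs : A.fixingSubgroup = Subgroup.zpowers γ := by
    rw [← hAf, IntermediateField.fixingSubgroup_fixedField]
  have hle : B.fixingSubgroup ≤ Subgroup.zpowers γ := by
    rw [← hAs]
    exact IntermediateField.fixingSubgroup_antitone hAB
  have c1 : Nat.card (Subgroup.zpowers γ) * Module.finrank F A = Module.finrank F L := by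
    rw [← hAs, IsGalois.card_fixingSubgroup_eq_finrank, mul_comm]
    exact Module.finrank_mul_finrank F A L
  have c2 : Nat.card B.fixingSubgroup * Module.finrank F B = Module.finrank F L := by
    rw [IsGalois.card_fixingSubgroup_eq_finrank, mul_comm]
    exact Module.finrank_mul_finrank F B L
  have hApos : 0 < Module.finrank F A := Module.finrank_pos
  have hord : orderOf γ = q * Nat.card B.fixingSubgroup := by
    rw [← Nat.card_zpowers]
    apply Nat.eq_of_mul_eq_mul_right hApos
    rw [c1, ← c2, hd]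
    ring
  have hcpos : 0 < Nat.card B.fixingSubgroup := Nat.card_pos
  have hord' : orderOf (γ ^ q) = Nat.card B.fixingSubgroup := by
    rw [orderOf_pow_of_dvd hq.ne' ⟨_, hord⟩, hord, Nat.mul_div_cancel_left _ hq]
  have hsub : B.fixingSubgroup ≤ Subgroup.zpowers (γ ^ q) := by
    intro σ hσ
    obtain ⟨j, hj⟩ := hle hσ
    have hj' : γ ^ j = σ := hj
    have h1 : σ ^ Nat.card B.fixingSubgroup = 1 := by
      have := pow_card_eq_one' (x := (⟨σ, hσ⟩ : B.fixingSubgroup))
      exact congrArg Subtype.val this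
    rw [← hj', ← zpow_natCast, ← zpow_mul, ← orderOf_dvd_iff_zpow_eq_one, hord] at h1
    push_cast at h1
    have h2 : (q : ℤ) ∣ j := by
      have h3 : (Nat.card B.fixingSubgroup : ℤ) ≠ 0 := by exact_mod_cast hcpos.ne'
      exact Int.dvd_of_mul_dvd_mul_right h3 h1
    obtain ⟨i, rfl⟩ := h2
    rw [← hj', zpow_mul, zpow_natCast]
    exact Subgroup.zpow_mem_zpowers _ _
  have heq : B.fixingSubgroup = Subgroup.zpowers (γ ^ q) := by
    apply Subgroup.eq_of_le_of_card_ge hsub
    rw [Nat.card_zpowers, hord']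
  intro x
  rw [← hfix, ← heq, IsGalois.fixedField_fixingSubgroup]

/-- The subfield `D` of `L` as an extension of `F`. -/
noncomputable def sub {F L : IntermediateField ℚ ℂ} (h : F ≤ L) (D : IntermediateField ℚ ℂ)
    (hD : F ≤ D) : letI := algC h
    IntermediateField F L :=
  letI := algC h
  { carrier := {x | (x : ℂ) ∈ D}
    mul_mem' := by
      rintro a b ha hb
      exact mul_mem (S := IntermediateField ℚ ℂ) ha hb
    add_mem' := by
      rintro a b ha hb
      exact add_mem (S := IntermediateField ℚ ℂ) ha hb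
    algebraMap_mem' := fun r => hD r.2
    inv_mem' := by
      intro a ha
      have h1 : ((a⁻¹ : L) : ℂ) = (a : ℂ)⁻¹ := rfl
      show ((a⁻¹ : L) : ℂ) ∈ D
      rw [h1]
      exact inv_mem (S := IntermediateField ℚ ℂ) ha }

lemma mem_sub {F L : IntermediateField ℚ ℂ} (h : F ≤ L) (D : IntermediateField ℚ ℂ)
    (hD : F ≤ D) (x : L) : letI := algC h
    x ∈ sub h D hD ↔ (x : ℂ) ∈ D := Iff.rfl

lemma finrank_sub {F L : IntermediateField ℚ ℂ} (h : F ≤ L) (D : IntermediateField ℚ ℂ)
    (hD : F ≤ D) (hDL : D ≤ L) : letI := algC h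
    Module.finrank F (sub h D hD) = Module.finrank F (IntermediateField.extendScalars hD) := by
  let _ := algC h
  let e : (sub h D hD) ≃ₗ[F] (IntermediateField.extendScalars hD) :=
    { toFun := fun x => ⟨((x : L) : ℂ), x.2⟩
      invFun := fun x => ⟨⟨(x : ℂ), hDL x.2⟩, x.2⟩
      left_inv := fun _ => rfl
      right_inv := fun _ => rfl
      map_add' := fun _ _ => rfl
      map_smul' := fun r x => by
        apply Subtype.ext
        rfl }
  exact e.finrank_eq

end GCP

open GCP in
theorem t_GCP : S_GCP := by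
  intro p n _ F K M₁ M _ _ _ l hCD h₁ hM₁M hd h
  let aFL : Algebra F ↥(K ⊔ M) := algC h
  intro γ hγ
  have hpr : p.Prime := Fact.out
  obtain ⟨hBCH1, hBCH2⟩ := BCH_thm
  have fdF : FiniteDimensional ℚ F := FiniteDimensional.of_injective
    (IntermediateField.inclusion h₁).toLinearMap (IntermediateField.inclusion h₁).injective
  have hFK : F ≤ K := hCD.hK
  have hFM : F ≤ M := hCD.hM
  have hFL₁ : F ≤ K ⊔ M₁ := hFK.trans le_sup_left
  have hKL₁ : K ≤ K ⊔ M₁ := le_sup_left
  have hM₁L₁ : M₁ ≤ K ⊔ M₁ := le_sup_right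
  have hL₁L : K ⊔ M₁ ≤ K ⊔ M := sup_le_sup_left hM₁M K
  have gL : IsGalois F ↥(K ⊔ M) :=
    (isGalois_algC h).2 (hBCH2 F K M hFK hFM h hCD.gK hCD.gM)
  have fdL : FiniteDimensional F ↥(K ⊔ M) := by
    have h1 : FiniteDimensional ℚ ↥(K ⊔ M) := inferInstance
    exact Module.Finite.of_restrictScalars_finite ℚ F _
  -- degrees
  have hdeg : Module.finrank F (IntermediateField.extendScalars hFL₁) =
      Module.finrank F (IntermediateField.extendScalars hFK) * p ^ n := by
    let aFK : Algebra F K := algC hFK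
    let aFM₁ : Algebra F M₁ := algC h₁
    let aFL₁ : Algebra F ↥(K ⊔ M₁) := algC hFL₁
    let aKL₁ : Algebra K ↥(K ⊔ M₁) := algC hKL₁
    let aM₁L₁ : Algebra M₁ ↥(K ⊔ M₁) := algC hM₁L₁
    have t1 : IsScalarTower F K ↥(K ⊔ M₁) := towerC hFK hKL₁
    have t2 : IsScalarTower F M₁ ↥(K ⊔ M₁) := towerC h₁ hM₁L₁
    have e1 : Module.finrank F K * Module.finrank K ↥(K ⊔ M₁) =
        Module.finrank F ↥(K ⊔ M₁) := Module.finrank_mul_finrank _ _ _
    have e2 : Module.finrank F M₁ * Module.finrank M₁ ↥(K ⊔ M₁) =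
        Module.finrank F ↥(K ⊔ M₁) := Module.finrank_mul_finrank _ _ _
    have e3 := (hBCH1 F K M₁ M₁ (K ⊔ M₁) hFK hM₁L₁ (sup_of_le_right h₁).symm rfl hCD.gK).2
    rw [← finrank_algC, ← finrank_algC] at e3
    have hdp : Module.finrank F M₁ = p ^ n := (finrank_algC h₁).trans hd
    have hcop : (Module.finrank F K).Coprime (p ^ n) := by
      apply Nat.Coprime.pow_right
      apply Nat.Coprime.symm
      rw [Nat.Prime.coprime_iff_not_dvd hpr]
      have := hCD.copK
      rw [← finrank_algC] at this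
      exact this
    rw [← finrank_algC, ← finrank_algC]
    apply Nat.dvd_antisymm
    · rw [← e2, hdp, mul_comm]
      exact Nat.mul_dvd_mul_right e3 _
    · apply Nat.Coprime.mul_dvd_of_dvd_of_dvd hcop
      · exact ⟨_, e1.symm⟩
      · rw [← hdp]
        exact ⟨_, e2.symm⟩
  have key := cyc_fixed γ (sub h K hFK) (sub h (K ⊔ M₁) hFL₁) (p ^ n)
    (fun x => (hγ x).trans (mem_sub h K hFK x).symm)
    (fun x hx => (le_sup_left : K ≤ K ⊔ M₁) hx)
    (by rw [finrank_sub h K hFK le_sup_left, finrank_sub h (K ⊔ M₁) hFL₁ hL₁L, hdeg])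
  intro x
  exact (key x).trans (mem_sub h (K ⊔ M₁) hFL₁ x)

end Pool.Agent.RID
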