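import Pool.Agent.RID.St
import Pool.Agent.RI.MAINC
import Pool.Agent.RI.LAY
import Pool.Agent.RI.BCH
import Pool.Agent.RI.RAM

/-!
# CDL: the situation for `M = F B`, `B` a layer
-/

open NumberField Finset IsDedekindDomain
open scoped nonZeroDivisors Pointwise

namespace Pool.Agent.RID

open Pool.Agent.RI

namespace CDL

/-- The elements of `M` fixed by `σ`, as a subfield of `ℂ`. -/
def fixSub {F M : IntermediateField ℚ ℂ} (h : F ≤ M)
    (σ : (IntermediateField.extendScalars h) ≃ₐ[F] (IntermediateField.extendScalars h)) :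
    IntermediateField ℚ ℂ where
  carrier := {z | ∃ hz : z ∈ IntermediateField.extendScalars h, σ ⟨z, hz⟩ = ⟨z, hz⟩}
  mul_mem' := by
    rintro a b ⟨ha, ha'⟩ ⟨hb, hb'⟩
    refine ⟨mul_mem ha hb, ?_⟩
    have : (⟨a * b, mul_mem ha hb⟩ : IntermediateField.extendScalars h) = ⟨a, ha⟩ * ⟨b, hb⟩ := rfl
    rw [this, map_mul, ha', hb']
  add_mem' := by
    rintro a b ⟨ha, ha'⟩ ⟨hb, hb'⟩
    refine ⟨add_mem ha hb, ?_⟩
    have : (⟨a + b, add_mem ha hb⟩ : IntermediateField.extendScalars h) = ⟨a, ha⟩ + ⟨b, hb⟩ := rfl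
    rw [this, map_add, ha', hb']
  algebraMap_mem' := by
    intro r
    refine ⟨M.algebraMap_mem r, ?_⟩
    have : (⟨algebraMap ℚ ℂ r, M.algebraMap_mem r⟩ : IntermediateField.extendScalars h) =
        algebraMap F (IntermediateField.extendScalars h) (algebraMap ℚ F r) := by
      apply Subtype.ext; rfl
    rw [this, AlgEquiv.commutes]
  inv_mem' := by
    rintro a ⟨ha, ha'⟩
    refine ⟨inv_mem ha, ?_⟩
    have : (⟨a⁻¹, inv_mem ha⟩ : IntermediateField.extendScalars h) =
      (⟨a, ha⟩ : IntermediateField.extendScalars h)⁻¹ := rfl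
    rw [this, map_inv₀, ha']

lemma cyclic {F B : IntermediateField ℚ ℂ} [IsGalois ℚ B] (hc : IsCyclic (B ≃ₐ[ℚ] B)) :
    IsCyclic ((IntermediateField.extendScalars (le_sup_left : F ≤ F ⊔ B)) ≃ₐ[F]
      (IntermediateField.extendScalars (le_sup_left : F ≤ F ⊔ B))) := by
  set M := IntermediateField.extendScalars (le_sup_left : F ≤ F ⊔ B) with hM
  let : Algebra B M :=
    (IntermediateField.inclusion (le_sup_right : B ≤ F ⊔ B)).toRingHom.toAlgebra
  have hT : IsScalarTower ℚ B M := IsScalarTower.of_algebraMap_eq fun x => by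
    apply Subtype.ext
    rw [eq_ratCast, eq_ratCast, map_ratCast]
  have hT' : IsScalarTower ℚ F M := IsScalarTower.of_algebraMap_eq fun x => by
    apply Subtype.ext
    rw [eq_ratCast, eq_ratCast, map_ratCast]
  let f : (M ≃ₐ[F] M) →* (B ≃ₐ[ℚ] B) :=
    (AlgEquiv.restrictNormalHom (F := ℚ) (K₁ := M) B).comp (AlgEquiv.restrictScalarsHom ℚ)
  refine isCyclic_of_injective f ?_
  rw [injective_iff_map_eq_one]
  intro σ hσ
  have h0 : ∀ x : B, σ (algebraMap B M x) = algebraMap B M x := by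
    intro x
    have h1 := AlgEquiv.restrictNormal_commutes (AlgEquiv.restrictScalars ℚ σ) B x
    have h2 : (AlgEquiv.restrictScalars ℚ σ).restrictNormal B = 1 := hσ
    rw [h2, AlgEquiv.one_apply] at h1
    exact h1.symm
  have h1 : F ≤ fixSub le_sup_left σ := fun z hz =>
    ⟨(le_sup_left : F ≤ F ⊔ B) hz, σ.commutes ⟨z, hz⟩⟩
  have h2 : B ≤ fixSub le_sup_left σ := fun z hz =>
    ⟨(le_sup_right : B ≤ F ⊔ B) hz, h0 ⟨z, hz⟩⟩
  ext x
  obtain ⟨_, h⟩ := (sup_le h1 h2) x.2
  exact congrArg Subtype.val h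

end CDL

theorem t_CDL (hLAYC : S_LAYC) : S_CDL := by
  intro p n _ F K B _ l hK hGK hp hl hE hD hB
  obtain ⟨hfB, hGB, hreal⟩ := LAY_thm p n B hB
  have hcyc := hLAYC p n B hB
  obtain ⟨hdeg, -, m, hBm⟩ := hB
  have hfF : FiniteDimensional ℚ F := FiniteDimensional.of_injective
    (IntermediateField.inclusion hK).toLinearMap (IntermediateField.inclusion hK).toRingHom.injective
  have hfM : FiniteDimensional ℚ ↥(F ⊔ B) := IntermediateField.finiteDimensional_sup F B
  have hbot : IsGalois ↥(⊥ : IntermediateField ℚ ℂ)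
      (IntermediateField.extendScalars (bot_le : (⊥ : IntermediateField ℚ ℂ) ≤ B)) := by
    let e : B ≃ₐ[ℚ] (IntermediateField.extendScalars
        (bot_le : (⊥ : IntermediateField ℚ ℂ) ≤ B)) :=
      { toFun := fun x => ⟨x.1, x.2⟩
        invFun := fun x => ⟨x.1, x.2⟩
        left_inv := fun _ => rfl
        right_inv := fun _ => rfl
        map_mul' := fun _ _ => rfl
        map_add' := fun _ _ => rfl
        commutes' := fun _ => rfl }
    have : IsGalois ℚ (IntermediateField.extendScalars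
        (bot_le : (⊥ : IntermediateField ℚ ℂ) ≤ B)) := IsGalois.of_algEquiv e
    exact IsGalois.tower_top_of_isGalois ℚ _ _
  have hbd : Module.finrank ↥(⊥ : IntermediateField ℚ ℂ)
      (IntermediateField.extendScalars (bot_le : (⊥ : IntermediateField ℚ ℂ) ≤ B)) = p ^ n := by
    rw [← hdeg]
    let e : B ≃ₗ[ℚ] (IntermediateField.extendScalars
        (bot_le : (⊥ : IntermediateField ℚ ℂ) ≤ B)) :=
      { toFun := fun x => ⟨x.1, x.2⟩
        invFun := fun x => ⟨x.1, x.2⟩
        left_inv := fun _ => rfl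
        right_inv := fun _ => rfl
        map_add' := fun _ _ => rfl
        map_smul' := fun _ _ => rfl }
    rw [e.finrank_eq, ← Module.finrank_mul_finrank ℚ ↥(⊥ : IntermediateField ℚ ℂ)
      (IntermediateField.extendScalars (bot_le : (⊥ : IntermediateField ℚ ℂ) ≤ B)),
      IntermediateField.finrank_bot, one_mul]
  have h1 := BCH_thm.1 ⊥ B F F (F ⊔ B) bot_le le_sup_left (bot_sup_eq F).symm (sup_comm F B) hbot
  rw [hbd] at h1
  obtain ⟨a, han, ha⟩ := (Nat.dvd_prime_pow (Fact.out : p.Prime)).1 h1.2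
  refine ⟨⟨hK, le_sup_left, hGK, hp, h1.1, ⟨a, ha⟩, hl, hE, MAINC.unramInf_layer hreal, ?_⟩,
    CDL.cyclic hcyc, a, ha, han, ?_⟩
  · intro P hP hR
    by_cases hP0 : P = ⊥
    · subst hP0
      obtain ⟨E, hEl⟩ := List.exists_mem_of_ne_nil l hl
      obtain ⟨_, hEK, _⟩ := hE E hEl
      refine ⟨E, hEl, hEK, ?_⟩
      intro Q hQ hQP
      let : Algebra E K := algC hEK
      have h0 : (⊥ : Ideal (𝓞 K)).comap (RingOfIntegers.mapRingHom
        (IntermediateField.inclusion hEK : E →+* K)) = ⊥ := Ideal.under_bot (𝓞 E) (𝓞 K)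
      rw [h0] at hQP
      exact Ideal.eq_bot_of_comap_eq_bot (R := 𝓞 E) hQP
    refine hD P hP ?_
    let : Algebra F K := algC hK
    obtain ⟨R, hRp, hRP, he⟩ := hR
    have hPF : P.under (𝓞 F) ≠ ⊥ := fun h0 => hP0 (Ideal.eq_bot_of_comap_eq_bot h0)
    let : Algebra F ↥(F ⊔ B) := algC le_sup_left
    have hR0 : R ≠ ⊥ := by
      rintro rfl
      apply hPF
      refine Eq.trans hRP.symm ?_
      exact Ideal.under_bot _ _
    have hpR : (p : 𝓞 ↥(F ⊔ B)) ∈ R := by
      by_contra hpR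
      apply he
      exact MAINC.ram_aux RAM_thm p m F B hBm ⟨R, hRp, hR0⟩ hpR
    have h2 : (p : 𝓞 F) ∈ R.under (𝓞 F) := by
      rw [Ideal.mem_comap, map_natCast]
      exact hpR
    rw [hRP, Ideal.mem_comap, map_natCast] at h2
    exact h2
  · have h3 : Module.finrank ℚ F * Module.finrank F
        (IntermediateField.extendScalars (le_sup_left : F ≤ F ⊔ B)) =
        Module.finrank ℚ ↥(F ⊔ B) := by
      exact Module.finrank_mul_finrank ℚ F
        (IntermediateField.extendScalars (le_sup_left : F ≤ F ⊔ B))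
    rw [← ha, mul_comm, h3, ← hdeg]
    exact LinearMap.finrank_le_finrank_of_injective
      (f := (IntermediateField.inclusion (le_sup_right : B ≤ F ⊔ B)).toLinearMap)
      (IntermediateField.inclusion (le_sup_right : B ≤ F ⊔ B)).toRingHom.injective

end Pool.Agent.RID
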