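import Pool.Agent.RID.St
import Pool.Agent.RI.CL

/-!
# CYC: facts on `L / K` cyclic generated by `g`
-/

open NumberField Finset IsDedekindDomain
open scoped nonZeroDivisors Pointwise

namespace Pool.Agent.RID

open Pool.Agent.RI

namespace CYC

section

variable {F K L : Type} [Field F] [Field K] [Field L] [Algebra F L] [Algebra K L]

/-- `g` as an automorphism over its fixed field. -/
noncomputable def lift (g : L ≃ₐ[F] L) (h : ∀ y : K, g (algebraMap K L y) = algebraMap K L y) :
    L ≃ₐ[K] L :=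
  AlgEquiv.ofRingEquiv (f := (g : L ≃+* L)) h

lemma lift_apply (g : L ≃ₐ[F] L) (h : ∀ y : K, g (algebraMap K L y) = algebraMap K L y) (x : L) :
    lift g h x = g x := rfl

lemma lift_pow (g : L ≃ₐ[F] L) (h : ∀ y : K, g (algebraMap K L y) = algebraMap K L y) (j : ℕ)
    (x : L) : (lift g h ^ j) x = (g ^ j) x := by
  induction j generalizing x with
  | zero => rfl
  | succ j ih =>
    rw [pow_succ, pow_succ, AlgEquiv.mul_apply, AlgEquiv.mul_apply, lift_apply, ih]

lemma lift_pow_symm (g : L ≃ₐ[F] L) (h : ∀ y : K, g (algebraMap K L y) = algebraMap K L y)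
    (j : ℕ) (x : L) : (lift g h ^ j).symm x = (g ^ j).symm x := by
  rw [AlgEquiv.symm_apply_eq, lift_pow, AlgEquiv.apply_symm_apply]

lemma lift_pow_eq_one (g : L ≃ₐ[F] L) (h : ∀ y : K, g (algebraMap K L y) = algebraMap K L y)
    (j : ℕ) : lift g h ^ j = 1 ↔ g ^ j = 1 := by
  constructor
  · intro e
    ext x
    rw [← lift_pow g h, e]
    rfl
  · intro e
    ext x
    rw [lift_pow g h, e]
    rfl

lemma orderOf_lift (g : L ≃ₐ[F] L) (h : ∀ y : K, g (algebraMap K L y) = algebraMap K L y) :
    orderOf (lift g h) = orderOf g :=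
  orderOf_eq_orderOf_iff.2 (lift_pow_eq_one g h)

lemma lift_pow_units (g : L ≃ₐ[F] L) (h : ∀ y : K, g (algebraMap K L y) = algebraMap K L y)
    (j : ℕ) (x : Lˣ) : (lift g h ^ j) • x = g ^ j • x := by
  apply Units.ext
  exact lift_pow g h j x

lemma lift_pow_J [NumberField L] (g : L ≃ₐ[F] L)
    (h : ∀ y : K, g (algebraMap K L y) = algebraMap K L y)
    (j : ℕ) (b : J L) : (lift g h ^ j) • b = g ^ j • b := by
  apply Units.ext
  ext x
  rw [RI.mem_smul, RI.mem_smul, lift_pow_symm]

lemma lift_pow_place [NumberField L] (g : L ≃ₐ[F] L)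
    (h : ∀ y : K, g (algebraMap K L y) = algebraMap K L y)
    (j : ℕ) (x : InfinitePlace L) : (lift g h ^ j) • x = g ^ j • x := by
  ext y
  rw [InfinitePlace.smul_apply, InfinitePlace.smul_apply, lift_pow_symm]

end

section

variable {K L : Type} [Field K] [NumberField K] [Field L] [NumberField L] [Algebra K L]

/-- If the fixed field of `g` is `K` then the extension is Galois and `g` generates its group. -/
lemma main (g : L ≃ₐ[K] L) (h : ∀ x : L, g x = x → ∃ y : K, algebraMap K L y = x) :
    IsGalois K L ∧ Subgroup.zpowers g = ⊤ := by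
  have h1 : IntermediateField.fixedField (Subgroup.zpowers g) = ⊥ := by
    rw [eq_bot_iff]
    intro x hx
    have h2 : g x = x := hx ⟨g, Subgroup.mem_zpowers g⟩
    obtain ⟨y, hy⟩ := h x h2
    exact IntermediateField.mem_bot.2 ⟨y, hy⟩
  have h3 : IntermediateField.fixedField (⊤ : Subgroup (L ≃ₐ[K] L)) = ⊥ := by
    rw [eq_bot_iff, ← h1]
    intro x hx τ
    exact hx ⟨τ, trivial⟩
  refine ⟨IsGalois.of_fixedField_eq_bot K L h3, ?_⟩
  rw [← IntermediateField.fixingSubgroup_fixedField (Subgroup.zpowers g), h1,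
    IntermediateField.fixingSubgroup_bot]

end

end CYC

open CYC in
theorem t_CYC : S_CYC := by
  intro F K L _ _ _ _ _ _ _ _ _ _ g q hg
  classical
  have hfix : ∀ y : K, g (algebraMap K L y) = algebraMap K L y := fun y =>
    (hg.fix _).2 ⟨y, rfl⟩
  set g' : L ≃ₐ[K] L := lift g hfix with hg'
  obtain ⟨hgal, htop⟩ := CYC.main g' fun x hx => (hg.fix x).1 hx
  have hord : orderOf g' = q := by rw [hg', orderOf_lift, hg.ord]
  have hgen : ∀ τ : L ≃ₐ[K] L, τ ∈ Subgroup.zpowers g' := fun τ => by rw [htop]; trivial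
  have hcard : Nat.card (L ≃ₐ[K] L) = q := by
    rw [← hord, orderOf_eq_card_of_forall_mem_zpowers hgen]
  have hfr : Module.finrank K L = q := by rw [← IsGalois.card_aut_eq_finrank, hcard]
  have hqpos : 0 < q := by rw [← hcard]; exact Nat.card_pos
  have hpow : ∀ τ : L ≃ₐ[K] L, ∃ j < q, g' ^ j = τ := by
    intro τ
    have hmem : τ ∈ Submonoid.powers g' :=
      (isOfFinOrder_of_finite g').mem_powers_iff_mem_zpowers.2 (hgen τ)
    obtain ⟨i, hi⟩ := Submonoid.mem_powers_iff τ g' |>.1 hmem
    refine ⟨i % orderOf g', ?_, ?_⟩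
    · rw [hord]; exact Nat.mod_lt _ hqpos
    · rw [pow_mod_orderOf, hi]
  have hprod : ∀ (X : Type) [CommGroup X] [MulDistribMulAction (L ≃ₐ[K] L) X] (x : X),
      ∏ i ∈ range q, g' ^ i • x = ∏ τ : L ≃ₐ[K] L, τ • x := by
    intro X _ _ x
    refine Finset.prod_bij (fun i _ => g' ^ i) (fun _ _ => mem_univ _) ?_ ?_ (fun _ _ => rfl)
    · intro a ha b hb hab
      rw [mem_range, ← hord] at ha hb
      exact pow_injOn_Iio_orderOf ha hb hab
    · intro τ _
      obtain ⟨j, hj, hj'⟩ := hpow τ
      exact ⟨j, mem_range.2 hj, hj'⟩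
  have hJ : ∀ b : J L, ng g q b = ∏ τ : L ≃ₐ[K] L, τ • b := by
    intro b
    rw [ng_apply, ← hprod]
    exact Finset.prod_congr rfl fun i _ => (lift_pow_J g hfix i b).symm
  have hU : ∀ x : Lˣ, ng g q x = ∏ τ : L ≃ₐ[K] L, τ • x := by
    intro x
    rw [ng_apply, ← hprod]
    exact Finset.prod_congr rfl fun i _ => (lift_pow_units g hfix i x).symm
  refine ⟨hgal, hfr, ?_, ?_, ?_, ?_, hJ, hU, ?_, ?_, ?_⟩
  · intro τ
    obtain ⟨j, hj, hj'⟩ := hpow τ
    exact ⟨j, hj, fun x => by rw [← hj', lift_pow]⟩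
  · intro x hx
    rw [hU] at hx
    have hN : Algebra.norm K (x : L) = 1 := by
      apply (algebraMap K L).injective
      rw [Algebra.norm_eq_prod_automorphisms, map_one]
      have h2 := congrArg (fun u : Lˣ => (u : L)) hx
      simpa using h2
    have : IsCyclic (L ≃ₐ[K] L) := ⟨g', hgen⟩
    obtain ⟨y, hy⟩ := groupCohomology.exists_div_of_norm_eq_one hgen hN
    refine ⟨y, ?_⟩
    apply Units.ext
    rw [← hy, Units.val_div_eq_div_val]
    rfl
  · intro x hx
    have h1 : g (x : L) = x := congrArg (fun u : Lˣ => (u : L)) hx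
    obtain ⟨y, hy⟩ := (hg.fix _).1 h1
    have hy0 : y ≠ 0 := by
      rintro rfl
      rw [map_zero] at hy
      exact x.ne_zero hy.symm
    exact ⟨Units.mk0 y hy0, Units.ext hy⟩
  · intro b hb τ
    obtain ⟨j, -, hj'⟩ := hpow τ
    rw [← hj']
    clear hj'
    induction j with
    | zero => rw [pow_zero, one_smul]
    | succ j ih =>
      have h1 : g' • b = b := by
        have h2 := lift_pow_J g hfix 1 b
        rw [pow_one, pow_one] at h2
        rw [hg', h2, hb]
      rw [pow_succ, mul_smul, h1, ih]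
  · intro c
    have h2 := lift_pow_J g hfix 1 (ext K L c)
    rw [pow_one, pow_one] at h2
    rw [← h2, CL.smul_ext]
  · intro c
    apply Units.ext
    exact hfix c
  · intro hc x j hx
    rw [← lift_pow_eq_one g hfix]
    rw [← lift_pow_place g hfix] at hx
    rw [Nat.card_eq_fintype_card, Nat.card_eq_fintype_card,
      InfinitePlace.card_eq_card_isUnramifiedIn (k := K) (K := L), hfr] at hc
    have h1 := Finset.card_add_card_compl
      ({w : InfinitePlace K | w.IsUnramifiedIn L} : Finset (InfinitePlace K))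
    have h2 : (({w : InfinitePlace K | w.IsUnramifiedIn L} : Finset (InfinitePlace K))ᶜ).card = 0 := by
      by_contra hne
      have h3 : q / 2 < q := Nat.div_lt_self hqpos (by norm_num)
      have h4 := Nat.mul_lt_mul_of_pos_left h3 (Nat.pos_of_ne_zero hne)
      have h5 : q * Fintype.card (InfinitePlace K) =
          ({w : InfinitePlace K | w.IsUnramifiedIn L} : Finset (InfinitePlace K)).card * q +
          (({w : InfinitePlace K | w.IsUnramifiedIn L} : Finset (InfinitePlace K))ᶜ).card * q := by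
        rw [← add_mul, h1, mul_comm]
      omega
    rw [Finset.card_eq_zero, Finset.compl_eq_empty_iff] at h2
    have h6 : (x.comap (algebraMap K L)).IsUnramifiedIn L := by
      have h7 := Finset.mem_univ (x.comap (algebraMap K L))
      rw [← h2] at h7
      simpa using h7
    rw [InfinitePlace.isUnramifiedIn_comap] at h6
    have h8 := InfinitePlace.IsUnramified.stabilizer_eq_bot h6
    have h9 : g' ^ j ∈ MulAction.stabilizer (L ≃ₐ[K] L) x := hx
    rw [h8] at h9
    exact h9

end Pool.Agent.RID
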