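import Pool.Agent.RID.St

/-!
# The ambiguous classes (abstract counting)
-/

open NumberField Finset IsDedekindDomain
open scoped nonZeroDivisors Pointwise

namespace Pool.Agent.RID

open Pool.Agent.RI

namespace ABS1

lemma rel_dvd_right {X : Type} [CommGroup X] {H K L : Subgroup X} (hHL : H ≤ L) (hKL : K ≤ L) :
    H.relIndex K ∣ H.relIndex L := by
  have h1 : H.relIndex (H ⊔ K) = H.relIndex K := Subgroup.relIndex_sup_left K H
  rw [← h1, ← Subgroup.relIndex_mul_relIndex H (H ⊔ K) L le_sup_left (sup_le hHL hKL)]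
  exact Dvd.intro _ rfl

lemma map_dvd {X Y : Type} [CommGroup X] [CommGroup Y] (f : X →* Y) (H K : Subgroup X) :
    (H.map f).relIndex (K.map f) ∣ H.relIndex K := by
  rw [← Subgroup.relIndex_comap]
  exact Subgroup.relIndex_dvd_of_le_left K (Subgroup.le_comap_map f H)

lemma padic_zero (p : ℕ) [hp : Fact p.Prime] {X : Type} [CommGroup X] {H K : Subgroup X} {n : ℕ}
    (hn : n.Coprime p) (h : ∀ x ∈ K, x ^ n ∈ H) : padicValNat p (H.relIndex K) = 0 := by
  by_cases h0 : H.relIndex K = 0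
  · rw [h0, padicValNat.zero]
  · refine padicValNat.eq_zero_of_not_dvd fun hd => ?_
    have hcard : Nat.card (K ⧸ H.subgroupOf K) = H.relIndex K := rfl
    have hfin : Finite (K ⧸ H.subgroupOf K) := Nat.finite_of_card_ne_zero (by rw [hcard]; exact h0)
    rw [← hcard] at hd
    obtain ⟨x, hx⟩ := exists_prime_orderOf_dvd_card' p hd
    have hx1 : x ^ n = 1 := by
      induction x using QuotientGroup.induction_on with
      | H y =>
        rw [← QuotientGroup.mk_pow, QuotientGroup.eq_one_iff, Subgroup.mem_subgroupOf]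
        exact h _ y.2
    have h1 : p ∣ n := by
      rw [← hx]
      exact orderOf_dvd_of_pow_eq_one hx1
    have h2 : p ∣ 1 := by
      rw [← hn]
      exact Nat.dvd_gcd h1 dvd_rfl
    exact hp.out.one_lt.ne' (Nat.dvd_one.1 h2)

lemma padic_mono (p : ℕ) [Fact p.Prime] {a b : ℕ} (hb : b ≠ 0) (h : a ∣ b) :
    padicValNat p a ≤ padicValNat p b :=
  (padicValNat_dvd_iff_le hb).1 (pow_padicValNat_dvd.trans h)

section tel

variable {G X : Type} [Group G] [CommGroup X] [MulDistribMulAction G X]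

lemma ng_dg (g : G) (q : ℕ) (hg : g ^ q = 1) (x : X) : ng g q (dg g x) = 1 := by
  rw [ng_apply]
  have h : ∀ n : ℕ, ∏ i ∈ range n, g ^ i • dg g x = x / g ^ n • x := by
    intro n
    induction n with
    | zero => simp
    | succ n ih =>
      rw [prod_range_succ, ih, dg_apply, smul_div', ← mul_smul, ← pow_succ,
        div_mul_div_cancel]
  rw [h, hg, one_smul, div_self']

lemma smul_ng (g : G) (q : ℕ) (hg : g ^ q = 1) (x : X) : g • ng g q x = ng g q x := by
  rw [ng_apply]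
  have h : ∀ n : ℕ, (g • ∏ i ∈ range n, g ^ i • x) * x = (∏ i ∈ range n, g ^ i • x) * g ^ n • x := by
    intro n
    induction n with
    | zero => simp
    | succ n ih =>
      rw [prod_range_succ, smul_mul', mul_right_comm, ih, ← mul_smul, ← pow_succ']
  have h1 := h q
  rw [hg, one_smul] at h1
  exact mul_right_cancel h1

lemma ng_comm {Y : Type} [CommGroup Y] [MulDistribMulAction G Y] (f : X →* Y) (g : G) (q : ℕ)
    (hf : ∀ x, f (g • x) = g • f x) (x : X) : f (ng g q x) = ng g q (f x) := by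
  have hf' : ∀ (i : ℕ) (x : X), f (g ^ i • x) = g ^ i • f x := by
    intro i
    induction i with
    | zero => intro x; simp
    | succ i ih =>
      intro x
      rw [pow_succ, mul_smul, ih, hf, ← mul_smul]
  rw [ng_apply, ng_apply, map_prod]
  exact prod_congr rfl fun i _ => hf' i x

end tel

end ABS1

open ABS1

theorem t_ABS1 : S_ABS1 := by
  intro p q hp A I A' I' G κ _ _ _ _ _ _ _ l k νA νI νA' νI' dv dv' ι ε g had h0
  obtain ⟨cop, qA, qI, gq, dvg, gA, gI, dvν, sq, εν, ιν, εinj, gε, gι, h90, fixA, inv, fin, fin'⟩ :=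
    had
  set E := dv.ker ⊓ part l νA with hE
  set N₀ := E.map (ng g q : A →* A) with hN₀
  set B₀ := E ⊓ (dg g : A →* A).ker with hB₀
  set P := dv.range with hP
  set P' := dv'.range with hP'
  set X' := partM l νI' P' with hX'
  set Up := partM l νI P ⊓ P.comap (dg g : I →* I) with hUp
  set U := X'.map ε ⊔ P with hU
  set w := wt l k with hw
  have hwp : w.Coprime p := wt_coprime l k cop
  have hdgA : ∀ i ∈ l, ∀ x, (dg g : A →* A) (νA i x) = νA i (dg g x) := by
    intro i hi x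
    rw [dg_apply, dg_apply, map_div, gA i hi]
  have hdgI : ∀ i ∈ l, ∀ x, (dg g : I →* I) (νI i x) = νI i (dg g x) := by
    intro i hi x
    rw [dg_apply, dg_apply, map_div, gI i hi]
  have hdv_dg : ∀ x, dv (dg g x) = dg g (dv x) := by
    intro x
    rw [dg_apply, dg_apply, map_div, dvg]
  have hngA : ∀ i ∈ l, ∀ x, νA i (ng g q x) = ng g q (νA i x) := fun i hi x =>
    ng_comm (νA i) g q (fun y => (gA i hi y).symm) x
  have hngd : ∀ x, dv (ng g q x) = ng g q (dv x) := fun x => ng_comm dv g q dvg x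
  have hstP : ∀ i ∈ l, ∀ x ∈ P, νI i x ∈ P := by
    rintro i hi _ ⟨a, rfl⟩
    rw [← dvν i hi]
    exact ⟨_, rfl⟩
  -- elements of `B₀`
  have hB : ∀ z ∈ part l νA, dv (ng g q z) = 1 → (ng g q : A →* A) z ∈ B₀ := by
    intro z hz hz1
    refine ⟨⟨hz1, mem_part.2 fun i hi => ?_⟩, ?_⟩
    · rw [hngA i hi, mem_part.1 hz i hi, map_one]
    · exact (mem_dg_ker g _).2 (smul_ng g q gq z)
  have hNB : N₀ ≤ B₀ := by
    rintro _ ⟨u, hu, rfl⟩
    refine hB u hu.2 ?_
    have h1 : dv u = 1 := hu.1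
    rw [hngd, h1, map_one]
  -- the correspondence
  let Γ : Subgroup (I × A) :=
    { carrier := {z | z.1 ∈ Up ∧ (dg g : I →* I) z.1 = dv z.2}
      mul_mem' := by
        rintro ⟨a, b⟩ ⟨c, d⟩ ⟨h1, h2⟩ ⟨h1', h2'⟩
        refine ⟨mul_mem h1 h1', ?_⟩
        change (dg g : I →* I) (a * c) = dv (b * d)
        rw [map_mul, map_mul]
        exact congrArg₂ (· * ·) h2 h2'
      one_mem' := ⟨one_mem _, by simp⟩
      inv_mem' := by
        rintro ⟨a, b⟩ ⟨h1, h2⟩
        refine ⟨inv_mem h1, ?_⟩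
        change (dg g : I →* I) (a⁻¹) = dv (b⁻¹)
        rw [map_inv, map_inv]
        exact congrArg _ h2 }
  have hΓ : ∀ a b, (a, b) ∈ Γ ↔ a ∈ Up ∧ (dg g : I →* I) a = dv b := fun a b => Iff.rfl
  let φ : A →* A := (ng g q : A →* A).comp (pr l k νA)
  have hφ : ∀ x, φ x = ng g q (pr l k νA x) := fun x => rfl
  have hyz : ∀ b x, (b, x) ∈ Γ → (dg g : I →* I) (pr l k νI b) = dv (pr l k νA x) := by
    intro b x h
    rw [comm_pr l k νI (dg g) hdgI, ((hΓ b x).1 h).2, pr_map l k νA νI dv dvν]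
  have hφB : ∀ b x, (b, x) ∈ Γ → φ x ∈ B₀ := by
    intro b x h
    rw [hφ]
    refine hB _ (pr_mem l k νA qA x) ?_
    rw [hngd, ← hyz b x h]
    exact ng_dg g q gq _
  have hΓ1 : Γ.map (MonoidHom.fst I A) = Up := by
    apply le_antisymm
    · rintro _ ⟨⟨a, b⟩, h, rfl⟩
      exact h.1
    · intro b hb
      obtain ⟨x, hx⟩ := hb.2
      exact ⟨(b, x), (hΓ b x).2 ⟨hb, hx.symm⟩, rfl⟩
  let ψ : I × A →* A := φ.comp (MonoidHom.snd I A)
  have hΓ2 : Γ.map ψ ≤ B₀ := by
    rintro _ ⟨⟨a, b⟩, h, rfl⟩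
    exact hφB a b h
  set Γ₀ := N₀.comap ψ ⊓ Γ with hΓ₀
  have hr : Γ₀.relIndex Γ = N₀.relIndex (Γ.map ψ) := by
    rw [hΓ₀, Subgroup.inf_relIndex_right, Subgroup.relIndex_comap]
  set U₀ := Γ₀.map (MonoidHom.fst I A) with hU₀
  have hU₀p : U₀ ≤ Up := by
    rw [← hΓ1]
    exact Subgroup.map_mono inf_le_right
  have hd1 : U₀.relIndex Up ∣ N₀.relIndex B₀ := by
    have h1 : U₀.relIndex Up ∣ Γ₀.relIndex Γ := by
      rw [← hΓ1]
      exact map_dvd _ _ _
    rw [hr] at h1
    exact h1.trans (rel_dvd_right hNB hΓ2)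
  have hPU₀ : P ≤ U₀ := by
    rintro _ ⟨a, rfl⟩
    refine ⟨(dv a, dg g a), ⟨?_, (hΓ _ _).2 ⟨⟨?_, ?_⟩, (hdv_dg a).symm⟩⟩, rfl⟩
    · change φ (dg g a) ∈ N₀
      rw [hφ, ← comm_pr l k νA (dg g) hdgA, ng_dg g q gq]
      exact one_mem _
    · exact mem_partM.2 fun i hi => hstP i hi _ ⟨a, rfl⟩
    · exact ⟨dg g a, hdv_dg a⟩
  have hXU₀ : X'.map ε ≤ U₀ := by
    rintro _ ⟨c, hc, rfl⟩
    have h1 : (dg g : I →* I) (ε c) = 1 := by
      rw [dg_apply, gε, div_self']
    refine ⟨(ε c, 1), ⟨?_, (hΓ _ _).2 ⟨⟨?_, ?_⟩, ?_⟩⟩, rfl⟩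
    · change φ 1 ∈ N₀
      rw [map_one]
      exact one_mem _
    · refine mem_partM.2 fun i hi => ?_
      rw [← εν i hi]
      obtain ⟨a, ha⟩ := mem_partM.1 hc i hi
      rw [← ha, sq]
      exact ⟨_, rfl⟩
    · change (dg g : I →* I) (ε c) ∈ P
      rw [h1]
      exact one_mem _
    · rw [h1, map_one]
  have hUU₀ : U ≤ U₀ := sup_le hXU₀ hPU₀
  have hkill : ∀ b ∈ U₀, b ^ (w * w) ∈ U := by
    rintro _ ⟨⟨b, x⟩, ⟨h1, h2⟩, rfl⟩
    change b ^ (w * w) ∈ U
    have hb := ((hΓ b x).1 h2).1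
    obtain ⟨u, hu, huz⟩ := h1
    have huz' : ng g q u = ng g q (pr l k νA x) := huz
    have hz := pr_mem l k νA qA x
    have hu1 : dv u = 1 := hu.1
    have h3 : ng g q (pr l k νA x / u) = 1 := by
      rw [map_div, huz', div_self']
    obtain ⟨v, hv⟩ := h90 _ h3
    have hv' : pr l k νA x / u = dg g v := hv
    have h4 : (pr l k νA x / u) ^ w = dg g (pr l k νA v) := by
      rw [hw, ← pr_part l k νA (div_mem hz hu.2), comm_pr l k νA (dg g) hdgA, ← hv']
    have hy₁ := pr_mem l k νA qA v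
    have hy := pr_mem l k νI qI b
    have h5 : (dg g : I →* I) (pr l k νI b ^ w / dv (pr l k νA v)) = 1 := by
      rw [map_div, ← hdv_dg, ← h4, map_pow, hyz b x h2, map_pow, map_div, hu1, div_one, div_self']
    have hpart : pr l k νI b ^ w / dv (pr l k νA v) ∈ part l νI := by
      refine div_mem (pow_mem hy w) (mem_part.2 fun i hi => ?_)
      rw [← dvν i hi, mem_part.1 hy₁ i hi, map_one]
    obtain ⟨c, hc⟩ := inv _ hpart ((mem_dg_ker g _).1 h5)
    have hcX : c ∈ X' := by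
      refine mem_partM.2 fun i hi => ?_
      have h6 : νI' i c = 1 := by
        apply εinj
        rw [εν i hi, hc, mem_part.1 hpart i hi, map_one]
      rw [h6]
      exact one_mem _
    have h7 : pr l k νI b ^ w ∈ U := by
      have e : pr l k νI b ^ w = ε c * dv (pr l k νA v) := by
        rw [hc, div_mul_cancel]
      rw [e]
      exact mul_mem (le_sup_left (a := X'.map ε) (b := P) ⟨c, hcX, rfl⟩)
        (le_sup_right (a := X'.map ε) (b := P) ⟨_, rfl⟩)
    have h8 : (pr l k νI b / b ^ w) ^ w ∈ U :=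
      (le_sup_right : P ≤ X'.map ε ⊔ P) (pow_mem (pr_partM l k νI P hstP hb.1) w)
    have e : b ^ (w * w) = pr l k νI b ^ w / (pr l k νI b / b ^ w) ^ w := by
      rw [div_pow, div_div_cancel, pow_mul]
    rw [e]
    exact div_mem h7 h8
  have hv0 : padicValNat p (U.relIndex U₀) = 0 :=
    padic_zero p (n := w * w) (Nat.Coprime.mul_left hwp hwp) hkill
  -- indices
  have hn1 : P.relIndex Up ≠ 0 := by
    have h1 : P.index ≠ 0 := by
      have : Finite (I ⧸ P) := fin
      exact Subgroup.index_ne_zero_of_finite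
    exact fun h => h1 (by
      have := Subgroup.relIndex_dvd_index_of_normal P Up
      rw [h] at this
      exact Nat.eq_zero_of_zero_dvd this)
  have hPU : P ≤ U := le_sup_right
  have hm1 := Subgroup.relIndex_mul_relIndex P U Up hPU (hUU₀.trans hU₀p)
  have hm2 := Subgroup.relIndex_mul_relIndex U U₀ Up hUU₀ hU₀p
  have hn2 : P.relIndex U ≠ 0 := fun h => hn1 (by rw [← hm1, h, zero_mul])
  have hn3 : U.relIndex Up ≠ 0 := fun h => hn1 (by rw [← hm1, h, mul_zero])
  have hn4 : U.relIndex U₀ ≠ 0 := fun h => hn3 (by rw [← hm2, h, zero_mul])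
  have hn5 : U₀.relIndex Up ≠ 0 := fun h => hn3 (by rw [← hm2, h, mul_zero])
  rw [← hm1, padicValNat.mul hn2 hn3, ← hm2, padicValNat.mul hn4 hn5, hv0, zero_add, add_comm]
  exact Nat.add_le_add_right (padic_mono p h0 hd1) _

end Pool.Agent.RID
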