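import Pool.Agent.RID.St

/-!
# ALG2: the kernel of the norm to the previous layer is killed by `p` if the rank is small
-/

open Finset Polynomial

namespace Pool.Agent.RID

namespace ALG2

lemma phi_pos (p m : ℕ) [hp : Fact p.Prime] : 0 < p ^ m * (p - 1) :=
  Nat.mul_pos (pow_pos hp.out.pos m) (Nat.sub_pos_of_lt hp.out.one_lt)

/-- `∑_{j < p} X ^ (p ^ m j) = (X - 1) ^ φ + p h`, `h(1) = 1`. -/
lemma poly (p m : ℕ) [hp : Fact p.Prime] :
    ∃ h h₁ : ℤ[X], (∑ j ∈ range p, X ^ (p ^ m * j) : ℤ[X]) =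
      (X - 1) ^ (p ^ m * (p - 1)) + C (p : ℤ) * h ∧ h = 1 + (X - 1) * h₁ := by
  have h0 : (C (p : ℤ) : ℤ[X]) ∣
      (∑ j ∈ range p, X ^ (p ^ m * j) : ℤ[X]) - (X - 1) ^ (p ^ m * (p - 1)) := by
    rw [Polynomial.C_dvd_iff_dvd_coeff]
    intro i
    have h1 : ((∑ j ∈ range p, X ^ (p ^ m * j) : ℤ[X]) - (X - 1) ^ (p ^ m * (p - 1))).map
        (Int.castRingHom (ZMod p)) = 0 := by
      have h2 := Polynomial.cyclotomic_prime_pow_eq_geom_sum (R := ZMod p) (n := m) hp.out
      have h3 := Polynomial.cyclotomic_mul_prime_pow_eq (ZMod p) (p := p) (m := 1)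
        (fun h => hp.out.one_lt.ne' (Nat.dvd_one.1 h)) (k := m + 1) (Nat.succ_pos m)
      rw [mul_one, h2, cyclotomic_one] at h3
      have h4 : p ^ (m + 1) - p ^ (m + 1 - 1) = p ^ m * (p - 1) := by
        rw [Nat.add_sub_cancel, Nat.mul_sub, mul_one, pow_succ]
      rw [h4] at h3
      rw [Polynomial.map_sub, Polynomial.map_pow, Polynomial.map_sub, Polynomial.map_one,
        Polynomial.map_sum, Polynomial.map_X, ← h3, sub_eq_zero]
      refine Finset.sum_congr rfl fun j _ => ?_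
      rw [Polynomial.map_pow, Polynomial.map_X, pow_mul]
    have h5 := congrArg (fun q : (ZMod p)[X] => q.coeff i) h1
    simp only [Polynomial.coeff_map, Polynomial.coeff_zero] at h5
    exact (ZMod.intCast_zmod_eq_zero_iff_dvd _ _).1 h5
  obtain ⟨h, hh⟩ := h0
  have h1 : h.eval 1 = 1 := by
    have h2 := congrArg (Polynomial.eval 1) hh
    rw [Polynomial.eval_sub, Polynomial.eval_mul, Polynomial.eval_C, Polynomial.eval_pow,
      Polynomial.eval_sub, Polynomial.eval_one, Polynomial.eval_X, sub_self,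
      zero_pow (phi_pos p m).ne', sub_zero, Polynomial.eval_finsetSum] at h2
    have h3 : ∑ j ∈ range p, Polynomial.eval 1 (X ^ (p ^ m * j) : ℤ[X]) = (p : ℤ) := by
      simp
    rw [h3] at h2
    have h4 : (p : ℤ) ≠ 0 := by exact_mod_cast hp.out.ne_zero
    have h5 : (p : ℤ) * (h.eval 1) = p * 1 := by rw [mul_one]; exact h2.symm
    exact mul_left_cancel₀ h4 h5
  have h2 : (X - C 1 : ℤ[X]) ∣ h - 1 := by
    rw [Polynomial.dvd_iff_isRoot]
    simp [h1]
  obtain ⟨h₁, hh₁⟩ := h2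
  refine ⟨h, h₁, ?_, ?_⟩
  · rw [← hh]; ring
  · rw [Polynomial.C_1] at hh₁
    rw [← hh₁]; ring

section

variable {A : Type} [AddCommGroup A]

lemma mul_ap (f g : AddMonoid.End A) (x : A) : (f * g) x = f (g x) := rfl

/-- `T^M y = 0` and `h(γ) y = 0` give `y = 0`. -/
lemma inj (γ : AddMonoid.End A) (h h₁ : ℤ[X]) (hh : h = 1 + (X - 1) * h₁) (M : ℕ) (y : A)
    (hT : ((γ - 1) ^ M : AddMonoid.End A) y = 0) (hy : (aeval γ h : AddMonoid.End A) y = 0) :
    y = 0 := by
  obtain ⟨q, hq⟩ : h ∣ 1 ^ M - (1 - h) ^ M := by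
    have h2 := sub_dvd_pow_sub_pow (1 : ℤ[X]) (1 - h) M
    rwa [sub_sub_cancel] at h2
  have h3 : (1 : ℤ[X]) = q * h + (-h₁) ^ M * (X - 1) ^ M := by
    have h4 : (1 - h) = -h₁ * (X - 1) := by rw [hh]; ring
    rw [h4, mul_pow, one_pow] at hq
    rw [mul_comm q h, ← hq]; ring
  have h5 := congrArg (fun r : ℤ[X] => (aeval γ r : AddMonoid.End A) y) h3
  simp only [map_one, map_add, map_mul, map_pow, map_sub, aeval_X] at h5
  rw [AddMonoid.End.one_apply] at h5
  rw [h5]
  show ((aeval γ q : AddMonoid.End A) * aeval γ h) y +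
    (((aeval γ (-h₁) : AddMonoid.End A)) ^ M * (γ - 1) ^ M) y = 0
  rw [mul_ap, mul_ap, hy, hT, map_zero, map_zero, add_zero]

variable (p m v : ℕ) (γ : AddMonoid.End A)

/-- The norm element. -/
def nu : AddMonoid.End A := ∑ j ∈ range p, γ ^ (p ^ m * j)

/-- The elements killed by the norm and by `p ^ v`. -/
def KK : AddSubgroup A where
  carrier := {x | nu p m γ x = 0 ∧ p ^ v • x = 0}
  add_mem' := by
    rintro a b ⟨ha, ha'⟩ ⟨hb, hb'⟩
    exact ⟨by rw [map_add, ha, hb, add_zero], by rw [smul_add, ha', hb', add_zero]⟩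
  zero_mem' := ⟨map_zero _, smul_zero _⟩
  neg_mem' := by
    rintro a ⟨ha, ha'⟩
    exact ⟨by rw [map_neg, ha, neg_zero], by rw [smul_neg, ha', neg_zero]⟩

lemma mem_KK (x : A) : x ∈ KK p m v γ ↔ nu p m γ x = 0 ∧ p ^ v • x = 0 := Iff.rfl

lemma nu_eq : nu p m γ = aeval γ (∑ j ∈ range p, X ^ (p ^ m * j) : ℤ[X]) := by
  rw [map_sum]
  refine Finset.sum_congr rfl fun j _ => ?_
  rw [map_pow, aeval_X]

lemma aeval_comm (f g : ℤ[X]) (x : A) :
    (aeval γ f : AddMonoid.End A) ((aeval γ g : AddMonoid.End A) x) =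
      (aeval γ g : AddMonoid.End A) ((aeval γ f : AddMonoid.End A) x) := by
  rw [← mul_ap, ← mul_ap, ← map_mul, ← map_mul, mul_comm]

/-- `KK` is stable under the polynomials in `γ`. -/
lemma KK_stable (f : ℤ[X]) {x : A} (hx : x ∈ KK p m v γ) :
    (aeval γ f : AddMonoid.End A) x ∈ KK p m v γ := by
  rw [mem_KK] at hx ⊢
  constructor
  · have h1 := hx.1
    rw [nu_eq] at h1 ⊢
    rw [aeval_comm, h1, map_zero]
  · rw [← map_nsmul, hx.2, map_zero]

lemma T_eq : (γ - 1 : AddMonoid.End A) = aeval γ (X - 1 : ℤ[X]) := by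
  rw [map_sub, aeval_X, map_one]

lemma Tpow_stable (i : ℕ) {x : A} (hx : x ∈ KK p m v γ) :
    ((γ - 1) ^ i : AddMonoid.End A) x ∈ KK p m v γ := by
  rw [T_eq, ← map_pow]
  exact KK_stable p m v γ _ hx

/-- `T` is nilpotent on `KK`. -/
lemma nilp [hp : Fact p.Prime] {x : A} (hx : x ∈ KK p m v γ) :
    ((γ - 1) ^ (p ^ m * (p - 1) * v) : AddMonoid.End A) x = 0 := by
  obtain ⟨h, h₁, hh, -⟩ := poly p m
  set N : ℤ[X] := ∑ j ∈ range p, X ^ (p ^ m * j) with hN
  have e1 : (X - 1 : ℤ[X]) ^ (p ^ m * (p - 1)) = N - C (p : ℤ) * h := by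
    rw [hh]; ring
  obtain ⟨q, hq⟩ : N ∣ (N - C (p : ℤ) * h) ^ v - (- (C (p : ℤ) * h)) ^ v := by
    have h2 := sub_dvd_pow_sub_pow (N - C (p : ℤ) * h) (- (C (p : ℤ) * h)) v
    have h3 : N - C (p : ℤ) * h - -(C (p : ℤ) * h) = N := by ring
    rwa [h3] at h2
  have e2 : (X - 1 : ℤ[X]) ^ (p ^ m * (p - 1) * v) = q * N + (-h) ^ v * C ((p : ℤ) ^ v) := by
    rw [pow_mul, e1]
    have h4 : (N - C (p : ℤ) * h) ^ v = N * q + (- (C (p : ℤ) * h)) ^ v := by
      rw [← hq]; ring
    rw [h4, C_pow]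
    have h5 : (-(C (p : ℤ) * h)) ^ v = (-h) ^ v * C (p : ℤ) ^ v := by
      rw [← mul_pow]; congr 1; ring
    rw [h5]; ring
  rw [mem_KK, nu_eq, ← hN] at hx
  rw [T_eq, ← map_pow, e2, map_add, map_mul, map_mul]
  show ((aeval γ q : AddMonoid.End A) * aeval γ N) x +
    ((aeval γ ((-h) ^ v) : AddMonoid.End A) * aeval γ (C ((p : ℤ) ^ v))) x = 0
  rw [mul_ap, mul_ap, hx.1, map_zero, zero_add]
  have h6 : (aeval γ (C ((p : ℤ) ^ v)) : AddMonoid.End A) x = p ^ v • x := by
    rw [aeval_C]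
    have h7 : (algebraMap ℤ (AddMonoid.End A)) ((p : ℤ) ^ v) =
        ((p ^ v : ℕ) : AddMonoid.End A) := by
      rw [algebraMap_int_eq]
      push_cast
      simp
    rw [h7]
    rfl
  rw [h6, hx.2, map_zero]

/-- `KK ∩ ker T^φ` is killed by `p`. -/
lemma kill [hp : Fact p.Prime] {x : A} (hx : x ∈ KK p m v γ)
    (hT : ((γ - 1) ^ (p ^ m * (p - 1)) : AddMonoid.End A) x = 0) : p • x = 0 := by
  obtain ⟨h, h₁, hh, hh1⟩ := poly p m
  refine inj γ h h₁ hh1 (p ^ m * (p - 1) * v) (p • x) ?_ ?_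
  · rw [map_nsmul, nilp p m v γ hx, smul_zero]
  · have h2 := hx.1
    rw [nu_eq, hh, map_add, map_mul, map_pow, ← T_eq] at h2
    have h3 : ((γ - 1) ^ (p ^ m * (p - 1)) : AddMonoid.End A) x +
        ((aeval γ (C (p : ℤ)) : AddMonoid.End A) * aeval γ h) x = 0 := h2
    rw [hT, zero_add, mul_ap] at h3
    have h6 : ∀ y : A, (aeval γ (C (p : ℤ)) : AddMonoid.End A) y = p • y := by
      intro y
      rw [aeval_C]
      have h7 : (algebraMap ℤ (AddMonoid.End A)) (p : ℤ) = ((p : ℕ) : AddMonoid.End A) := by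
        rw [algebraMap_int_eq]
        simp
      rw [h7]
      rfl
    rw [h6] at h3
    rw [map_nsmul]
    exact h3

/-- `V = KK[p]`. -/
def VV : AddSubgroup A where
  carrier := {x | x ∈ KK p m v γ ∧ p • x = 0}
  add_mem' := by
    rintro a b ⟨ha, ha'⟩ ⟨hb, hb'⟩
    exact ⟨add_mem ha hb, by rw [smul_add, ha', hb', add_zero]⟩
  zero_mem' := ⟨zero_mem _, smul_zero _⟩
  neg_mem' := by
    rintro a ⟨ha, ha'⟩
    exact ⟨neg_mem ha, by rw [smul_neg, ha', neg_zero]⟩

lemma T_VV {x : A} (hx : x ∈ VV p m v γ) : (γ - 1 : AddMonoid.End A) x ∈ VV p m v γ := by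
  refine ⟨?_, ?_⟩
  · have h1 := Tpow_stable p m v γ 1 hx.1
    rwa [pow_one] at h1
  · rw [← map_nsmul, hx.2, map_zero]

/-- `T` on `V`. -/
def TV : AddMonoid.End (VV p m v γ) where
  toFun x := ⟨(γ - 1 : AddMonoid.End A) (x : A), T_VV p m v γ x.2⟩
  map_zero' := Subtype.ext (map_zero _)
  map_add' x y := Subtype.ext (map_add (γ - 1 : AddMonoid.End A) (x : A) y)

lemma TV_pow (i : ℕ) (y : VV p m v γ) : (((TV p m v γ ^ i) y : VV p m v γ) : A) =
    ((γ - 1) ^ i : AddMonoid.End A) (y : A) := by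
  induction i generalizing y with
  | zero => rfl
  | succ i ih =>
    rw [pow_succ, mul_ap, ih, pow_succ, mul_ap]
    rfl

/-- A nilpotent operator on a finite vector space. -/
lemma nil_lin [hp : Fact p.Prime] (W : Type) [AddCommGroup W] [Module (ZMod p) W]
    [Module.Finite (ZMod p) W] (F : W →ₗ[ZMod p] W) (M : ℕ)
    (hM : ∀ y, (F ^ M : Module.End (ZMod p) W) y = 0) (y : W) :
    (F ^ padicValNat p (Nat.card W) : Module.End (ZMod p) W) y = 0 := by
  have hcard : Nat.card W = p ^ Module.finrank (ZMod p) W := by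
    have h1 := Module.natCard_eq_pow_finrank (K := ZMod p) (V := W)
    rwa [Nat.card_zmod] at h1
  obtain ⟨k, hk, hk'⟩ := Module.End.exists_ker_pow_eq_ker_pow_succ F
  have h3 := Module.End.ker_pow_constant hk' M
  have h4 : y ∈ LinearMap.ker (F ^ k) := by
    rw [h3, LinearMap.mem_ker, pow_add, Module.End.mul_apply, hM, map_zero]
  rw [LinearMap.mem_ker] at h4
  rw [hcard, padicValNat.prime_pow]
  have h5 : Module.finrank (ZMod p) W = (Module.finrank (ZMod p) W - k) + k := by omega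
  rw [h5, pow_add, Module.End.mul_apply, h4, map_zero]

lemma lin_pow (W : Type) [AddCommGroup W] [Module (ZMod p) W] (f : AddMonoid.End W) (i : ℕ)
    (y : W) : ((AddMonoidHom.toZModLinearMap p (f : W →+ W)) ^ i : Module.End (ZMod p) W) y =
      (f ^ i : AddMonoid.End W) y := by
  induction i generalizing y with
  | zero => rfl
  | succ i ih =>
    rw [pow_succ, Module.End.mul_apply, ih, pow_succ, mul_ap]
    rfl

/-- A nilpotent operator on an elementary abelian group of order `p ^ k` has `k`-th power `0`. -/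
lemma nil_mod [hp : Fact p.Prime] (W : Type) [AddCommGroup W] [Finite W] [Module (ZMod p) W]
    (f : AddMonoid.End W) (M : ℕ) (hM : f ^ M = 0) :
    f ^ padicValNat p (Nat.card W) = 0 := by
  have i2 : Module.Finite (ZMod p) W := Module.Finite.of_finite
  ext y
  rw [← lin_pow p W f]
  exact nil_lin p W (AddMonoidHom.toZModLinearMap p (f : W →+ W)) M
    (fun y => by rw [lin_pow p W f, hM]; rfl) y

/-- A nilpotent operator on an elementary abelian group of order `p ^ k` has `k`-th power `0`. -/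
lemma nil_pow [hp : Fact p.Prime] (W : Type) [AddCommGroup W] [Finite W]
    (hz : ∀ y : W, p • y = 0) (f : AddMonoid.End W) (M : ℕ) (hM : f ^ M = 0) :
    f ^ padicValNat p (Nat.card W) = 0 :=
  @nil_mod p hp W _ _ (AddCommGroup.zmodModule hz) f M hM

/-- The torsion subgroup. -/
def BB : AddSubgroup A where
  carrier := {x | p • x = 0}
  add_mem' := by
    intro a b ha hb
    show p • (a + b) = 0
    rw [smul_add, show p • a = 0 from ha, show p • b = 0 from hb, add_zero]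
  zero_mem' := smul_zero _
  neg_mem' := by
    intro a ha
    show p • (-a) = 0
    rw [smul_neg, show p • a = 0 from ha, neg_zero]

/-- `T^(φ-1) = 0` on `V` if the rank is small. -/
lemma T_pow_V [hp : Fact p.Prime] [Finite A]
    (hd : padicValNat p (Nat.card (BB (A := A) p)) < p ^ m * (p - 1)) {x : A}
    (hx : x ∈ VV p m v γ) : ((γ - 1) ^ (p ^ m * (p - 1) - 1) : AddMonoid.End A) x = 0 := by
  have hM : TV p m v γ ^ (p ^ m * (p - 1) * v) = 0 := by
    ext y
    rw [TV_pow, nilp p m v γ y.2.1]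
    rfl
  have h1 := nil_pow p (VV p m v γ) (fun y => Subtype.ext y.2.2) (TV p m v γ) _ hM
  have hle : VV p m v γ ≤ BB (A := A) p := fun y hy => hy.2
  have hk : padicValNat p (Nat.card (VV p m v γ)) ≤ padicValNat p (Nat.card (BB (A := A) p)) :=
    (padicValNat_dvd_iff_le Nat.card_pos.ne').1
      (pow_padicValNat_dvd.trans (AddSubgroup.card_dvd_of_le hle))
  set k := padicValNat p (Nat.card (VV p m v γ)) with hkd
  have h2 : ((γ - 1) ^ k : AddMonoid.End A) x = 0 := by
    have h4 := TV_pow p m v γ k ⟨x, hx⟩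
    rw [h1] at h4
    exact h4.symm
  have h3 : p ^ m * (p - 1) - 1 = (p ^ m * (p - 1) - 1 - k) + k := by omega
  rw [h3, pow_add, mul_ap, h2, map_zero]

/-- `KK` is killed by `p` if the rank is small. -/
lemma KK_kill [hp : Fact p.Prime] [Finite A]
    (hd : padicValNat p (Nat.card (BB (A := A) p)) < p ^ m * (p - 1)) {x : A}
    (hx : x ∈ KK p m v γ) : p • x = 0 := by
  have hpos := phi_pos p m
  by_contra hne
  have h1 : ¬ ((γ - 1) ^ (p ^ m * (p - 1)) : AddMonoid.End A) x = 0 :=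
    fun h => hne (kill p m v γ hx h)
  have h2 : ∃ N, ((γ - 1) ^ N : AddMonoid.End A) x = 0 := ⟨_, nilp p m v γ hx⟩
  classical
  set N := Nat.find h2 with hN
  have h3 : ((γ - 1) ^ N : AddMonoid.End A) x = 0 := Nat.find_spec h2
  have h4 : p ^ m * (p - 1) < N := by
    by_contra hc
    push Not at hc
    apply h1
    have e : p ^ m * (p - 1) = (p ^ m * (p - 1) - N) + N := by omega
    rw [e, pow_add, mul_ap, h3, map_zero]
  set y := ((γ - 1) ^ (N - p ^ m * (p - 1)) : AddMonoid.End A) x with hy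
  have hyK : y ∈ KK p m v γ := Tpow_stable p m v γ _ hx
  have hyT : ((γ - 1) ^ (p ^ m * (p - 1)) : AddMonoid.End A) y = 0 := by
    rw [hy, ← mul_ap, ← pow_add]
    have e : p ^ m * (p - 1) + (N - p ^ m * (p - 1)) = N := by omega
    rw [e]; exact h3
  have h5 := T_pow_V p m v γ hd ⟨hyK, kill p m v γ hyK hyT⟩
  rw [hy, ← mul_ap, ← pow_add] at h5
  have e : p ^ m * (p - 1) - 1 + (N - p ^ m * (p - 1)) = N - 1 := by omega
  rw [e] at h5
  exact Nat.find_min h2 (m := N - 1) (by omega) h5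

end

end ALG2

open ALG2 in
theorem t_ALG2 : S_ALG2 := by
  intro p m hp A _ _ γ hγ hd
  have hd' : padicValNat p (Nat.card (BB (A := A) p)) < p ^ m * (p - 1) := hd
  show padicValNat p (Nat.card A) ≤ padicValNat p (Nat.card (nu p m γ : A →+ A).range) +
    padicValNat p (Nat.card (BB (A := A) p))
  have h1 : Nat.card A = Nat.card (nu p m γ : A →+ A).ker * Nat.card (nu p m γ : A →+ A).range := by
    rw [← AddSubgroup.index_ker, AddSubgroup.card_mul_index]
  rw [h1, padicValNat.mul Nat.card_pos.ne' Nat.card_pos.ne', add_comm]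
  refine Nat.add_le_add_left ?_ _
  set v := padicValNat p (Nat.card (nu p m γ : A →+ A).ker) with hv
  obtain ⟨S, hS⟩ := Sylow.exists_subgroup_card_pow_prime
    (G := Multiplicative (nu p m γ : A →+ A).ker) p (n := v) pow_padicValNat_dvd
  have h2 : Nat.card (Subgroup.toAddSubgroup' S) = p ^ v := hS
  have h3 : Nat.card ((Subgroup.toAddSubgroup' S).map (nu p m γ : A →+ A).ker.subtype) = p ^ v := by
    rw [← h2]
    exact Nat.card_congr ((Subgroup.toAddSubgroup' S).equivMapOfInjective _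
      (AddSubgroup.subtype_injective _)).symm.toEquiv
  have h4 : (Subgroup.toAddSubgroup' S).map (nu p m γ : A →+ A).ker.subtype ≤ BB (A := A) p := by
    rintro _ ⟨x, hx, rfl⟩
    show p • (x : A) = 0
    refine KK_kill p m v γ hd' ⟨x.2, ?_⟩
    have h5 : p ^ v • (⟨x, hx⟩ : Subgroup.toAddSubgroup' S) = 0 := by
      rw [← h2]
      exact card_nsmul_eq_zero'
    have h6 := congrArg (fun z : Subgroup.toAddSubgroup' S => ((z : (nu p m γ : A →+ A).ker) : A)) h5
    exact h6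
  have h5 := AddSubgroup.card_dvd_of_le h4
  rw [h3] at h5
  exact (padicValNat_dvd_iff_le Nat.card_pos.ne').1 h5

end Pool.Agent.RID
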