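import Pool.Agent.RID.St
import Pool.Agent.RI.CL

/-!
# Module INJ: divisibility of class numbers in extensions of degree prime to `p`
-/

open NumberField Finset

namespace Pool.Agent.RID

open Pool.Agent.RI

namespace INJ

/-- Group theory: a homomorphism whose kernel has exponent prime to `p`. -/
theorem abs (p : ℕ) [hp : Fact p.Prime] (A C : Type) [CommGroup A] [CommGroup C] [Finite A]
    [Finite C] (e : C →* A) (d : ℕ) (hd : d.Coprime p) (h3 : ∀ c, e c = 1 → c ^ d = 1) :
    padicValNat p (Nat.card C) ≤ padicValNat p (Nat.card A) := by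
  have c1 : ¬ p ∣ Nat.card e.ker := by
    rw [CL.not_dvd_card_iff]
    rintro ⟨b, hb⟩
    exact ⟨d, hd, Subtype.ext (h3 b hb)⟩
  have e2 : Nat.card C = Nat.card e.ker * Nat.card e.range := by
    rw [← Subgroup.index_ker, Subgroup.card_mul_index]
  have hA : Nat.card A ≠ 0 := Nat.card_ne_zero.2 ⟨inferInstance, inferInstance⟩
  have h1 : Nat.card e.ker ≠ 0 := Nat.card_ne_zero.2 ⟨inferInstance, inferInstance⟩
  have h2 : Nat.card e.range ≠ 0 := Nat.card_ne_zero.2 ⟨inferInstance, inferInstance⟩
  rw [e2, padicValNat.mul h1 h2, padicValNat.eq_zero_of_not_dvd c1, zero_add]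
  exact (padicValNat_dvd_iff_le hA).1
    ((pow_padicValNat_dvd).trans (Subgroup.card_subgroup_dvd_card e.range))

/-- The statement for abstract number fields. -/
theorem main (p : ℕ) [hp : Fact p.Prime] (F K : Type) [Field F] [NumberField F] [Field K]
    [NumberField K] [Algebra F K] [IsGalois F K] (hd : (Module.finrank F K).Coprime p) :
    padicValNat p (NumberField.classNumber F) ≤ padicValNat p (NumberField.classNumber K) := by
  let e : (J F ⧸ (prin (K := F)).range) →* (J K ⧸ (prin (K := K)).range) :=
    QuotientGroup.map _ _ (ext F K) (by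
      rintro _ ⟨x, rfl⟩
      rw [Subgroup.mem_comap, ext_prin]
      exact ⟨_, rfl⟩)
  rw [CL.classNumber_eq, CL.classNumber_eq]
  refine abs p _ _ e (Module.finrank F K) hd ?_
  intro c hc
  obtain ⟨c, rfl⟩ := QuotientGroup.mk_surjective c
  change (QuotientGroup.mk (ext F K c) : J K ⧸ (prin (K := K)).range) = 1 at hc
  rw [QuotientGroup.eq_one_iff] at hc
  obtain ⟨x, hx⟩ := hc
  rw [← QuotientGroup.mk_pow, QuotientGroup.eq_one_iff]
  refine ⟨Units.map (Algebra.norm F : K →* F) x, ?_⟩
  apply ext_injective F K
  rw [← CL.nm_prin, hx, CL.nm_ext, map_pow]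

end INJ

/-- Module INJ. -/
theorem t_INJ : S_INJ := by
  intro p hp A B hB h hgal hdeg
  have hA : FiniteDimensional ℚ A :=
    FiniteDimensional.of_injective (IntermediateField.inclusion h).toLinearMap
      (IntermediateField.inclusion h).toRingHom.injective
  let : Algebra A B := algC h
  have hg : IsGalois A B := (isGalois_algC h).2 hgal
  have hf : Module.finrank A B = Module.finrank A (IntermediateField.extendScalars h) :=
    finrank_algC h
  have hd : (Module.finrank A B).Coprime p := by
    rw [hf]
    exact ((Nat.Prime.coprime_iff_not_dvd hp.1).2 hdeg).symm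
  have := INJ.main p A B hd
  rw [NumberField.classNumber, NumberField.classNumber, ← Nat.card_eq_fintype_card,
    ← Nat.card_eq_fintype_card] at this
  exact this

end Pool.Agent.RID
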