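import Pool.Agent.RI.Basic

/-!
# Decomposition fields and the growth of class groups: definitions

Definitions used in the main statement: `fromSub`, `eOf`, `OnlyAbove`, `DecRam`, `DecP` (and
`classNo`, `IsLayer`, `UnramInf`, `Ramifies` of `Pool/Agent/RI/Defs.lean`).
-/

open NumberField Finset
open scoped nonZeroDivisors Pointwise

namespace Pool.Agent.RID

open Pool.Agent.RI

/-! ### Definitions for the main statement -/

/-- The subgroup of the class group of `L` generated by the classes of the ideals `I 𝓞_L`, `I` an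
ideal of (the ring of integers of) a field `E ∈ S` that is contained in `L`. -/
noncomputable def fromSub (L : IntermediateField ℚ ℂ) [FiniteDimensional ℚ L]
    (S : Set (IntermediateField ℚ ℂ)) : Subgroup (ClassGroup (𝓞 L)) :=
  Subgroup.closure {c | ∃ E ∈ S, ∃ (h : E ≤ L) (I : Ideal (𝓞 E)) (I' : (Ideal (𝓞 L))⁰),
    (I' : Ideal (𝓞 L)) =
      I.map (RingOfIntegers.mapRingHom (IntermediateField.inclusion h : E →+* L)) ∧
    c = ClassGroup.mk0 I'}

/-- `e(M)`: the exponent of `p` in the index, in the class group of `K M`, of the subgroup generated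
by the classes of the ideals of the fields `E M`, `E ∈ S`. -/
noncomputable def eOf (p : ℕ) (K M : IntermediateField ℚ ℂ) [FiniteDimensional ℚ K]
    [FiniteDimensional ℚ M] (S : Set (IntermediateField ℚ ℂ)) : ℕ :=
  padicValNat p (fromSub (K ⊔ M) {D | ∃ E ∈ S, D = E ⊔ M}).index

/-- `P` is the only prime of `K` above the prime `P ∩ E` of `E`. -/
def OnlyAbove {E K : IntermediateField ℚ ℂ} (h : E ≤ K) (P : Ideal (𝓞 K)) : Prop :=
  ∀ Q : Ideal (𝓞 K), Q.IsPrime →
    Q.comap (RingOfIntegers.mapRingHom (IntermediateField.inclusion h : E →+* K)) =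
      P.comap (RingOfIntegers.mapRingHom (IntermediateField.inclusion h : E →+* K)) → Q = P

/-- Every prime `P` of `K` such that `P ∩ F` ramifies in `M` is the only prime of `K` above `P ∩ E`
for some `E ∈ S`. -/
def DecRam {F K M : IntermediateField ℚ ℂ} (hK : F ≤ K) (hM : F ≤ M)
    (S : Set (IntermediateField ℚ ℂ)) : Prop :=
  ∀ P : Ideal (𝓞 K), P.IsPrime →
    Ramifies hM
      (P.comap (RingOfIntegers.mapRingHom (IntermediateField.inclusion hK : F →+* K))) →
    ∃ E ∈ S, ∃ h : E ≤ K, OnlyAbove h P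

/-- Every prime `P` of `K` above `p` is the only prime of `K` above `P ∩ E` for some `E ∈ S`. -/
def DecP (p : ℕ) (K : IntermediateField ℚ ℂ) (S : Set (IntermediateField ℚ ℂ)) : Prop :=
  ∀ P : Ideal (𝓞 K), P.IsPrime → (p : 𝓞 K) ∈ P → ∃ E ∈ S, ∃ h : E ≤ K, OnlyAbove h P

/-! ### Operators -/

section ops

variable {G X : Type} [Group G] [Finite G] [CommGroup X] [MulDistribMulAction G X]

open Classical in
/-- `x ↦ ∏_{σ ∈ N} σ x`. -/
noncomputable def nuS (N : Subgroup G) : X →* X :=
  letI := Fintype.ofFinite N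
  { toFun := fun x => ∏ σ : N, (σ : G) • x
    map_one' := by simp
    map_mul' := fun x y => by simp [smul_mul', Finset.prod_mul_distrib] }

lemma nuS_apply (N : Subgroup G) [h : Fintype N] (x : X) :
    nuS N x = ∏ σ : N, (σ : G) • x := by
  have e : h = Fintype.ofFinite N := Subsingleton.elim _ _
  subst e
  rfl

end ops

section ops2

variable {G X : Type} [Group G] [CommGroup X] [MulDistribMulAction G X]

/-- `x ↦ ∏_{i < q} g^i x`. -/
def ng (g : G) (q : ℕ) : X →* X where
  toFun x := ∏ i ∈ range q, g ^ i • x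
  map_one' := by simp
  map_mul' x y := by simp [smul_mul', Finset.prod_mul_distrib]

lemma ng_apply (g : G) (q : ℕ) (x : X) : ng g q x = ∏ i ∈ range q, g ^ i • x := rfl

/-- `x ↦ x / g x`. -/
def dg (g : G) : X →* X where
  toFun x := x / g • x
  map_one' := by simp
  map_mul' x y := by simp [smul_mul', mul_div_mul_comm]

lemma dg_apply (g : G) (x : X) : dg g x = x / g • x := rfl

lemma mem_dg_ker (g : G) (x : X) : x ∈ (dg g : X →* X).ker ↔ g • x = x := by
  rw [MonoidHom.mem_ker, dg_apply, div_eq_one]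
  exact eq_comm

end ops2

section proj

variable {κ X : Type} [CommGroup X]

/-- The operators `ν i`, `i ∈ l`, commute and satisfy `ν i ∘ ν i = (ν i) ^ (k i)`. -/
def QP (l : List κ) (k : κ → ℕ) (ν : κ → X →* X) : Prop :=
  (∀ i ∈ l, ∀ x, ν i (ν i x) = ν i x ^ k i) ∧ ∀ i ∈ l, ∀ j ∈ l, ∀ x, ν i (ν j x) = ν j (ν i x)

/-- The elements `x` with `ν i x ∈ P` for `i ∈ l`. -/
def partM (l : List κ) (ν : κ → X →* X) (P : Subgroup X) : Subgroup X where
  carrier := {x | ∀ i ∈ l, ν i x ∈ P}
  mul_mem' ha hb i hi := by rw [map_mul]; exact mul_mem (ha i hi) (hb i hi)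
  one_mem' i _ := by rw [map_one]; exact one_mem _
  inv_mem' ha i hi := by rw [map_inv]; exact inv_mem (ha i hi)

/-- The elements `x` with `ν i x = 1` for `i ∈ l`. -/
def part (l : List κ) (ν : κ → X →* X) : Subgroup X := partM l ν ⊥

lemma mem_partM {l : List κ} {ν : κ → X →* X} {P : Subgroup X} {x : X} :
    x ∈ partM l ν P ↔ ∀ i ∈ l, ν i x ∈ P := Iff.rfl

lemma mem_part {l : List κ} {ν : κ → X →* X} {x : X} :
    x ∈ part l ν ↔ ∀ i ∈ l, ν i x = 1 := by
  unfold part
  simp only [mem_partM, Subgroup.mem_bot]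

/-- `x ↦ x ^ k / ν x`. -/
def fac (k : ℕ) (ν : X →* X) : X →* X where
  toFun x := x ^ k / ν x
  map_one' := by simp
  map_mul' x y := by rw [map_mul, mul_pow, mul_div_mul_comm]

lemma fac_apply (k : ℕ) (ν : X →* X) (x : X) : fac k ν x = x ^ k / ν x := rfl

/-- The product of the operators `k i - ν i`, `i ∈ l`. -/
def pr (l : List κ) (k : κ → ℕ) (ν : κ → X →* X) : X →* X :=
  l.foldr (fun i f => (fac (k i) (ν i)).comp f) (MonoidHom.id X)

@[simp] lemma pr_nil (k : κ → ℕ) (ν : κ → X →* X) (x : X) : pr [] k ν x = x := rfl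

@[simp] lemma pr_cons (i : κ) (l : List κ) (k : κ → ℕ) (ν : κ → X →* X) (x : X) :
    pr (i :: l) k ν x = pr l k ν x ^ k i / ν i (pr l k ν x) := rfl

/-- The product of the `k i`, `i ∈ l`. -/
def wt (l : List κ) (k : κ → ℕ) : ℕ := (l.map k).prod

@[simp] lemma wt_nil (k : κ → ℕ) : wt [] k = 1 := rfl

@[simp] lemma wt_cons (i : κ) (l : List κ) (k : κ → ℕ) : wt (i :: l) k = k i * wt l k := rfl

lemma wt_coprime {p : ℕ} (l : List κ) (k : κ → ℕ) (h : ∀ i ∈ l, (k i).Coprime p) :
    (wt l k).Coprime p := by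
  induction l with
  | nil => simp
  | cons i l ih =>
    rw [wt_cons]
    exact Nat.Coprime.mul_left (h i (by simp)) (ih fun j hj => h j (by simp [hj]))

lemma pr_map {Y : Type} [CommGroup Y] (l : List κ) (k : κ → ℕ) (ν : κ → X →* X)
    (ν' : κ → Y →* Y) (f : X →* Y) (h : ∀ i ∈ l, ∀ x, f (ν i x) = ν' i (f x)) (x : X) :
    f (pr l k ν x) = pr l k ν' (f x) := by
  induction l with
  | nil => rfl
  | cons i l ih =>
    have ih' := ih fun j hj => h j (by simp [hj])
    rw [pr_cons, pr_cons, map_div, map_pow, h i (by simp), ih']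

lemma pr_part (l : List κ) (k : κ → ℕ) (ν : κ → X →* X) {x : X} (hx : x ∈ part l ν) :
    pr l k ν x = x ^ wt l k := by
  rw [mem_part] at hx
  induction l with
  | nil => simp
  | cons i l ih =>
    have ih' := ih fun j hj => hx j (by simp [hj])
    rw [pr_cons, ih', map_pow, hx i (by simp), one_pow, div_one, wt_cons, ← pow_mul, mul_comm]

lemma pr_mem_stable (l : List κ) (k : κ → ℕ) (ν : κ → X →* X) (P : Subgroup X)
    (hP : ∀ i ∈ l, ∀ x ∈ P, ν i x ∈ P) {x : X} (hx : x ∈ P) : pr l k ν x ∈ P := by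
  induction l with
  | nil => exact hx
  | cons i l ih =>
    have ih' := ih fun j hj => hP j (by simp [hj])
    rw [pr_cons]
    exact div_mem (pow_mem ih' _) (hP i (by simp) _ ih')

/-- `pr x ≡ x ^ wt` modulo `P` if all `ν i x` are in the stable subgroup `P`. -/
lemma pr_partM (l : List κ) (k : κ → ℕ) (ν : κ → X →* X) (P : Subgroup X)
    (hP : ∀ i ∈ l, ∀ x ∈ P, ν i x ∈ P) {x : X} (hx : x ∈ partM l ν P) :
    pr l k ν x / x ^ wt l k ∈ P := by
  rw [mem_partM] at hx
  induction l with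
  | nil => simp
  | cons i l ih =>
    have ih' := ih (fun j hj => hP j (by simp [hj])) fun j hj => hx j (by simp [hj])
    have h1 : ν i (pr l k ν x) ∈ P := by
      have e : pr l k ν x = (pr l k ν x / x ^ wt l k) * x ^ wt l k := by
        rw [div_mul_cancel]
      rw [e, map_mul, map_pow]
      exact mul_mem (hP i (by simp) _ ih') (pow_mem (hx i (by simp)) _)
    have h2 : pr (i :: l) k ν x / x ^ wt (i :: l) k =
        (pr l k ν x / x ^ wt l k) ^ k i / ν i (pr l k ν x) := by
      rw [pr_cons, wt_cons, div_pow, ← pow_mul, mul_comm (wt l k), div_right_comm]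
    rw [h2]
    exact div_mem (pow_mem ih' _) h1

lemma comm_pr (l : List κ) (k : κ → ℕ) (ν : κ → X →* X) (f : X →* X)
    (h : ∀ i ∈ l, ∀ x, f (ν i x) = ν i (f x)) (x : X) :
    f (pr l k ν x) = pr l k ν (f x) := pr_map l k ν ν f h x

lemma pr_mem (l : List κ) (k : κ → ℕ) (ν : κ → X →* X) (h : QP l k ν) (x : X) :
    pr l k ν x ∈ part l ν := by
  rw [mem_part]
  induction l with
  | nil => intro i hi; simp at hi
  | cons i l ih =>
    have ih' := ih ⟨fun j hj => h.1 j (by simp [hj]),
      fun j hj j' hj' => h.2 j (by simp [hj]) j' (by simp [hj'])⟩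
    intro j hj
    rw [pr_cons, map_div, map_pow]
    rcases List.mem_cons.1 hj with rfl | hj
    · rw [h.1 j (by simp), div_self']
    · rw [ih' j hj, one_pow, h.2 j (by simp [hj]) i (by simp), ih' j hj, map_one, div_one]

end proj

/-! ### Fields -/

/-- The fractional ideals `b` of `L` such that all norms `∏_{σ ∈ N i} σ b`, `i ∈ l`, are
principal. -/
noncomputable def XsJ {F L κ : Type} [Field F] [Field L] [NumberField L] [Algebra F L]
    [FiniteDimensional F L] (l : List κ) (N : κ → Subgroup (L ≃ₐ[F] L)) : Subgroup (J L) :=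
  partM l (fun i => nuS (N i)) (prin : Lˣ →* J L).range

/-- The units of `L` fixed by `H` with trivial norms for the `N i`, `i ∈ l`. -/
noncomputable def WU {F L κ : Type} [Field F] [Field L] [NumberField L] [Algebra F L]
    [FiniteDimensional F L] (l : List κ) (N : κ → Subgroup (L ≃ₐ[F] L))
    (H : Subgroup (L ≃ₐ[F] L)) : Subgroup Lˣ where
  carrier := {u | prin u = 1 ∧ (∀ σ ∈ H, σ • u = u) ∧ u ∈ part l (fun i => nuS (N i))}
  mul_mem' := by
    rintro a b ⟨ha, ha', ha''⟩ ⟨hb, hb', hb''⟩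
    exact ⟨by rw [map_mul, ha, hb, one_mul], fun σ hσ => by rw [smul_mul', ha' σ hσ, hb' σ hσ],
      mul_mem ha'' hb''⟩
  one_mem' := ⟨map_one _, fun σ _ => smul_one _, one_mem _⟩
  inv_mem' := by
    rintro a ⟨ha, ha', ha''⟩
    exact ⟨by rw [map_inv, ha, inv_one], fun σ hσ => by rw [smul_inv', ha' σ hσ], inv_mem ha''⟩

/-- `g` is an automorphism of `L / F` of order `q` with fixed field `K`. -/
structure CycExt (F K L : Type) [Field F] [Field K] [Field L] [Algebra F L] [Algebra K L]
    (g : L ≃ₐ[F] L) (q : ℕ) : Prop where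
  ord : orderOf g = q
  fix : ∀ x : L, g x = x ↔ ∃ y : K, algebraMap K L y = x

/-- The subgroup `N` of `Gal(L / F)` corresponds bijectively to the subgroup `N'` of
`Gal(K / F)`. -/
def Match {F K L : Type} [Field F] [Field K] [Field L] [Algebra F K] [Algebra F L] [Algebra K L]
    (N' : Subgroup (K ≃ₐ[F] K)) (N : Subgroup (L ≃ₐ[F] L)) : Prop :=
  ∃ e : N' ≃ N, ∀ (σ : N') (x : K),
    algebraMap K L ((σ : K ≃ₐ[F] K) x) = ((e σ : N) : L ≃ₐ[F] L) (algebraMap K L x)

/-- The situation of one step: `L / K` cyclic of degree `p ^ a` generated by `g`. -/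
structure Sys (p : ℕ) (F K L : Type) {κ : Type} [Field F] [NumberField F] [Field K]
    [NumberField K] [Field L] [NumberField L] [Algebra F K] [Algebra F L] [Algebra K L]
    [IsScalarTower F K L] (l : List κ) (N' : κ → Subgroup (K ≃ₐ[F] K))
    (N : κ → Subgroup (L ≃ₐ[F] L)) (g : L ≃ₐ[F] L) (a : ℕ) : Prop where
  galK : IsGalois F K
  galL : IsGalois F L
  ne : l ≠ []
  cyc : CycExt F K L g (p ^ a)
  nrm : ∀ i ∈ l, (N i).Normal
  nrm' : ∀ i ∈ l, (N' i).Normal
  cop : ∀ i ∈ l, (Nat.card (N i)).Coprime p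
  com : ∀ i ∈ l, ∀ σ ∈ N i, σ * g = g * σ
  mat : ∀ i ∈ l, Match (N' i) (N i)
  inf : Nat.card (InfinitePlace L) = p ^ a * Nat.card (InfinitePlace K)
  ram : ∀ w : IsDedekindDomain.HeightOneSpectrum (𝓞 L), w.asIdeal.ramificationIdx (𝓞 K) ≠ 1 →
    ∃ i ∈ l, ∀ σ ∈ N i, σ • w.asIdeal = w.asIdeal

/-! ### Subfields of `ℂ` -/

/-- The automorphisms of `L / F` that fix the elements of `L ∩ D`. -/
noncomputable def NC {F L : IntermediateField ℚ ℂ} (h : F ≤ L) (D : IntermediateField ℚ ℂ) :
    letI := algC h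
    Subgroup (L ≃ₐ[F] L) :=
  letI := algC h
  { carrier := {σ | ∀ x : L, (x : ℂ) ∈ D → σ x = x}
    mul_mem' := fun {a b} ha hb x hx => by
      rw [AlgEquiv.mul_apply, hb x hx, ha x hx]
    one_mem' := fun x _ => rfl
    inv_mem' := fun {a} ha x hx => by
      have h1 := congrArg (a⁻¹ : L ≃ₐ[F] L) (ha x hx)
      rw [← AlgEquiv.mul_apply, inv_mul_cancel, AlgEquiv.one_apply] at h1
      exact h1.symm }

/-- The situation of the theorems, for subfields of `ℂ`. -/
structure CD (p : ℕ) (F K M : IntermediateField ℚ ℂ) (l : List (IntermediateField ℚ ℂ)) :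
    Prop where
  hK : F ≤ K
  hM : F ≤ M
  gK : IsGalois F (IntermediateField.extendScalars hK)
  copK : ¬ p ∣ Module.finrank F (IntermediateField.extendScalars hK)
  gM : IsGalois F (IntermediateField.extendScalars hM)
  degM : ∃ a : ℕ, Module.finrank F (IntermediateField.extendScalars hM) = p ^ a
  ne : l ≠ []
  mem : ∀ E ∈ l, ∃ h : F ≤ E, E ≤ K ∧ IsGalois F (IntermediateField.extendScalars h)
  inf : UnramInf hM
  ram : DecRam hK hM {E | E ∈ l}

end Pool.Agent.RID
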