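import Pool.Agent.RID.St
import Pool.Agent.RI.HERB

/-!
# Module HERBQ: Herbrand quotient one
-/

set_option autoImplicit false

open NumberField Finset

namespace Pool.Agent.RID

open Pool.Agent.RI

namespace HERBQ

theorem finrank_zero {M : Type*} [AddCommGroup M] [Module.Finite ℤ M] {K : AddSubgroup M}
    (hK : K ≤ AddCommGroup.torsion M) : Module.finrank ℤ K = 0 := by
  have h1 : Module.Finite ℤ (AddSubgroup.toIntSubmodule K) := inferInstance
  have h2 : Module.finrank ℤ (AddSubgroup.toIntSubmodule K) = 0 := by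
    rw [Module.finrank_eq_zero_iff_isTorsion]
    rintro ⟨x, hx⟩
    obtain ⟨n, hn, hx''⟩ := isOfFinAddOrder_iff_nsmul_eq_zero.mp (hK hx)
    refine ⟨⟨(n : ℤ), mem_nonZeroDivisors_of_ne_zero (by exact_mod_cast hn.ne')⟩, ?_⟩
    apply Subtype.ext
    change ((n : ℤ) : ℤ) • x = 0
    rw [natCast_zsmul, hx'']
  exact h2

theorem rk_eq {M N : Type*} [AddCommGroup M] [Module.Finite ℤ M] [AddCommGroup N]
    [Module.Finite ℤ N] (j : N →+ M) (hj : Function.Injective j) (θ : M →+ N)
    (hθ : θ.ker ≤ AddCommGroup.torsion M) : Module.finrank ℤ N = Module.finrank ℤ M := by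
  apply le_antisymm
  · exact LinearMap.finrank_le_finrank_of_injective (f := j.toIntLinearMap) hj
  · have h1 := HERB.rank_nullity θ
    rw [finrank_zero hθ, add_zero] at h1
    rw [← h1]
    exact LinearMap.finrank_le_finrank_of_injective (f := θ.range.subtype.toIntLinearMap)
      Subtype.val_injective

/-- Herbrand quotient one, additively. -/
theorem main_add (hHQ1 : S_HQ1) (hHQ3 : S_HQ3) (p a : ℕ) [Fact p.Prime] (X : Type)
    [AddCommGroup X] [Module.Finite ℤ X] (k : AddMonoid.End X) (hk : k ^ (p ^ a) = 1)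
    (hr : ∀ i ≤ a, Module.finrank ℤ (AddMonoidHom.ker (k ^ (p ^ i) - 1 : AddMonoid.End X)) =
      p ^ i * Module.finrank ℤ (AddMonoidHom.ker (k - 1 : AddMonoid.End X))) :
    (AddMonoidHom.range (∑ j ∈ range (p ^ a), k ^ j : AddMonoid.End X)).relIndex
      (AddMonoidHom.ker (k - 1 : AddMonoid.End X)) ≠ 0 ∧
    (AddMonoidHom.range (∑ j ∈ range (p ^ a), k ^ j : AddMonoid.End X)).relIndex
      (AddMonoidHom.ker (k - 1 : AddMonoid.End X)) =
    (AddMonoidHom.range (k - 1 : AddMonoid.End X)).relIndex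
      (AddMonoidHom.ker (∑ j ∈ range (p ^ a), k ^ j : AddMonoid.End X)) := by
  have htf := HERB.finite_torsion X
  set t : ℕ := Nat.card (AddCommGroup.torsion X) with ht
  have ht0 : t ≠ 0 := Nat.card_pos.ne'
  have : NeZero t := ⟨ht0⟩
  have htx : ∀ x : X, x ∈ AddCommGroup.torsion X → t • x = 0 := by
    intro x hx
    have h1 : Nat.card (AddCommGroup.torsion X) • (⟨x, hx⟩ : AddCommGroup.torsion X) = 0 :=
      card_nsmul_eq_zero'
    exact congrArg Subtype.val h1
  set Y : AddSubgroup X := (nsmulAddMonoidHom t : X →+ X).range with hY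
  have hYt : ∀ x : X, t • x ∈ Y := fun x => ⟨x, rfl⟩
  have hYi : Y.index ≠ 0 := by
    rw [hY, HERB.index_nsmul]
    apply mul_ne_zero
    · exact HERB.card_ker_ne_zero _ (HERB.nsmul_ker_le t)
    · exact pow_ne_zero _ ht0
  have hkY : ∀ (u : AddMonoid.End X), ∀ y ∈ Y, u y ∈ Y := by
    rintro u _ ⟨x, rfl⟩
    refine ⟨u x, ?_⟩
    exact (map_nsmul u t x).symm
  have hYfin : Module.Finite ℤ Y := by
    have h1 : Module.Finite ℤ (AddSubgroup.toIntSubmodule Y) := inferInstance
    exact h1
  have hYtf : ∀ (n : ℤ) (y : Y), n ≠ 0 → n • y = 0 → y = 0 := by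
    rintro n ⟨_, ⟨x, rfl⟩⟩ hn h
    apply Subtype.ext
    have h1 : n • (t • x) = 0 := congrArg Subtype.val h
    change t • x = 0
    apply htx
    have h2 : (n.natAbs * t) • x = 0 := by
      have h3 : (n * t) • x = 0 := by rw [mul_smul, natCast_zsmul]; exact h1
      rcases Int.natAbs_eq n with h4 | h4
      · rw [h4, ← Nat.cast_mul, natCast_zsmul] at h3
        exact h3
      · rw [h4, neg_mul, neg_smul, neg_eq_zero, ← Nat.cast_mul, natCast_zsmul] at h3
        exact h3
    exact isOfFinAddOrder_iff_nsmul_eq_zero.mpr ⟨n.natAbs * t,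
      Nat.pos_of_ne_zero (mul_ne_zero (Int.natAbs_ne_zero.2 hn) ht0), h2⟩
  have hYtf' : Module.IsTorsionFree ℤ Y := by
    refine ⟨?_⟩
    intro n hn x y hxy
    have hn0 : n ≠ 0 := by
      rintro rfl
      exact absurd hn.left (by
        intro hl
        have := hl (show (0 : ℤ) * 0 = 0 * 1 by ring)
        norm_num at this)
    have h1 : n • (x - y) = 0 := by
      rw [smul_sub, sub_eq_zero]
      exact hxy
    exact sub_eq_zero.1 (hYtf n _ hn0 h1)
  have hYfree : Module.Free ℤ Y := Module.free_of_finite_type_torsion_free'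
  -- the endomorphism of `Y`
  obtain ⟨γ, hγ⟩ : ∃ γ : AddMonoid.End Y, ∀ y : Y, ((γ y : Y) : X) = k y :=
    ⟨(AddMonoidHom.comp (k : X →+ X) Y.subtype).codRestrict Y fun y => hkY k y y.2, fun y => rfl⟩
  have hγi : ∀ (i : ℕ) (y : Y), (((γ ^ i) y : Y) : X) = (k ^ i) y := by
    intro i
    induction i with
    | zero => intro y; rw [pow_zero, pow_zero]; rfl
    | succ i ih =>
      intro y
      rw [pow_succ, pow_succ]
      have h1 := ih (γ y)
      rw [hγ] at h1
      exact h1
  have hγ1 : ∀ (i : ℕ) (y : Y), (((γ ^ i - 1 : AddMonoid.End Y) y : Y) : X) =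
      (k ^ i - 1 : AddMonoid.End X) y := by
    intro i y
    have h1 : (γ ^ i - 1 : AddMonoid.End Y) y = (γ ^ i) y - y := rfl
    have h2 : (k ^ i - 1 : AddMonoid.End X) y = (k ^ i) y - y := rfl
    rw [h1, h2, AddSubgroup.coe_sub, hγi]
  have hγs : ∀ (y : Y), (((∑ j ∈ range (p ^ a), γ ^ j : AddMonoid.End Y) y : Y) : X) =
      (∑ j ∈ range (p ^ a), k ^ j : AddMonoid.End X) y := by
    intro y
    rw [HERB.sum_apply, HERB.sum_apply, AddSubgroup.val_finsetSum]
    exact Finset.sum_congr rfl fun i _ => hγi i y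
  have hγp : γ ^ (p ^ a) = 1 := by
    apply AddMonoidHom.ext
    intro y
    apply Subtype.ext
    have h1 := hγi (p ^ a) y
    rw [hk] at h1
    exact h1
  -- the ranks
  have hrk : ∀ m : ℕ, Module.finrank ℤ (AddMonoidHom.ker (γ ^ m - 1 : AddMonoid.End Y)) =
      Module.finrank ℤ (AddMonoidHom.ker (k ^ m - 1 : AddMonoid.End X)) := by
    intro m
    have f1 : Module.Finite ℤ (AddMonoidHom.ker (γ ^ m - 1 : AddMonoid.End Y)) := by
      have h1 : Module.Finite ℤ (AddSubgroup.toIntSubmodule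
        (AddMonoidHom.ker (γ ^ m - 1 : AddMonoid.End Y))) := inferInstance
      exact h1
    have f2 : Module.Finite ℤ (AddMonoidHom.ker (k ^ m - 1 : AddMonoid.End X)) := by
      have h1 : Module.Finite ℤ (AddSubgroup.toIntSubmodule
        (AddMonoidHom.ker (k ^ m - 1 : AddMonoid.End X))) := inferInstance
      exact h1
    let j : (AddMonoidHom.ker (γ ^ m - 1 : AddMonoid.End Y)) →+
        (AddMonoidHom.ker (k ^ m - 1 : AddMonoid.End X)) :=
      { toFun := fun y => ⟨((y : Y) : X), by
          have h1 : (γ ^ m - 1 : AddMonoid.End Y) (y : Y) = 0 := y.2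
          have h2 := hγ1 m y
          rw [h1] at h2
          exact h2.symm⟩
        map_zero' := rfl
        map_add' := fun x y => rfl }
    let θ : (AddMonoidHom.ker (k ^ m - 1 : AddMonoid.End X)) →+
        (AddMonoidHom.ker (γ ^ m - 1 : AddMonoid.End Y)) :=
      { toFun := fun x => ⟨⟨t • (x : X), hYt x⟩, by
          change (γ ^ m - 1 : AddMonoid.End Y) ⟨t • (x : X), hYt x⟩ = 0
          apply Subtype.ext
          rw [hγ1]
          change (k ^ m - 1 : AddMonoid.End X) (t • (x : X)) = 0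
          rw [map_nsmul]
          have h1 : (k ^ m - 1 : AddMonoid.End X) (x : X) = 0 := x.2
          rw [h1, smul_zero]⟩
        map_zero' := by
          apply Subtype.ext
          apply Subtype.ext
          exact smul_zero t
        map_add' := fun x y => by
          apply Subtype.ext
          apply Subtype.ext
          exact smul_add t (x : X) (y : X) }
    apply rk_eq j _ θ
    · intro x hx
      have hx' : θ x = 0 := hx
      have h1 : t • (x : X) = 0 := congrArg
        (fun z : (AddMonoidHom.ker (γ ^ m - 1 : AddMonoid.End Y)) => ((z : Y) : X)) hx'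
      apply isOfFinAddOrder_iff_nsmul_eq_zero.mpr
      refine ⟨t, Nat.pos_of_ne_zero ht0, ?_⟩
      apply Subtype.ext
      exact h1
    · intro x y hxy
      apply Subtype.ext
      apply Subtype.ext
      exact congrArg
        (fun z : (AddMonoidHom.ker (k ^ m - 1 : AddMonoid.End X)) => (z : X)) hxy
  have h3 := hHQ3 p a Y γ hγp (by
    intro i hi
    have h1 := hrk 1
    rw [pow_one, pow_one] at h1
    rw [hrk, h1]
    exact hr i hi)
  -- translation
  have e1 : (AddMonoidHom.range (∑ j ∈ range (p ^ a), γ ^ j : AddMonoid.End Y)).map Y.subtype =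
      Y.map (∑ j ∈ range (p ^ a), k ^ j : AddMonoid.End X) := by
    ext x
    constructor
    · rintro ⟨_, ⟨y, rfl⟩, rfl⟩
      exact ⟨y, y.2, (hγs y).symm⟩
    · rintro ⟨y, hy, rfl⟩
      exact ⟨_, ⟨⟨y, hy⟩, rfl⟩, hγs ⟨y, hy⟩⟩
  have e2 : (AddMonoidHom.range (γ - 1 : AddMonoid.End Y)).map Y.subtype =
      Y.map (k - 1 : AddMonoid.End X) := by
    have h1 := hγ1 1
    rw [pow_one, pow_one] at h1
    ext x
    constructor
    · rintro ⟨_, ⟨y, rfl⟩, rfl⟩
      exact ⟨y, y.2, (h1 y).symm⟩
    · rintro ⟨y, hy, rfl⟩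
      exact ⟨_, ⟨⟨y, hy⟩, rfl⟩, h1 ⟨y, hy⟩⟩
  have e3 : (AddMonoidHom.ker (γ - 1 : AddMonoid.End Y)).map Y.subtype =
      Y ⊓ AddMonoidHom.ker (k - 1 : AddMonoid.End X) := by
    have h1 := hγ1 1
    rw [pow_one, pow_one] at h1
    ext x
    constructor
    · rintro ⟨y, hy, rfl⟩
      have h2 : (γ - 1 : AddMonoid.End Y) y = 0 := hy
      refine ⟨y.2, ?_⟩
      change (k - 1 : AddMonoid.End X) (y : X) = 0
      rw [← h1, h2]
      rfl
    · rintro ⟨hy, hy'⟩
      refine ⟨⟨x, hy⟩, ?_, rfl⟩
      change (γ - 1 : AddMonoid.End Y) ⟨x, hy⟩ = 0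
      apply Subtype.ext
      rw [h1]
      exact hy'
  have e4 : (AddMonoidHom.ker (∑ j ∈ range (p ^ a), γ ^ j : AddMonoid.End Y)).map Y.subtype =
      Y ⊓ AddMonoidHom.ker (∑ j ∈ range (p ^ a), k ^ j : AddMonoid.End X) := by
    ext x
    constructor
    · rintro ⟨y, hy, rfl⟩
      have h2 : (∑ j ∈ range (p ^ a), γ ^ j : AddMonoid.End Y) y = 0 := hy
      refine ⟨y.2, ?_⟩
      change (∑ j ∈ range (p ^ a), k ^ j : AddMonoid.End X) (y : X) = 0
      rw [← hγs, h2]
      rfl
    · rintro ⟨hy, hy'⟩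
      refine ⟨⟨x, hy⟩, ?_, rfl⟩
      change (∑ j ∈ range (p ^ a), γ ^ j : AddMonoid.End Y) ⟨x, hy⟩ = 0
      apply Subtype.ext
      rw [hγs]
      exact hy'
  have hinj : Function.Injective Y.subtype := Subtype.val_injective
  rw [← AddSubgroup.relIndex_map_map_of_injective _ _ hinj,
    ← AddSubgroup.relIndex_map_map_of_injective (AddMonoidHom.range (γ - 1 : AddMonoid.End Y)) _
      hinj, e1, e2, e3, e4] at h3
  have hfh : ∀ x, (k - 1 : AddMonoid.End X) ((∑ j ∈ range (p ^ a), k ^ j : AddMonoid.End X) x) =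
      0 := by
    intro x
    have h1 : (k - 1) * (∑ j ∈ range (p ^ a), k ^ j) = k ^ (p ^ a) - 1 := mul_geom_sum k _
    rw [hk, sub_self] at h1
    exact congrArg (fun u : AddMonoid.End X => u x) h1
  have hhf : ∀ x, (∑ j ∈ range (p ^ a), k ^ j : AddMonoid.End X) ((k - 1 : AddMonoid.End X) x) =
      0 := by
    intro x
    have h1 : (∑ j ∈ range (p ^ a), k ^ j) * (k - 1) = k ^ (p ^ a) - 1 := geom_sum_mul k _
    rw [hk, sub_self] at h1
    exact congrArg (fun u : AddMonoid.End X => u x) h1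
  exact hHQ1 X (k - 1 : AddMonoid.End X) (∑ j ∈ range (p ^ a), k ^ j : AddMonoid.End X) Y hYi
    (hkY _) (hkY _) hfh hhf h3.1 h3.2

end HERBQ

open HERBQ in
theorem t_HERBQ (hHQ1 : S_HQ1) (hHQ3 : S_HQ3) : S_HERBQ := by
  intro p a hp A G _ _ _ g E hg hfg hst hr
  have : Group.FG E := (Group.fg_iff_subgroup_fg E).mpr hfg
  have hfin : Module.Finite ℤ (Additive E) := Module.Finite.iff_addGroup_fg.mpr inferInstance
  obtain ⟨k, hk⟩ : ∃ k : AddMonoid.End (Additive E), ∀ x : E,
      ((k (Additive.ofMul x)).toMul : A) = g • (x : A) :=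
    ⟨MonoidHom.toAdditive (((MulDistribMulAction.toMonoidHom A g).comp E.subtype).codRestrict E
      fun x => hst x x.2), fun x => rfl⟩
  have hki : ∀ (i : ℕ) (x : E), (((k ^ i) (Additive.ofMul x)).toMul : A) = g ^ i • (x : A) := by
    intro i
    induction i with
    | zero =>
      intro x
      rw [pow_zero, pow_zero, one_smul]
      rfl
    | succ i ih =>
      intro x
      rw [pow_succ, pow_succ, mul_smul, ← hk x]
      exact ih (k (Additive.ofMul x)).toMul
  have hsum : ∀ x : E, ((((∑ i ∈ range (p ^ a), k ^ i : AddMonoid.End (Additive E))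
      (Additive.ofMul x) : Additive E)).toMul : A) = ng g (p ^ a) (x : A) := by
    intro x
    rw [HERB.sum_apply, toMul_sum, Subgroup.val_finsetProd, ng_apply]
    exact Finset.prod_congr rfl fun i _ => hki i x
  have hdif : ∀ (i : ℕ) (x : E), (((k ^ i - 1 : AddMonoid.End (Additive E))
      (Additive.ofMul x) : Additive E).toMul : A) = (dg (g ^ i) (x : A))⁻¹ := by
    intro i x
    have h1 : (k ^ i - 1 : AddMonoid.End (Additive E)) (Additive.ofMul x) =
        (k ^ i) (Additive.ofMul x) - Additive.ofMul x := rfl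
    rw [h1, toMul_sub, Subgroup.coe_div, hki, dg_apply, inv_div]
    rfl
  have hkp : k ^ (p ^ a) = 1 := by
    apply AddMonoidHom.ext
    intro x
    apply Additive.toMul.injective
    apply Subtype.ext
    have h1 := hki (p ^ a) x.toMul
    rw [hg, one_smul] at h1
    exact h1
  have hrk : ∀ i : ℕ, Module.finrank ℤ (AddMonoidHom.ker (k ^ i - 1 :
      AddMonoid.End (Additive E))) =
      Module.finrank ℤ (Additive ↥(E ⊓ (dg (g ^ i) : A →* A).ker)) := by
    intro i
    have e : (AddMonoidHom.ker (k ^ i - 1 : AddMonoid.End (Additive E))) ≃+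
        Additive ↥(E ⊓ (dg (g ^ i) : A →* A).ker) :=
      { toFun := fun x => Additive.ofMul ⟨((x : Additive E).toMul : A),
          (x : Additive E).toMul.2, by
            have h0 : (k ^ i - 1 : AddMonoid.End (Additive E)) (x : Additive E) = 0 := x.2
            have h1 := hdif i (x : Additive E).toMul
            change dg (g ^ i) ((x : Additive E).toMul : A) = 1
            apply inv_injective
            rw [← h1, inv_one]
            exact congrArg (fun z : Additive E => (z.toMul : A)) h0⟩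
        invFun := fun x => ⟨Additive.ofMul ⟨(x.toMul : A), x.toMul.2.1⟩, by
          change (k ^ i - 1 : AddMonoid.End (Additive E))
            (Additive.ofMul ⟨(x.toMul : A), x.toMul.2.1⟩) = 0
          apply Additive.toMul.injective
          apply Subtype.ext
          rw [hdif]
          have h2 : dg (g ^ i) (x.toMul : A) = 1 := x.toMul.2.2
          rw [h2, inv_one]
          rfl⟩
        left_inv := fun x => rfl
        right_inv := fun x => rfl
        map_add' := fun x y => rfl }
    exact e.toIntLinearEquiv.finrank_eq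
  have hmain := HERBQ.main_add hHQ1 hHQ3 p a (Additive E) k hkp (by
    intro i hi
    have h1 := hrk 1
    rw [pow_one, pow_one] at h1
    rw [hrk, h1]
    exact hr i hi)
  -- translation
  set φ : Additive E →+ Additive A := MonoidHom.toAdditive E.subtype with hφ
  have hinj : Function.Injective φ := by
    intro x y hxy
    apply Additive.toMul.injective
    apply Subtype.ext
    exact hxy
  have hd1 := hdif 1
  rw [pow_one, pow_one] at hd1
  have e1 : (AddMonoidHom.range (∑ j ∈ range (p ^ a), k ^ j :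
      AddMonoid.End (Additive E))).map φ = Subgroup.toAddSubgroup (E.map (ng g (p ^ a))) := by
    ext x
    constructor
    · rintro ⟨_, ⟨y, rfl⟩, rfl⟩
      exact ⟨(y.toMul : A), y.toMul.2, (hsum y.toMul).symm⟩
    · rintro ⟨y, hy, hx⟩
      exact ⟨_, ⟨Additive.ofMul ⟨y, hy⟩, rfl⟩, (hsum ⟨y, hy⟩).trans hx⟩
  have e2 : (AddMonoidHom.range (k - 1 : AddMonoid.End (Additive E))).map φ =
      Subgroup.toAddSubgroup (E.map (dg g)) := by
    ext x
    constructor
    · rintro ⟨_, ⟨y, rfl⟩, rfl⟩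
      refine ⟨((y.toMul⁻¹ : E) : A), (y.toMul⁻¹ : E).2, ?_⟩
      have h1 := hd1 y.toMul
      rw [Subgroup.coe_inv, map_inv]
      exact h1.symm
    · rintro ⟨y, hy, hx⟩
      refine ⟨_, ⟨Additive.ofMul ((⟨y, hy⟩ : E)⁻¹), rfl⟩, ?_⟩
      have h1 := hd1 ((⟨y, hy⟩ : E)⁻¹)
      have h2 : (dg g (((⟨y, hy⟩ : E)⁻¹ : E) : A))⁻¹ = dg g y := by
        rw [Subgroup.coe_inv, MonoidHom.map_inv, inv_inv]
      exact (h1.trans h2).trans hx
  have e3 : (AddMonoidHom.ker (k - 1 : AddMonoid.End (Additive E))).map φ =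
      Subgroup.toAddSubgroup (E ⊓ (dg g).ker) := by
    ext x
    constructor
    · rintro ⟨y, hy, rfl⟩
      have h2 : (k - 1 : AddMonoid.End (Additive E)) y = 0 := hy
      refine ⟨y.toMul.2, ?_⟩
      change dg g (y.toMul : A) = 1
      apply inv_injective
      rw [← hd1, inv_one]
      exact congrArg (fun z : Additive E => (z.toMul : A)) h2
    · rintro ⟨hy, hy'⟩
      have h2 : dg g (x.toMul : A) = 1 := hy'
      refine ⟨Additive.ofMul ⟨x.toMul, hy⟩, ?_, rfl⟩
      change (k - 1 : AddMonoid.End (Additive E)) (Additive.ofMul ⟨x.toMul, hy⟩) = 0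
      apply Additive.toMul.injective
      apply Subtype.ext
      rw [hd1, h2, inv_one]
      rfl
  have e4 : (AddMonoidHom.ker (∑ j ∈ range (p ^ a), k ^ j : AddMonoid.End (Additive E))).map φ =
      Subgroup.toAddSubgroup (E ⊓ (ng g (p ^ a)).ker) := by
    ext x
    constructor
    · rintro ⟨y, hy, rfl⟩
      have h2 : (∑ j ∈ range (p ^ a), k ^ j : AddMonoid.End (Additive E)) y = 0 := hy
      refine ⟨y.toMul.2, ?_⟩
      change ng g (p ^ a) (y.toMul : A) = 1
      rw [← hsum]
      exact congrArg (fun z : Additive E => (z.toMul : A)) h2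
    · rintro ⟨hy, hy'⟩
      have h2 : ng g (p ^ a) (x.toMul : A) = 1 := hy'
      refine ⟨Additive.ofMul ⟨x.toMul, hy⟩, ?_, rfl⟩
      change (∑ j ∈ range (p ^ a), k ^ j : AddMonoid.End (Additive E))
        (Additive.ofMul ⟨x.toMul, hy⟩) = 0
      apply Additive.toMul.injective
      apply Subtype.ext
      rw [hsum, h2]
      rfl
  rw [← AddSubgroup.relIndex_map_map_of_injective _ _ hinj,
    ← AddSubgroup.relIndex_map_map_of_injective
      (AddMonoidHom.range (k - 1 : AddMonoid.End (Additive E))) _ hinj, e1, e2, e3, e4,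
    Subgroup.relIndex_toAddSubgroup, Subgroup.relIndex_toAddSubgroup] at hmain
  exact hmain

end Pool.Agent.RID
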