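import Pool.Agent.RID.St

/-!
# Module HQ1: the Herbrand quotient does not change for subgroups of finite index
-/

namespace Pool.Agent.RID

namespace HQ1

/-- `[X : Y] = [f X : f Y] [ker f : Y ∩ ker f]`. -/
theorem index_eq {X : Type} [AddCommGroup X] (f : X →+ X) (Y : AddSubgroup X) :
    (Y.map f).relIndex f.range * (Y ⊓ f.ker).relIndex f.ker = Y.index := by
  rw [AddMonoidHom.range_eq_map, AddSubgroup.relIndex_map_map, top_sup_eq,
    AddSubgroup.relIndex_top_right, AddSubgroup.inf_relIndex_right,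
    ← AddSubgroup.relIndex_sup_left f.ker Y, mul_comm,
    AddSubgroup.relIndex_mul_index le_sup_left]

/-- `[ker f : h X] [h X : h Y] = [ker f : Y ∩ ker f] [Y ∩ ker f : h Y]`. -/
theorem chain {X : Type} [AddCommGroup X] (f h : X →+ X) (Y : AddSubgroup X)
    (hh : ∀ y ∈ Y, h y ∈ Y) (hfh : ∀ x, f (h x) = 0) :
    (Y.map h).relIndex h.range * h.range.relIndex f.ker =
      (Y.map h).relIndex (Y ⊓ f.ker) * (Y ⊓ f.ker).relIndex f.ker := by
  have h1 : Y.map h ≤ h.range := by
    rw [AddMonoidHom.range_eq_map]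
    exact AddSubgroup.map_mono le_top
  have h2 : h.range ≤ f.ker := by
    rintro _ ⟨x, rfl⟩
    exact hfh x
  have h3 : Y.map h ≤ Y ⊓ f.ker := by
    rintro _ ⟨y, hy, rfl⟩
    exact ⟨hh y hy, hfh y⟩
  rw [AddSubgroup.relIndex_mul_relIndex _ _ _ h1 h2,
    AddSubgroup.relIndex_mul_relIndex _ _ _ h3 inf_le_right]

end HQ1

theorem t_HQ1 : S_HQ1 := by
  intro X _ f h Y hY hf hh hfh hhf hne heq
  have e1 := HQ1.index_eq f Y
  have e2 := HQ1.index_eq h Y
  have c1 := HQ1.chain f h Y hh hfh
  have c2 := HQ1.chain h f Y hf hhf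
  rw [← heq] at c2
  set c := (Y.map h).relIndex (Y ⊓ f.ker) with hc
  set af := (Y.map f).relIndex f.range with haf
  set bf := (Y ⊓ f.ker).relIndex f.ker with hbf
  set ah := (Y.map h).relIndex h.range with hah
  set bh := (Y ⊓ h.ker).relIndex h.ker with hbh
  set qf := h.range.relIndex f.ker with hqf
  set qh := f.range.relIndex h.ker with hqh
  have haf0 : af ≠ 0 := by
    intro h0
    rw [h0, zero_mul] at e1
    exact hY e1.symm
  have hbf0 : bf ≠ 0 := by
    intro h0
    rw [h0, mul_zero] at e1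
    exact hY e1.symm
  have hah0 : ah ≠ 0 := by
    intro h0
    rw [h0, zero_mul] at e2
    exact hY e2.symm
  constructor
  · intro h0
    rw [h0, mul_zero] at c1
    rcases mul_eq_zero.1 c1.symm with h1 | h1
    · exact hne h1
    · exact hbf0 h1
  · have e : (af * ah) * qf = (af * ah) * qh := by
      calc (af * ah) * qf = af * (ah * qf) := by ring
        _ = af * (c * bf) := by rw [c1]
        _ = c * (af * bf) := by ring
        _ = c * (ah * bh) := by rw [e1, e2]
        _ = ah * (c * bh) := by ring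
        _ = ah * (af * qh) := by rw [c2]
        _ = (af * ah) * qh := by ring
    exact Nat.eq_of_mul_eq_mul_left (Nat.pos_of_ne_zero (mul_ne_zero haf0 hah0)) e

end Pool.Agent.RID
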