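import Pool.Agent.RID.St
import Pool.Agent.RI.HERB

/-!
HQ2: the index of `(γ - 1) X` if `X` is torsion free and killed by a cyclotomic polynomial in `γ`.
-/

set_option autoImplicit false

open Finset

namespace Pool.Agent.RID

namespace HQ2

open Polynomial

theorem poly_pow (p i : ℕ) [hp : Fact p.Prime] : ∃ h : Polynomial ℤ,
    ∑ j ∈ range p, (X : Polynomial ℤ) ^ (p ^ i * j) = (X - 1) ^ (p ^ i * (p - 1)) + C (p : ℤ) * h := by
  have h1 : Polynomial.map (Int.castRingHom (ZMod p))
      (∑ j ∈ range p, (X : Polynomial ℤ) ^ (p ^ i * j) - (X - 1) ^ (p ^ i * (p - 1))) = 0 := by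
    have h2 := Polynomial.cyclotomic_mul_prime_pow_eq (ZMod p) (m := 1) (k := i + 1)
      (fun h => hp.out.one_lt.not_ge (Nat.le_of_dvd one_pos h)) (Nat.succ_pos i)
    rw [mul_one, Polynomial.cyclotomic_one, Polynomial.cyclotomic_prime_pow_eq_geom_sum hp.out] at h2
    have e : p ^ (i + 1) - p ^ (i + 1 - 1) = p ^ i * (p - 1) := by
      rw [Nat.add_sub_cancel, pow_succ, Nat.mul_sub, mul_one]
    rw [e] at h2
    rw [Polynomial.map_sub, Polynomial.map_pow, Polynomial.map_sub, Polynomial.map_X,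
      Polynomial.map_one, ← h2, Polynomial.map_sum, sub_eq_zero]
    refine Finset.sum_congr rfl fun j _ => ?_
    rw [Polynomial.map_pow, Polynomial.map_X, pow_mul]
  have h2 : C (p : ℤ) ∣
      (∑ j ∈ range p, (X : Polynomial ℤ) ^ (p ^ i * j) - (X - 1) ^ (p ^ i * (p - 1))) := by
    rw [Polynomial.C_dvd_iff_dvd_coeff]
    intro j
    have h3 := congrArg (fun q => Polynomial.coeff q j) h1
    simp only [Polynomial.coeff_map, Polynomial.coeff_zero] at h3
    exact (ZMod.intCast_zmod_eq_zero_iff_dvd _ p).mp (by simpa using h3)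
  obtain ⟨h, hh⟩ := h2
  exact ⟨h, by rw [← hh]; ring⟩

theorem poly_one (p i : ℕ) [hp : Fact p.Prime] : ∃ h h₁ : Polynomial ℤ,
    ∑ j ∈ range p, (X : Polynomial ℤ) ^ (p ^ i * j) =
      (X - 1) ^ (p ^ i * (p - 1)) + C (p : ℤ) * h ∧ h = 1 + (X - 1) * h₁ := by
  obtain ⟨h, hh⟩ := poly_pow p i
  have hφ : p ^ i * (p - 1) ≠ 0 :=
    Nat.mul_ne_zero (pow_ne_zero _ hp.out.ne_zero) (Nat.sub_ne_zero_of_lt hp.out.one_lt)
  have h1 := congrArg (Polynomial.eval 1) hh
  simp only [Polynomial.eval_finsetSum, Polynomial.eval_pow, Polynomial.eval_X, one_pow,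
    Finset.sum_const, Finset.card_range, Polynomial.eval_add, Polynomial.eval_sub,
    Polynomial.eval_one, sub_self, zero_pow hφ, zero_add, Polynomial.eval_mul,
    Polynomial.eval_C, nsmul_eq_mul, mul_one] at h1
  have hp0 : (p : ℤ) ≠ 0 := by exact_mod_cast hp.out.ne_zero
  have h2 : Polynomial.eval 1 h = 1 := by
    have h3 : (p : ℤ) * Polynomial.eval 1 h = p * 1 := by rw [← h1, mul_one]
    exact mul_left_cancel₀ hp0 h3
  have h4 : (X - C 1 : Polynomial ℤ) ∣ h - 1 := by
    rw [Polynomial.dvd_iff_isRoot, Polynomial.IsRoot.def, Polynomial.eval_sub, h2,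
      Polynomial.eval_one, sub_self]
  obtain ⟨h₁, h5⟩ := h4
  refine ⟨h, h₁, hh, ?_⟩
  rw [Polynomial.C_1] at h5
  rw [← h5]
  ring

end HQ2

open HQ2 in
theorem t_HQ2 : S_HQ2 := by
  intro p i r hp X _ _ _ γ hN hr
  have : NeZero p := ⟨hp.out.ne_zero⟩
  have hφ : p ^ i * (p - 1) ≠ 0 :=
    Nat.mul_ne_zero (pow_ne_zero _ hp.out.ne_zero) (Nat.sub_ne_zero_of_lt hp.out.one_lt)
  set φ := p ^ i * (p - 1) with hφd
  obtain ⟨h, h₁, hh, hh1⟩ := poly_one p i
  rw [← hφd] at hh
  have htf : ∀ x : X, p • x = 0 → x = 0 := by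
    intro x hx
    have := (smul_eq_zero (r := (p : ℤ)) (m := x)).1 (by rw [natCast_zsmul]; exact hx)
    exact this.resolve_left (by exact_mod_cast hp.out.ne_zero)
  -- `T ^ φ = - p h(γ)`
  have hP : Polynomial.aeval γ (∑ j ∈ range p, (Polynomial.X : Polynomial ℤ) ^ (p ^ i * j)) = 0 := by
    rw [map_sum, ← hN]
    exact Finset.sum_congr rfl fun j _ => by rw [map_pow, Polynomial.aeval_X]
  have hT : (γ - 1) ^ φ = -((p : AddMonoid.End X) * Polynomial.aeval γ h) := by
    rw [hh, map_add, map_pow, map_sub, Polynomial.aeval_X, map_one, map_mul,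
      Polynomial.aeval_C] at hP
    rw [← sub_eq_zero, sub_neg_eq_add, ← hP]
    simp
  have hcast : ∀ x : X, (p : AddMonoid.End X) x = p • x := fun x =>
    AddMonoid.End.natCast_apply p x
  -- injectivity
  have hinj : Function.Injective (γ - 1 : AddMonoid.End X) := by
    rw [injective_iff_map_eq_zero]
    intro x hx
    have h1 : γ x = x := sub_eq_zero.mp hx
    have h2 : ∀ k : ℕ, (γ ^ k) x = x := by
      intro k
      induction k with
      | zero => rfl
      | succ k ih =>
        rw [pow_succ]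
        change (γ ^ k) (γ x) = x
        rw [h1, ih]
    apply htf
    have h3 : (∑ j ∈ range p, γ ^ (p ^ i * j)) x = 0 := by rw [hN]; rfl
    rw [RI.HERB.sum_apply, Finset.sum_congr rfl fun j _ => h2 _, Finset.sum_const,
      Finset.card_range] at h3
    exact h3
  have hpinj : Function.Injective (nsmulAddMonoidHom p : X →+ X) := by
    rw [injective_iff_map_eq_zero]
    exact fun x hx => htf x hx
  have hpidx : (nsmulAddMonoidHom p : X →+ X).range.index = p ^ (φ * r) := by
    rw [RI.HERB.index_nsmul, hr]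
    have : (nsmulAddMonoidHom p : X →+ X).ker = ⊥ := (AddMonoidHom.ker_eq_bot_iff _).2 hpinj
    rw [this, AddSubgroup.card_bot, one_mul]
  -- the index of the image of `T`
  have hdvd : (AddMonoidHom.range (γ - 1 : AddMonoid.End X)).index ∣ p ^ (φ * r) := by
    rw [← hpidx]
    apply AddSubgroup.index_dvd_of_le
    rintro _ ⟨x, rfl⟩
    -- `p = P(1) - P(γ)`
    obtain ⟨q, hq⟩ : (Polynomial.X - Polynomial.C 1 : Polynomial ℤ) ∣
        Polynomial.C (p : ℤ) - ∑ j ∈ range p, (Polynomial.X : Polynomial ℤ) ^ (p ^ i * j) := by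
      rw [Polynomial.dvd_iff_isRoot, Polynomial.IsRoot.def]
      simp [Polynomial.eval_finsetSum]
    have h3 := congrArg (Polynomial.aeval γ) hq
    rw [map_sub, hP, sub_zero, map_mul, map_sub, Polynomial.aeval_X, Polynomial.aeval_C,
      Polynomial.aeval_C, map_one] at h3
    refine ⟨Polynomial.aeval γ q x, ?_⟩
    have h4 := congrArg (fun f : AddMonoid.End X => f x) h3
    simp only [map_natCast] at h4
    change (γ - 1 : AddMonoid.End X) (Polynomial.aeval γ q x) = p • x
    rw [← hcast x]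
    have h5 : ((γ - 1) * Polynomial.aeval γ q : AddMonoid.End X) x =
        (γ - 1 : AddMonoid.End X) (Polynomial.aeval γ q x) := rfl
    rw [← h5, ← h4]
  obtain ⟨k, hk, hk'⟩ := (Nat.dvd_prime_pow hp.out).1 hdvd
  have hpow := RI.HERB.index_pow (γ - 1) hinj φ
  set H : AddSubgroup X := AddMonoidHom.range (Polynomial.aeval γ h : AddMonoid.End X) with hH
  have hmap : AddMonoidHom.range ((γ - 1) ^ φ : AddMonoid.End X) =
      H.map (nsmulAddMonoidHom p : X →+ X) := by
    ext x
    constructor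
    · rintro ⟨y, rfl⟩
      refine ⟨-(Polynomial.aeval γ h y), neg_mem ⟨y, rfl⟩, ?_⟩
      rw [hT]
      change p • (-(Polynomial.aeval γ h y)) = -((p : AddMonoid.End X) (Polynomial.aeval γ h y))
      rw [hcast, smul_neg]
    · rintro ⟨_, ⟨y, rfl⟩, rfl⟩
      refine ⟨-y, ?_⟩
      rw [hT]
      change -((p : AddMonoid.End X) (Polynomial.aeval γ h (-y))) = p • (Polynomial.aeval γ h y)
      rw [hcast, map_neg, smul_neg, neg_neg]
  rw [hmap, AddSubgroup.index_map_of_injective _ hpinj, hpidx, hk'] at hpow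
  have hHdvd : H.index ∣ p ^ (k * φ) := by
    rw [pow_mul, ← hpow]
    exact Dvd.intro _ rfl
  obtain ⟨m, -, hm⟩ := (Nat.dvd_prime_pow hp.out).1 hHdvd
  -- surjectivity modulo `p`
  have hsur : ∀ x : X, ∃ y, x - p • y ∈ H := by
    intro x
    set N : Polynomial ℤ := -((Polynomial.X - 1) * h₁) with hNd
    have e1 : h = 1 - N := by rw [hh1, hNd]; ring
    have e2 : (1 : Polynomial ℤ) - N ^ φ = (1 - N) * ∑ j ∈ range φ, N ^ j := by
      rw [mul_comm]
      exact (geom_sum_mul_neg N φ).symm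
    have e3 : N ^ φ = (-h₁) ^ φ *
        (∑ j ∈ range p, (Polynomial.X : Polynomial ℤ) ^ (p ^ i * j) - Polynomial.C (p : ℤ) * h) := by
      rw [hh, add_sub_cancel_right, hNd, neg_eq_neg_one_mul, mul_pow, mul_pow,
        neg_eq_neg_one_mul h₁, mul_pow]
      ring
    have e4 : (1 : Polynomial ℤ) = h * ∑ j ∈ range φ, N ^ j + N ^ φ := by
      rw [e1, ← e2]
      ring
    have e5 := congrArg (Polynomial.aeval γ) e4
    rw [map_add, e3, map_mul, map_mul, map_sub, hP, map_mul, Polynomial.aeval_C, map_one] at e5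
    have e6 := congrArg (fun f : AddMonoid.End X => f x) e5
    set S := Polynomial.aeval γ (∑ j ∈ range φ, N ^ j) with hS
    set K := Polynomial.aeval γ ((-h₁) ^ φ) with hK
    refine ⟨-(K (Polynomial.aeval γ h x)), ?_⟩
    refine ⟨S x, ?_⟩
    have e7 : x = Polynomial.aeval γ h (S x) + K (-(p • (Polynomial.aeval γ h x))) := by
      have e8 : (1 : AddMonoid.End X) x = x := rfl
      rw [← e8]
      refine e6.trans ?_
      change Polynomial.aeval γ h (S x) + K ((0 - (algebraMap ℤ (AddMonoid.End X) (p : ℤ)) *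
        Polynomial.aeval γ h : AddMonoid.End X) x) = _
      congr 2
      rw [zero_sub, map_natCast]
      change -((p : AddMonoid.End X) (Polynomial.aeval γ h x)) = _
      rw [hcast]
      rfl
    change Polynomial.aeval γ h (S x) = x - p • (-(K (Polynomial.aeval γ h x)))
    rw [smul_neg, sub_neg_eq_add, ← map_nsmul]
    nth_rewrite 2 [e7]
    rw [map_neg]
    abel
  have hall : ∀ (j : ℕ) (x : X), ∃ y, x - p ^ j • y ∈ H := by
    intro j
    induction j with
    | zero => exact fun x => ⟨x, by simp⟩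
    | succ j ih =>
      intro x
      obtain ⟨y, hy⟩ := ih x
      obtain ⟨z, hz⟩ := hsur y
      refine ⟨z, ?_⟩
      have e : x - p ^ (j + 1) • z = (x - p ^ j • y) + p ^ j • (y - p • z) := by
        rw [smul_sub, smul_smul, pow_succ]
        abel
      rw [e]
      exact add_mem hy (nsmul_mem hz _)
  have htop : H = ⊤ := by
    rw [eq_top_iff]
    intro x _
    obtain ⟨y, hy⟩ := hall m x
    have h3 : p ^ m • y ∈ H := by
      rw [← hm]
      exact H.nsmul_index_mem y
    have := add_mem hy h3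
    rwa [sub_add_cancel] at this
  rw [htop, AddSubgroup.index_top, one_mul, ← pow_mul] at hpow
  have h5 := Nat.pow_right_injective hp.out.two_le hpow
  rw [hk']
  congr 1
  rw [mul_comm φ r] at h5
  exact (Nat.eq_of_mul_eq_mul_right (Nat.pos_of_ne_zero hφ) h5).symm

end Pool.Agent.RID
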