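import Pool.Agent.RID.St
import Pool.Agent.RI.HERB

/-!
# Module HQ3: Herbrand quotient one, torsion free case
-/

set_option autoImplicit false

open NumberField Finset

namespace Pool.Agent.RID

open Pool.Agent.RI

namespace HQ3

/-- the index of a direct sum of subgroups -/
theorem relIndex_sup {X : Type} [AddCommGroup X] (A₁ A₂ B₁ B₂ : AddSubgroup X)
    (h1 : B₁ ≤ A₁) (h2 : B₂ ≤ A₂) (hd : A₁ ⊓ A₂ = ⊥) :
    (B₁ ⊔ B₂).relIndex (A₁ ⊔ A₂) = B₁.relIndex A₁ * B₂.relIndex A₂ := by
  have key : ∀ (A A' B B' : AddSubgroup X), B ≤ A → B' ≤ A' → A ⊓ A' = ⊥ →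
      (B ⊔ B').relIndex (A ⊔ B') = B.relIndex A := by
    intro A A' B B' hB hB' hAA
    have e1 : A ⊔ B' = A ⊔ (B ⊔ B') := by
      rw [← sup_assoc, sup_eq_left.2 hB]
    rw [e1, AddSubgroup.relIndex_sup_right, ← AddSubgroup.inf_relIndex_right]
    have e2 : (B ⊔ B') ⊓ A = B := by
      apply le_antisymm
      · rintro x ⟨hx, hxA⟩
        obtain ⟨b, hb, b', hb', rfl⟩ := AddSubgroup.mem_sup.1 hx
        have hz : b' ∈ A ⊓ A' := by
          refine ⟨?_, hB' hb'⟩
          have := A.sub_mem hxA (hB hb)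
          rwa [add_sub_cancel_left] at this
        rw [hAA, AddSubgroup.mem_bot] at hz
        rw [hz, add_zero]
        exact hb
      · exact le_inf le_sup_left hB
    rw [e2]
  have hle1 : B₁ ⊔ B₂ ≤ A₁ ⊔ B₂ := sup_le_sup_right h1 _
  have hle2 : A₁ ⊔ B₂ ≤ A₁ ⊔ A₂ := sup_le_sup_left h2 _
  rw [← AddSubgroup.relIndex_mul_relIndex _ _ _ hle1 hle2, key A₁ A₂ B₁ B₂ h1 h2 hd]
  congr 1
  have := key A₂ A₁ B₂ A₁ h2 le_rfl (by rw [inf_comm]; exact hd)
  rw [sup_comm A₁ B₂, sup_comm A₁ A₂]
  exact this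

/-- restriction of an endomorphism -/
theorem restr {X : Type} [AddCommGroup X] (γ : AddMonoid.End X) (Z : AddSubgroup X)
    (hZ : ∀ z ∈ Z, γ z ∈ Z) :
    ∃ γ' : AddMonoid.End Z, ∀ (i : ℕ) (z : Z), (((γ' ^ i) z : Z) : X) = (γ ^ i) z := by
  refine ⟨(AddMonoidHom.comp (γ : X →+ X) Z.subtype).codRestrict Z fun y => hZ y y.2, ?_⟩
  intro i
  induction i with
  | zero => intro y; rw [pow_zero, pow_zero]; rfl
  | succ i ih =>
    intro y
    rw [pow_succ, pow_succ]
    exact ih _

theorem restr_sum {X : Type} [AddCommGroup X] (γ : AddMonoid.End X) (Z : AddSubgroup X)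
    (γ' : AddMonoid.End Z) (h : ∀ (i : ℕ) (z : Z), (((γ' ^ i) z : Z) : X) = (γ ^ i) z)
    (s : Finset ℕ) (e : ℕ → ℕ) (z : Z) :
    (((∑ j ∈ s, γ' ^ (e j) : AddMonoid.End Z) z : Z) : X) =
      (∑ j ∈ s, γ ^ (e j) : AddMonoid.End X) z := by
  rw [HERB.sum_apply, HERB.sum_apply, AddSubgroup.val_finsetSum]
  exact Finset.sum_congr rfl fun i _ => h _ z

theorem restr_sub {X : Type} [AddCommGroup X] (γ : AddMonoid.End X) (Z : AddSubgroup X)
    (γ' : AddMonoid.End Z) (h : ∀ (i : ℕ) (z : Z), (((γ' ^ i) z : Z) : X) = (γ ^ i) z)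
    (m : ℕ) (z : Z) :
    (((γ' ^ m - 1 : AddMonoid.End Z) z : Z) : X) = (γ ^ m - 1 : AddMonoid.End X) z := by
  have h1 : (γ' ^ m - 1 : AddMonoid.End Z) z = (γ' ^ m) z - z := rfl
  have h2 : (γ ^ m - 1 : AddMonoid.End X) z = (γ ^ m) z - z := rfl
  rw [h1, h2, AddSubgroup.coe_sub, h]

theorem restr_sub1 {X : Type} [AddCommGroup X] (γ : AddMonoid.End X) (Z : AddSubgroup X)
    (γ' : AddMonoid.End Z) (h : ∀ (i : ℕ) (z : Z), (((γ' ^ i) z : Z) : X) = (γ ^ i) z)
    (z : Z) :
    (((γ' - 1 : AddMonoid.End Z) z : Z) : X) = (γ - 1 : AddMonoid.End X) z := by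
  have := restr_sub γ Z γ' h 1 z
  rwa [pow_one, pow_one] at this

/-- finrank of a subgroup seen inside a larger one -/
theorem finrank_of {X : Type} [AddCommGroup X] (K Z : AddSubgroup X) (h : K ≤ Z)
    (K' : AddSubgroup Z) (hK : ∀ z : Z, z ∈ K' ↔ (z : X) ∈ K) :
    Module.finrank ℤ K' = Module.finrank ℤ K := by
  have e : K' = K.addSubgroupOf Z := by
    ext z
    rw [hK, AddSubgroup.mem_addSubgroupOf]
  rw [e]
  exact (AddSubgroup.addSubgroupOfEquivOfLe h).toIntLinearEquiv.finrank_eq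

/-- relative index of two endomorphisms of a subgroup -/
theorem relIndex_of {X : Type} [AddCommGroup X] (Z : AddSubgroup X) (f h : X →+ X)
    (f' h' : Z →+ Z) (hf : ∀ z : Z, ((f' z : Z) : X) = f z) (hh : ∀ z : Z, ((h' z : Z) : X) = h z) :
    f'.range.relIndex h'.ker = (Z.map f).relIndex (Z ⊓ h.ker) := by
  rw [← AddSubgroup.relIndex_map_map_of_injective _ _ (f := Z.subtype) Subtype.val_injective]
  congr 1
  · ext x
    constructor
    · rintro ⟨_, ⟨z, rfl⟩, rfl⟩
      exact ⟨z, z.2, (hf z).symm⟩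
    · rintro ⟨z, hz, rfl⟩
      exact ⟨f' ⟨z, hz⟩, ⟨_, rfl⟩, hf ⟨z, hz⟩⟩
  · ext x
    constructor
    · rintro ⟨z, hz, rfl⟩
      refine ⟨z.2, ?_⟩
      have h1 : h' z = 0 := hz
      change h (z : X) = 0
      rw [← hh, h1]
      rfl
    · rintro ⟨hz, hk⟩
      refine ⟨⟨x, hz⟩, ?_, rfl⟩
      change h' ⟨x, hz⟩ = 0
      apply Subtype.ext
      rw [hh]
      exact hk

theorem index_of {X : Type} [AddCommGroup X] (Z : AddSubgroup X) (f : X →+ X)
    (f' : Z →+ Z) (hf : ∀ z : Z, ((f' z : Z) : X) = f z) :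
    f'.range.index = (Z.map f).relIndex Z := by
  have h := relIndex_of Z f (0 : X →+ X) f' (0 : Z →+ Z) hf (fun _ => rfl)
  have e1 : (0 : Z →+ Z).ker = ⊤ := by
    ext; simp
  have e2 : (0 : X →+ X).ker = ⊤ := by
    ext; simp
  rw [e1, e2, inf_top_eq, AddSubgroup.relIndex_top_right] at h
  exact h

theorem geom_mul {R : Type} [Ring R] (x : R) (m k : ℕ) :
    ∑ j ∈ range (m * k), x ^ j = (∑ j ∈ range m, x ^ j) * ∑ i ∈ range k, x ^ (m * i) := by
  induction k with
  | zero => simp
  | succ k ih =>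
    rw [Nat.mul_succ, Finset.sum_range_add, ih, Finset.sum_range_succ _ k, mul_add,
      Finset.sum_mul _ _ (x ^ (m * k))]
    congr 1
    apply Finset.sum_congr rfl
    intro j _
    rw [← pow_add, add_comm]

end HQ3

open HQ3 in
theorem t_HQ3 (hHQ1 : S_HQ1) (hHQ2 : S_HQ2) : S_HQ3 := by
  intro p a hp
  have hp0 : p ≠ 0 := hp.out.ne_zero
  have : NeZero p := ⟨hp0⟩
  induction a with
  | zero =>
    intro X _ _ _ γ hγ _
    rw [pow_zero, pow_one] at hγ
    subst hγ
    have e1 : (∑ j ∈ range (p ^ 0), (1 : AddMonoid.End X) ^ j) = 1 := by simp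
    have e2 : AddMonoidHom.ker (1 - 1 : AddMonoid.End X) = ⊤ := by
      rw [sub_self]
      ext x
      simp only [AddSubgroup.mem_top, iff_true]
      rfl
    have e3 : AddMonoidHom.range (1 : AddMonoid.End X) = ⊤ := by
      rw [eq_top_iff]
      intro x _
      exact ⟨x, rfl⟩
    have e4 : AddMonoidHom.ker (1 : AddMonoid.End X) = ⊥ := by
      rw [eq_bot_iff]
      intro x hx
      exact hx
    rw [e1, e2, e3, e4]
    simp
  | succ a ih =>
    intro X _ _ _ γ hγ hr
    obtain ⟨r, hrr⟩ : ∃ r, r = Module.finrank ℤ (AddMonoidHom.ker (γ - 1 : AddMonoid.End X)) :=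
      ⟨_, rfl⟩
    rw [← hrr] at hr
    have htf : ∀ x : X, p • x = 0 → x = 0 := by
      intro x hx
      have := (smul_eq_zero (r := (p : ℤ)) (m := x)).1 (by rw [natCast_zsmul]; exact hx)
      exact this.resolve_left (by exact_mod_cast hp0)
    obtain ⟨D, hD⟩ : ∃ D : AddMonoid.End X, D = γ - 1 := ⟨_, rfl⟩
    obtain ⟨δ, hδ⟩ : ∃ δ : AddMonoid.End X, δ = γ ^ (p ^ a) := ⟨_, rfl⟩
    obtain ⟨Φ, hΦ⟩ : ∃ Φ : AddMonoid.End X, Φ = ∑ j ∈ range p, γ ^ (p ^ a * j) := ⟨_, rfl⟩
    obtain ⟨Na, hNa⟩ : ∃ Na : AddMonoid.End X, Na = ∑ j ∈ range (p ^ a), γ ^ j := ⟨_, rfl⟩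
    obtain ⟨N, hN⟩ : ∃ N : AddMonoid.End X, N = ∑ j ∈ range (p ^ (a + 1)), γ ^ j := ⟨_, rfl⟩
    have hNe : N = Na * Φ := by
      rw [hN, hNa, hΦ, pow_succ, geom_mul]
    have hΦδ : Φ = ∑ j ∈ range p, δ ^ j := by
      rw [hΦ, hδ]
      exact Finset.sum_congr rfl fun j _ => by rw [pow_mul]
    have hcomm : ∀ (s : Finset ℕ) (e : ℕ → ℕ), Commute (∑ j ∈ s, γ ^ (e j)) γ := fun s e =>
      Commute.sum_left _ _ _ fun j _ => (Commute.refl γ).pow_left _
    have hΦc : ∀ x, Φ (γ x) = γ (Φ x) := by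
      intro x
      have := hcomm (range p) (fun j => p ^ a * j)
      rw [← hΦ] at this
      exact congrArg (fun u : AddMonoid.End X => u x) this.eq
    have hδc : ∀ x, δ (γ x) = γ (δ x) := by
      intro x
      rw [hδ]
      exact congrArg (fun u : AddMonoid.End X => u x) ((Commute.refl γ).pow_left _).eq
    have hNac : Na * Φ = Φ * Na := by
      rw [hNa, hΦ]
      apply Commute.sum_left
      intro j _
      apply Commute.sum_right
      intro i _
      exact Commute.pow_pow (Commute.refl γ) _ _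
    have hD0 : ∀ x, D x = 0 ↔ γ x = x := by
      intro x
      rw [hD]
      exact sub_eq_zero
    have hDN : D * N = 0 := by
      rw [hD, hN, mul_geom_sum, hγ, sub_self]
    have hND : N * D = 0 := by
      rw [hD, hN, geom_sum_mul, hγ, sub_self]
    have hδΦ : ∀ x, δ (Φ x) = Φ x := by
      intro x
      have h1 : (δ - 1) * Φ = 0 := by
        rw [hΦδ, mul_geom_sum, hδ, ← pow_mul, ← pow_succ, hγ, sub_self]
      have h2 := congrArg (fun u : AddMonoid.End X => u x) h1
      exact sub_eq_zero.1 h2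
    have hΦfix : ∀ x, δ x = x → Φ x = p • x := by
      intro x hx
      have h3 : ∀ i : ℕ, (δ ^ i) x = x := by
        intro i
        induction i with
        | zero => rfl
        | succ i ih =>
          rw [pow_succ]
          change (δ ^ i) (δ x) = x
          rw [hx, ih]
      rw [hΦδ, HERB.sum_apply, Finset.sum_congr rfl fun i _ => h3 i, Finset.sum_const,
        Finset.card_range]
    have hγδ : ∀ x, γ x = x → δ x = x := by
      intro x hx
      have h3 : ∀ i : ℕ, (γ ^ i) x = x := by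
        intro i
        induction i with
        | zero => rfl
        | succ i ih =>
          rw [pow_succ]
          change (γ ^ i) (γ x) = x
          rw [hx, ih]
      rw [hδ]
      exact h3 _
    -- the two parts
    obtain ⟨X₁, hX₁⟩ : ∃ X₁ : AddSubgroup X, X₁ = AddMonoidHom.ker (δ - 1 : AddMonoid.End X) :=
      ⟨_, rfl⟩
    obtain ⟨X₂, hX₂⟩ : ∃ X₂ : AddSubgroup X, X₂ = AddMonoidHom.ker Φ := ⟨_, rfl⟩
    have mem₁ : ∀ x, x ∈ X₁ ↔ δ x = x := by
      intro x
      rw [hX₁, AddMonoidHom.mem_ker]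
      exact sub_eq_zero
    have mem₂ : ∀ x, x ∈ X₂ ↔ Φ x = 0 := by
      intro x
      rw [hX₂]
      exact Iff.rfl
    have hdis : X₁ ⊓ X₂ = ⊥ := by
      rw [eq_bot_iff]
      rintro x ⟨h1, h2⟩
      have h1' := (mem₁ x).1 h1
      have h2' := (mem₂ x).1 h2
      rw [AddSubgroup.mem_bot]
      apply htf
      rw [← hΦfix x h1', h2']
    have hpY : ∀ x, p • x ∈ X₁ ⊔ X₂ := by
      intro x
      have e : p • x = Φ x + (p • x - Φ x) := (add_sub_cancel _ _).symm
      rw [e]
      apply AddSubgroup.add_mem_sup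
      · exact (mem₁ _).2 (hδΦ x)
      · rw [mem₂, map_sub, map_nsmul, hΦfix (Φ x) (hδΦ x), sub_self]
    obtain ⟨Y, hY⟩ : ∃ Y : AddSubgroup X, Y = X₁ ⊔ X₂ := ⟨_, rfl⟩
    have hYi : Y.index ≠ 0 := by
      have h1 : (nsmulAddMonoidHom p : X →+ X).range ≤ Y := by
        rintro _ ⟨x, rfl⟩
        rw [hY]
        exact hpY x
      have h2 : (nsmulAddMonoidHom p : X →+ X).range.index ≠ 0 := by
        rw [HERB.index_nsmul]
        apply mul_ne_zero
        · exact HERB.card_ker_ne_zero _ (HERB.nsmul_ker_le p)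
        · exact pow_ne_zero _ hp0
      intro h3
      apply h2
      have h4 := AddSubgroup.index_dvd_of_le h1
      rw [h3] at h4
      exact Nat.eq_zero_of_zero_dvd h4
    have hst₁ : ∀ z ∈ X₁, γ z ∈ X₁ := by
      intro z hz
      rw [mem₁] at hz ⊢
      rw [hδc, hz]
    have hst₂ : ∀ z ∈ X₂, γ z ∈ X₂ := by
      intro z hz
      rw [mem₂] at hz ⊢
      rw [hΦc, hz, map_zero]
    -- finiteness and freeness of subgroups
    have hfin : ∀ Z : AddSubgroup X, Module.Finite ℤ Z := by
      intro Z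
      have h1 : Module.Finite ℤ (AddSubgroup.toIntSubmodule Z) := inferInstance
      exact h1
    have hfree : ∀ Z : AddSubgroup X, Module.Free ℤ Z := by
      intro Z
      have h1 : Module.Free ℤ (AddSubgroup.toIntSubmodule Z) := inferInstance
      exact h1
    have := hfin
    have := hfree
    -- ranks
    have rk₁ : Module.finrank ℤ X₁ = p ^ a * r := by
      rw [hX₁, hδ]
      exact hr a (Nat.le_succ a)
    have rkX : Module.finrank ℤ X = p ^ (a + 1) * r := by
      rw [← hr (a + 1) le_rfl, hγ]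
      have e : AddMonoidHom.ker (1 - 1 : AddMonoid.End X) = ⊤ := by
        rw [sub_self]
        ext x
        simp only [AddSubgroup.mem_top, iff_true]
        rfl
      rw [e]
      exact (AddSubgroup.topEquiv (G := X)).toIntLinearEquiv.finrank_eq.symm
    have rk₂ : Module.finrank ℤ X₂ = p ^ a * (p - 1) * r := by
      have h1 := HERB.rank_nullity (Φ : X →+ X)
      have h2 : Module.finrank ℤ (AddMonoidHom.range (Φ : X →+ X)) = Module.finrank ℤ X₁ := by
        apply le_antisymm
        · have hle : AddMonoidHom.range (Φ : X →+ X) ≤ X₁ := by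
            rintro _ ⟨x, rfl⟩
            exact (mem₁ _).2 (hδΦ x)
          have := hfin X₁
          exact LinearMap.finrank_le_finrank_of_injective
            (f := (AddSubgroup.inclusion hle).toIntLinearMap)
            (AddSubgroup.inclusion_injective hle)
        · have := hfin (AddMonoidHom.range (Φ : X →+ X))
          let j : X₁ →+ AddMonoidHom.range (Φ : X →+ X) :=
            ((Φ : X →+ X).comp X₁.subtype).codRestrict _ fun x => ⟨x, rfl⟩
          refine LinearMap.finrank_le_finrank_of_injective (f := j.toIntLinearMap) ?_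
          change Function.Injective j
          rw [injective_iff_map_eq_zero]
          intro x hx
          have h3 : Φ (x : X) = 0 := congrArg Subtype.val hx
          rw [hΦfix x ((mem₁ _).1 x.2)] at h3
          exact Subtype.ext (htf _ h3)
      rw [h2, rk₁, rkX] at h1
      have h3 : Module.finrank ℤ (AddMonoidHom.ker (Φ : X →+ X)) = Module.finrank ℤ X₂ := by
        rw [hX₂]
      rw [h3] at h1
      have h4 : p ^ (a + 1) * r = p ^ a * r + p ^ a * (p - 1) * r := by
        obtain ⟨k, hk⟩ : ∃ k, p = k + 1 := ⟨p - 1, (Nat.succ_pred_eq_of_ne_zero hp0).symm⟩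
        rw [pow_succ, hk, Nat.add_sub_cancel]
        ring
      omega
    -- the two restrictions
    obtain ⟨γ₁, hγ₁⟩ := restr γ X₁ hst₁
    obtain ⟨γ₂, hγ₂⟩ := restr γ X₂ hst₂
    have hfr₁ := hfree X₁
    have hfi₁ := hfin X₁
    have hfr₂ := hfree X₂
    have hfi₂ := hfin X₂
    have ih1 := ih X₁ γ₁ (by
      apply AddMonoidHom.ext
      intro z
      apply Subtype.ext
      have h1 := hγ₁ (p ^ a) z
      rw [← hδ] at h1
      exact h1.trans ((mem₁ _).1 z.2)) (by
      have hk : ∀ i ≤ a, Module.finrank ℤ (AddMonoidHom.ker (γ₁ ^ (p ^ i) - 1 : AddMonoid.End X₁)) =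
          Module.finrank ℤ (AddMonoidHom.ker (γ ^ (p ^ i) - 1 : AddMonoid.End X)) := by
        intro i hi
        apply finrank_of _ X₁
        · intro x hx
          have hx' : (γ ^ (p ^ i)) x = x := sub_eq_zero.1 hx
          rw [mem₁, hδ]
          obtain ⟨k, hk⟩ : ∃ k, p ^ a = p ^ i * k := pow_dvd_pow p hi
          rw [hk, pow_mul]
          have h3 : ∀ j : ℕ, ((γ ^ (p ^ i)) ^ j) x = x := by
            intro j
            induction j with
            | zero => rfl
            | succ j ih =>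
              rw [pow_succ]
              change ((γ ^ (p ^ i)) ^ j) ((γ ^ (p ^ i)) x) = x
              rw [hx', ih]
          exact h3 k
        · intro z
          have h1 := restr_sub γ X₁ γ₁ hγ₁ (p ^ i) z
          constructor
          · intro h
            have h2 : (γ₁ ^ (p ^ i) - 1 : AddMonoid.End X₁) z = 0 := h
            rw [h2] at h1
            exact h1.symm
          · intro h
            have h2 : (γ ^ (p ^ i) - 1 : AddMonoid.End X) z = 0 := h
            rw [h2] at h1
            exact Subtype.ext h1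
      intro i hi
      rw [hk i hi, hr i (hi.trans (Nat.le_succ a))]
      have h0 := hk 0 (Nat.zero_le a)
      rw [pow_zero, pow_one, pow_one] at h0
      rw [h0, ← hrr])
    have ix2 := hHQ2 p a r X₂ γ₂ (by
      apply AddMonoidHom.ext
      intro z
      apply Subtype.ext
      have h1 := restr_sum γ X₂ γ₂ hγ₂ (range p) (fun j => p ^ a * j) z
      rw [← hΦ] at h1
      exact h1.trans ((mem₂ _).1 z.2)) rk₂
    rw [index_of X₂ (D : X →+ X) (γ₂ - 1 : AddMonoid.End X₂) (by
      intro z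
      rw [hD]
      exact restr_sub1 γ X₂ γ₂ hγ₂ z)] at ix2
    obtain ⟨ih2, ih3⟩ := ih1
    have eD : ∀ z : X₁, (((γ₁ - 1 : AddMonoid.End X₁) z : X₁) : X) = D z := by
      intro z
      rw [hD]
      exact restr_sub1 γ X₁ γ₁ hγ₁ z
    have eN : ∀ z : X₁, (((∑ j ∈ range (p ^ a), γ₁ ^ j : AddMonoid.End X₁) z : X₁) : X) = Na z := by
      intro z
      rw [hNa]
      exact restr_sum γ X₁ γ₁ hγ₁ _ (fun j => j) z
    rw [relIndex_of X₁ (Na : X →+ X) (D : X →+ X) _ _ eN eD] at ih2 ih3
    rw [relIndex_of X₁ (D : X →+ X) (Na : X →+ X) _ _ eD eN] at ih3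
    -- `Y`
    have hNx₁ : ∀ x ∈ X₁, N x = p • Na x := by
      intro x hx
      rw [hNe]
      change Na (Φ x) = p • Na x
      rw [hΦfix x ((mem₁ x).1 hx), map_nsmul]
    have hNx₂ : ∀ x ∈ X₂, N x = 0 := by
      intro x hx
      rw [hNe]
      change Na (Φ x) = 0
      rw [(mem₂ x).1 hx, map_zero]
    have hker₁ : AddMonoidHom.ker (D : X →+ X) ≤ X₁ := by
      intro x hx
      exact (mem₁ x).2 (hγδ x ((hD0 x).1 hx))
    have hYker : Y ⊓ AddMonoidHom.ker (D : X →+ X) = AddMonoidHom.ker (D : X →+ X) := by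
      rw [inf_eq_right, hY]
      exact hker₁.trans le_sup_left
    have hX₁ker : X₁ ⊓ AddMonoidHom.ker (D : X →+ X) = AddMonoidHom.ker (D : X →+ X) :=
      inf_eq_right.2 hker₁
    rw [hX₁ker] at ih2 ih3
    have hinjp : Function.Injective (nsmulAddMonoidHom p : X →+ X) := by
      rw [injective_iff_map_eq_zero]
      intro x hx
      exact htf x hx
    have hYN : Y.map (N : X →+ X) = (X₁.map (Na : X →+ X)).map (nsmulAddMonoidHom p : X →+ X) := by
      ext x
      constructor
      · rintro ⟨y, hy, rfl⟩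
        rw [hY] at hy
        obtain ⟨u, hu, v, hv, rfl⟩ := AddSubgroup.mem_sup.1 hy
        refine ⟨Na u, ⟨u, hu, rfl⟩, ?_⟩
        have e1 : N (u + v) = p • Na u := by
          rw [map_add, hNx₁ u hu, hNx₂ v hv, add_zero]
        exact e1.symm
      · rintro ⟨_, ⟨u, hu, rfl⟩, rfl⟩
        refine ⟨u, ?_, ?_⟩
        · rw [hY]
          exact AddSubgroup.mem_sup_left hu
        · exact hNx₁ u hu
    have hNaD : X₁.map (Na : X →+ X) ≤ AddMonoidHom.ker (D : X →+ X) := by
      rintro _ ⟨u, hu, rfl⟩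
      rw [AddMonoidHom.mem_ker]
      apply htf
      have h1 : D (N u) = 0 := congrArg (fun v : AddMonoid.End X => v u) hDN
      rw [hNx₁ u hu, map_nsmul] at h1
      exact h1
    have hpker : ((AddMonoidHom.ker (D : X →+ X)).map (nsmulAddMonoidHom p : X →+ X)).relIndex
        (AddMonoidHom.ker (D : X →+ X)) = p ^ r := by
      have := hfin (AddMonoidHom.ker (D : X →+ X))
      have h1 := HERB.index_nsmul (AddMonoidHom.ker (D : X →+ X)) p
      rw [index_of (AddMonoidHom.ker (D : X →+ X)) (nsmulAddMonoidHom p : X →+ X)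
        (nsmulAddMonoidHom p) (fun _ => rfl)] at h1
      rw [h1]
      have h2 : (nsmulAddMonoidHom p : AddMonoidHom.ker (D : X →+ X) →+ _).ker = ⊥ := by
        rw [eq_bot_iff]
        intro x hx
        have hx' : p • x = 0 := hx
        rw [AddSubgroup.mem_bot]
        apply Subtype.ext
        exact htf _ (congrArg Subtype.val hx')
      rw [h2, AddSubgroup.card_bot, one_mul, hrr, hD]
    have i0 : (Y.map (N : X →+ X)).relIndex (Y ⊓ AddMonoidHom.ker (D : X →+ X)) =
        (X₁.map (Na : X →+ X)).relIndex (AddMonoidHom.ker (D : X →+ X)) * p ^ r := by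
      rw [hYker, hYN, ← AddSubgroup.relIndex_mul_relIndex _
        ((AddMonoidHom.ker (D : X →+ X)).map (nsmulAddMonoidHom p : X →+ X)) _
        (AddSubgroup.map_mono hNaD) ?_, hpker,
        AddSubgroup.relIndex_map_map_of_injective _ _ hinjp]
      rintro _ ⟨u, hu, rfl⟩
      exact AddSubgroup.nsmul_mem _ hu p
    have i1 : (Y.map (D : X →+ X)).relIndex (Y ⊓ AddMonoidHom.ker (N : X →+ X)) =
        (X₁.map (D : X →+ X)).relIndex (X₁ ⊓ AddMonoidHom.ker (Na : X →+ X)) * p ^ r := by
      have e1 : Y.map (D : X →+ X) = X₁.map (D : X →+ X) ⊔ X₂.map (D : X →+ X) := by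
        rw [hY, AddSubgroup.map_sup]
      have e2 : Y ⊓ AddMonoidHom.ker (N : X →+ X) = (X₁ ⊓ AddMonoidHom.ker (Na : X →+ X)) ⊔ X₂ := by
        ext x
        constructor
        · rintro ⟨hx, hk⟩
          rw [hY] at hx
          obtain ⟨u, hu, v, hv, rfl⟩ := AddSubgroup.mem_sup.1 hx
          apply AddSubgroup.add_mem_sup _ hv
          refine ⟨hu, ?_⟩
          have hk' : N (u + v) = 0 := hk
          rw [map_add, hNx₁ u hu, hNx₂ v hv, add_zero] at hk'
          exact htf _ hk'
        · intro hx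
          obtain ⟨u, hu, v, hv, rfl⟩ := AddSubgroup.mem_sup.1 hx
          refine ⟨?_, ?_⟩
          · rw [hY]
            exact AddSubgroup.add_mem_sup hu.1 hv
          · have hu2 : Na u = 0 := hu.2
            change N (u + v) = 0
            rw [map_add, hNx₁ u hu.1, hNx₂ v hv, add_zero, hu2, smul_zero]
      rw [e1, e2, relIndex_sup, ix2]
      · rintro _ ⟨u, hu, rfl⟩
        refine ⟨?_, ?_⟩
        · have : D u = γ u - u := by rw [hD]; rfl
          change D u ∈ X₁
          rw [this]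
          exact AddSubgroup.sub_mem _ (hst₁ u hu) hu
        · change Na (D u) = 0
          apply htf
          have h1 : N (D u) = 0 := congrArg (fun v : AddMonoid.End X => v u) hND
          have h2 : D u ∈ X₁ := by
            have : D u = γ u - u := by rw [hD]; rfl
            rw [this]
            exact AddSubgroup.sub_mem _ (hst₁ u hu) hu
          rw [hNx₁ _ h2] at h1
          exact h1
      · rintro _ ⟨u, hu, rfl⟩
        have : D u = γ u - u := by rw [hD]; rfl
        change D u ∈ X₂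
        rw [this]
        exact AddSubgroup.sub_mem _ (hst₂ u hu) hu
      · rw [eq_bot_iff, ← hdis]
        exact inf_le_inf_right _ inf_le_left
    have hfin1 := hHQ1 X (D : X →+ X) (N : X →+ X) Y hYi
      (by
        intro y hy
        rw [hY] at hy ⊢
        obtain ⟨u, hu, v, hv, rfl⟩ := AddSubgroup.mem_sup.1 hy
        have e : (D : X →+ X) (u + v) = (γ u - u) + (γ v - v) := by
          rw [map_add, hD]; rfl
        have h1 := AddSubgroup.add_mem_sup (AddSubgroup.sub_mem _ (hst₁ u hu) hu)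
          (AddSubgroup.sub_mem _ (hst₂ v hv) hv)
        rw [← e] at h1
        exact h1)
      (by
        intro y hy
        have h1 : (N : X →+ X) y ∈ Y.map (N : X →+ X) := ⟨y, hy, rfl⟩
        rw [hYN] at h1
        obtain ⟨z, hz, hz'⟩ := h1
        have h2 : (nsmulAddMonoidHom p : X →+ X) z ∈ Y := by
          rw [hY]
          exact hpY z
        rw [hz'] at h2
        exact h2)
      (fun x => congrArg (fun v : AddMonoid.End X => v x) hDN)
      (fun x => congrArg (fun v : AddMonoid.End X => v x) hND)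
      (by
        rw [i0]
        exact mul_ne_zero ih2 (pow_ne_zero _ hp0))
      (by rw [i0, i1, ih3])
    rw [← hN, ← hD]
    exact hfin1

end Pool.Agent.RID
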