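import Pool.Agent.RID.St
import Pool.Agent.RI.RKF

/-!
# RK1: Dirichlet's unit theorem for the fixed field of a group of automorphisms
-/

open NumberField Finset IsDedekindDomain
open scoped nonZeroDivisors Pointwise

namespace Pool.Agent.RID

open Pool.Agent.RI

namespace RK1

/-- elements of `H` and automorphisms over the fixed field -/
theorem fix_iff {F L : Type} [Field F] [Field L] [Algebra F L] [FiniteDimensional F L]
    (H : Subgroup (L ≃ₐ[F] L)) (σ : L ≃ₐ[F] L) :
    σ ∈ H ↔ ∃ τ : L ≃ₐ[IntermediateField.fixedField H] L, ∀ x : L, τ x = σ x := by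
  constructor
  · intro hσ
    have h1 : σ ∈ (IntermediateField.fixedField H).fixingSubgroup := by
      rw [IntermediateField.fixingSubgroup_fixedField]
      exact hσ
    exact ⟨IntermediateField.fixingSubgroupEquiv _ ⟨σ, h1⟩, fun x => rfl⟩
  · rintro ⟨τ, hτ⟩
    rw [← IntermediateField.fixingSubgroup_fixedField H]
    intro x
    have h1 := τ.commutes x
    exact (hτ _).symm.trans h1

/-- places of the fixed field -/
theorem card_places {F L : Type} [Field F] [NumberField F] [Field L] [NumberField L]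
    [Algebra F L] [IsGalois F L] (H : Subgroup (L ≃ₐ[F] L)) :
    Nat.card (MulAction.orbitRel.Quotient H (InfinitePlace L)) =
      Fintype.card (InfinitePlace (IntermediateField.fixedField H)) := by
  have e1 : MulAction.orbitRel.Quotient H (InfinitePlace L) ≃
      Quotient (MulAction.orbitRel (L ≃ₐ[IntermediateField.fixedField H] L)
        (InfinitePlace L)) := by
    refine Quotient.congr (Equiv.refl _) ?_
    intro w w'
    change w ∈ MulAction.orbit H w' ↔ w ∈ MulAction.orbit (L ≃ₐ[IntermediateField.fixedField H] L) w'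
    constructor
    · rintro ⟨σ, hσ⟩
      obtain ⟨τ, hτ⟩ := (fix_iff H (σ : L ≃ₐ[F] L)).1 σ.2
      refine ⟨τ, ?_⟩
      rw [← hσ]
      ext x
      change w' (τ.symm x) = w' ((σ : L ≃ₐ[F] L).symm x)
      congr 1
      rw [AlgEquiv.symm_apply_eq, hτ, AlgEquiv.apply_symm_apply]
    · rintro ⟨τ, hτ⟩
      have h1 : τ.restrictScalars F ∈ H := (fix_iff H _).2 ⟨τ, fun x => rfl⟩
      refine ⟨⟨_, h1⟩, ?_⟩
      rw [← hτ]
      rfl
  rw [Nat.card_congr (e1.trans InfinitePlace.orbitRelEquiv), Nat.card_eq_fintype_card]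

/-- units of the fixed field -/
theorem units_equiv {F L κ : Type} [Field F] [NumberField F] [Field L] [NumberField L]
    [Algebra F L] [IsGalois F L] (N : κ → Subgroup (L ≃ₐ[F] L)) (H : Subgroup (L ≃ₐ[F] L)) :
    Nonempty ((𝓞 (IntermediateField.fixedField H))ˣ ≃* WU ([] : List κ) N H) := by
  set M := IntermediateField.fixedField H with hM
  have hinj : Function.Injective (Units.map (algebraMap M L : M →* L)) :=
    Units.map_injective (FaithfulSMul.algebraMap_injective M L)
  have hinj' : Function.Injective (Units.map (algebraMap (𝓞 M) M : 𝓞 M →* M)) :=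
    Units.map_injective (FaithfulSMul.algebraMap_injective (𝓞 M) M)
  have h4 : ∀ x : (𝓞 M)ˣ, Units.map (algebraMap M L : M →* L)
      (Units.map (algebraMap (𝓞 M) M : 𝓞 M →* M) x) ∈ WU ([] : List κ) N H := by
    intro x
    refine ⟨?_, ?_, ?_⟩
    · rw [RKF.prin_map_eq_one_iff, RKU.prin_eq_one_iff]
      exact ⟨x, rfl⟩
    · intro σ hσ
      obtain ⟨τ, hτ⟩ := (fix_iff H σ).1 hσ
      apply Units.ext
      change σ (algebraMap M L _) = algebraMap M L _
      rw [← hτ]
      exact τ.commutes _
    · rw [mem_part]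
      intro i hi
      simp at hi
  let e : (𝓞 M)ˣ →* WU ([] : List κ) N H :=
    ((Units.map (algebraMap M L : M →* L)).comp
      (Units.map (algebraMap (𝓞 M) M : 𝓞 M →* M))).codRestrict _ h4
  refine ⟨MulEquiv.ofBijective e ⟨?_, ?_⟩⟩
  · intro x y hxy
    apply hinj'
    apply hinj
    exact congrArg (fun z : WU ([] : List κ) N H => (z : Lˣ)) hxy
  · rintro ⟨u, hu, hu', hu''⟩
    obtain ⟨x, rfl⟩ := RKF.exists_of_fixed (K := M) u (by
      intro τ
      have h1 : τ.restrictScalars F ∈ H := (fix_iff H _).2 ⟨τ, fun x => rfl⟩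
      exact hu' _ h1)
    rw [RKF.prin_map_eq_one_iff, RKU.prin_eq_one_iff] at hu
    obtain ⟨ε, rfl⟩ := hu
    exact ⟨ε, rfl⟩

end RK1

theorem t_RK1 : S_RK1 := by
  intro F L κ _ _ _ _ _ _ N H
  obtain ⟨e⟩ := RK1.units_equiv N H
  rw [RK1.card_places H, ← (MulEquiv.toAdditive e).toIntLinearEquiv.finrank_eq,
    NumberField.Units.finrank_eq, NumberField.Units.rank]
  have c1 : 0 < Fintype.card (InfinitePlace (IntermediateField.fixedField H)) := Fintype.card_pos
  omega

end Pool.Agent.RID
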