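import Pool.Agent.RID.St
import Mathlib.GroupTheory.NoncommCoprod

/-!
RK2: numbers of orbits.
-/

set_option autoImplicit false

open Finset

namespace Pool.Agent.RID

namespace RK2

/-- Burnside for `H ⊔ ⟨c⟩`. -/
theorem count {G X : Type} [Group G] [Finite G] [Finite X] [MulAction G X] (c : G)
    (H : Subgroup G) (hcop : (Nat.card H).Coprime (orderOf c)) (hcom : ∀ h ∈ H, h * c = c * h)
    (hfree : ∀ (x : X) (j : ℕ), c ^ j • x = x → c ^ j = 1) :
    Nat.card (MulAction.orbitRel.Quotient ↥(H ⊔ Subgroup.zpowers c) X) *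
      (Nat.card H * orderOf c) = ∑ᶠ h : H, Nat.card (MulAction.fixedBy X (h : G)) := by
  classical
  have hcm : ∀ (h : H) (z : Subgroup.zpowers c), Commute (H.subtype h)
      ((Subgroup.zpowers c).subtype z) := by
    rintro ⟨h, hh⟩ ⟨z, hz⟩
    obtain ⟨k, rfl⟩ := Subgroup.mem_zpowers_iff.1 hz
    exact (show Commute h c from hcom h hh).zpow_right k
  let φ : H × Subgroup.zpowers c →* G :=
    MonoidHom.noncommCoprod H.subtype (Subgroup.zpowers c).subtype hcm
  have hφ : ∀ h z, φ (h, z) = (h : G) * (z : G) := fun h z => rfl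
  have hdis : Disjoint H (Subgroup.zpowers c) := by
    rw [disjoint_iff]
    apply Subgroup.inf_eq_bot_of_coprime
    rw [Nat.card_zpowers]
    exact hcop
  have hinj : Function.Injective φ := by
    rw [MonoidHom.noncommCoprod_injective]
    refine ⟨H.subtype_injective, Subgroup.subtype_injective _, ?_⟩
    rw [Subgroup.range_subtype, Subgroup.range_subtype]
    exact hdis
  have hrange : φ.range = H ⊔ Subgroup.zpowers c := by
    rw [MonoidHom.noncommCoprod_range, Subgroup.range_subtype, Subgroup.range_subtype]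
  rw [← hrange]
  letI : Fintype G := Fintype.ofFinite G
  letI : Fintype X := Fintype.ofFinite X
  letI : Fintype H := Fintype.ofFinite H
  letI : Fintype (Subgroup.zpowers c) := Fintype.ofFinite _
  letI : Fintype φ.range := Fintype.ofFinite _
  letI : Fintype (MulAction.orbitRel.Quotient φ.range X) := Fintype.ofFinite _
  letI : ∀ g : φ.range, Fintype (MulAction.fixedBy X g) := fun g => Fintype.ofFinite _
  letI : ∀ g : G, Fintype (MulAction.fixedBy X g) := fun g => Fintype.ofFinite _
  have hB := MulAction.sum_card_fixedBy_eq_card_orbits_mul_card_group φ.range X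
  let e : H × Subgroup.zpowers c ≃ φ.range := (MonoidHom.ofInjective hinj).toEquiv
  have he : ∀ h z, ((e (h, z) : φ.range) : G) = (h : G) * (z : G) := fun h z => rfl
  have hcard : Fintype.card φ.range = Nat.card H * orderOf c := by
    rw [← Fintype.card_congr e, Fintype.card_prod, ← Nat.card_eq_fintype_card,
      ← Nat.card_eq_fintype_card, Nat.card_zpowers]
  rw [hcard, ← Nat.card_eq_fintype_card] at hB
  rw [← hB, finsum_eq_sum_of_fintype, ← Equiv.sum_comp e, Fintype.sum_prod_type]
  refine Finset.sum_congr rfl fun h _ => ?_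
  rw [Finset.sum_eq_single (1 : Subgroup.zpowers c)]
  · rw [← Nat.card_eq_fintype_card]
    refine Nat.card_congr (Equiv.subtypeEquivRight fun x => ?_)
    rw [MulAction.mem_fixedBy, MulAction.mem_fixedBy, Subgroup.smul_def, he, OneMemClass.coe_one,
      mul_one]
  · intro z _ hz
    rw [Fintype.card_eq_zero_iff]
    refine ⟨fun x => hz ?_⟩
    obtain ⟨x, hx⟩ := x
    rw [MulAction.mem_fixedBy, Subgroup.smul_def, he] at hx
    obtain ⟨z, hz'⟩ := z
    have hz2 : z ∈ Submonoid.powers c :=
      (mem_powers_iff_mem_zpowers).2 hz'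
    obtain ⟨j, hj⟩ := (Submonoid.mem_powers_iff z c).1 hz2
    subst hj
    have hcomm : Commute (h : G) (c ^ j) :=
      (show Commute (h : G) c from hcom h h.2).pow_right j
    have h1 : ∀ m : ℕ, ((h : G) * c ^ j) ^ m • x = x := by
      intro m
      induction m with
      | zero => simp
      | succ m ih => rw [pow_succ, mul_smul, hx, ih]
    have h2 := h1 (Nat.card H)
    have h3 : (h : G) ^ Nat.card H = 1 := by
      have := pow_card_eq_one' (G := H) (x := h)
      rw [← Subgroup.coe_pow, this, Subgroup.coe_one]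
    rw [hcomm.mul_pow, h3, one_mul, ← pow_mul] at h2
    have h4 := hfree x _ h2
    have h5 : orderOf c ∣ j * Nat.card H := orderOf_dvd_of_pow_eq_one h4
    have h6 : orderOf c ∣ j := (hcop.symm).dvd_of_dvd_mul_right h5
    apply Subtype.ext
    exact orderOf_dvd_iff_pow_eq_one.1 h6
  · intro h1
    exact absurd (Finset.mem_univ _) h1

end RK2

theorem t_RK2 : S_RK2 := by
  intro p a _ G X _ _ _ _ g H hg hH hcom hfree i hi
  have hp : p.Prime := Fact.out
  have ho : orderOf (g ^ p ^ i) = p ^ (a - i) := by
    rw [orderOf_pow, hg, Nat.gcd_eq_right (pow_dvd_pow p hi), Nat.pow_div hi hp.pos]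
  have h0 := RK2.count (X := X) g H (by
    rw [hg]
    exact hH.pow_right a) hcom hfree
  have h1 := RK2.count (X := X) (g ^ p ^ i) H (by
    rw [ho]
    exact hH.pow_right _) (fun h hh => (show Commute h g from hcom h hh).pow_right _) (by
    intro x j hj
    rw [← pow_mul] at hj ⊢
    exact hfree x _ hj)
  rw [← h0, ho, hg] at h1
  have hHpos : 0 < Nat.card H := Nat.card_pos
  have h2 : p ^ a = p ^ i * p ^ (a - i) := by
    rw [← pow_add]
    congr 1
    omega
  rw [h2] at h1
  have h3 : 0 < Nat.card H * p ^ (a - i) := Nat.mul_pos hHpos (pow_pos hp.pos _)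
  apply Nat.eq_of_mul_eq_mul_right h3
  rw [h1]
  ring

end Pool.Agent.RID
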