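import Pool.Agent.RID.St
import Pool.Agent.RI.RKU

open NumberField Finset
open scoped nonZeroDivisors Pointwise

namespace Pool.Agent.RID

open Pool.Agent.RI

namespace RK3

section ops

variable {G X : Type} [Group G] [Finite G] [CommGroup X] [MulDistribMulAction G X]

lemma smul_nuS_mem (N : Subgroup G) {τ : G} (hτ : τ ∈ N) (x : X) :
    τ • nuS N x = nuS N x := by
  letI := Fintype.ofFinite N
  rw [nuS_apply, Finset.smul_prod']
  refine Fintype.prod_equiv (Equiv.mulLeft (⟨τ, hτ⟩ : N)) _ _ ?_
  intro σ
  simp [mul_smul]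

lemma smul_nuS (N : Subgroup G) (hN : N.Normal) (τ : G) (x : X) :
    τ • nuS N x = nuS N (τ • x) := by
  letI := Fintype.ofFinite N
  rw [nuS_apply, nuS_apply, Finset.smul_prod']
  refine Fintype.prod_equiv (MulAut.conjNormal (H := N) τ).toEquiv _ _ ?_
  intro σ
  simp [← mul_smul]

lemma nuS_comm (N N' : Subgroup G) (hN : N.Normal) (x : X) :
    nuS N (nuS N' x) = nuS N' (nuS N x) := by
  letI := Fintype.ofFinite N'
  rw [nuS_apply N', nuS_apply N', map_prod]
  refine Finset.prod_congr rfl ?_
  intro σ _
  rw [smul_nuS N hN]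

lemma nuS_fixed (N : Subgroup G) (x : X) (h : ∀ σ ∈ N, σ • x = x) :
    nuS N x = x ^ Nat.card N := by
  letI := Fintype.ofFinite N
  have h1 : ∀ σ : N, (σ : G) • x = x := fun σ => h σ σ.2
  rw [nuS_apply, Finset.prod_congr rfl (fun σ _ => h1 σ), Finset.prod_const,
    Finset.card_univ, Nat.card_eq_fintype_card]

end ops

lemma prin_nuS {F L : Type} [Field F] [NumberField F] [Field L] [NumberField L] [Algebra F L]
    (N : Subgroup (L ≃ₐ[F] L)) (x : Lˣ) : prin (nuS N x) = nuS N (prin x) := by
  letI := Fintype.ofFinite N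
  rw [nuS_apply, nuS_apply, map_prod]
  refine Finset.prod_congr rfl ?_
  intro σ _
  rw [smul_prin]

end RK3

open RK3 in
theorem t_RK3 : S_RK3 := by
  intro F L κ _ _ _ _ _ _ l i N H hN
  have hNi : (N i).Normal := hN i (by simp)
  -- the units
  have hfin : ∀ (l : List κ) (H : Subgroup (L ≃ₐ[F] L)),
      Module.Finite ℤ (Additive (WU l N H)) := by
    intro l H
    have hinj : Function.Injective (Units.map (algebraMap (𝓞 L) L : 𝓞 L →* L)) :=
      Units.map_injective (FaithfulSMul.algebraMap_injective (𝓞 L) L)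
    have hle : ∀ x : WU l N H, (x : Lˣ) ∈ (Units.map (algebraMap (𝓞 L) L : 𝓞 L →* L)).range := by
      intro x
      obtain ⟨ε, hε⟩ := (RKU.prin_eq_one_iff _).mp x.2.1
      exact ⟨ε, hε⟩
    let f : Additive (WU l N H) →+ Additive (𝓞 L)ˣ :=
      MonoidHom.toAdditive (((MonoidHom.ofInjective hinj).symm.toMonoidHom).comp
        ((WU l N H).subtype.codRestrict _ hle))
    have hf : Function.Injective f.toIntLinearMap := by
      intro x y hxy
      have h1 : (MonoidHom.ofInjective hinj).symm ((WU l N H).subtype.codRestrict _ hle x.toMul) =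
        (MonoidHom.ofInjective hinj).symm ((WU l N H).subtype.codRestrict _ hle y.toMul) := hxy
      have h2 := (MonoidHom.ofInjective hinj).symm.injective h1
      apply Additive.toMul.injective
      apply Subtype.ext
      exact congrArg (fun z : (Units.map (algebraMap (𝓞 L) L : 𝓞 L →* L)).range => (z : Lˣ)) h2
    exact Module.Finite.of_injective f.toIntLinearMap hf
  refine ⟨?_, ?_⟩
  · rw [← Group.fg_iff_subgroup_fg, GroupFG.iff_add_fg]
    exact Module.Finite.iff_addGroup_fg.mp (hfin l H)
  -- the map
  have hmap : ∀ u : WU l N H, nuS (N i) (u : Lˣ) ∈ WU l N (H ⊔ N i) := by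
    intro u
    refine ⟨?_, ?_, ?_⟩
    · rw [prin_nuS, u.2.1, map_one]
    · have h1 : H ⊔ N i ≤ MulAction.stabilizer (L ≃ₐ[F] L) (nuS (N i) (u : Lˣ)) := by
        refine sup_le ?_ ?_
        · intro σ hσ
          rw [MulAction.mem_stabilizer_iff, smul_nuS (N i) hNi, u.2.2.1 σ hσ]
        · intro σ hσ
          rw [MulAction.mem_stabilizer_iff, smul_nuS_mem (N i) hσ]
      intro σ hσ
      exact MulAction.mem_stabilizer_iff.mp (h1 hσ)
    · rw [mem_part]
      intro j hj
      rw [← nuS_comm (N i) (N j) hNi, (mem_part.mp u.2.2.2) j hj, map_one]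
  let φ : WU l N H →* WU l N (H ⊔ N i) :=
    ((nuS (N i)).comp (WU l N H).subtype).codRestrict _ hmap
  let f : Additive (WU l N H) →+ Additive (WU l N (H ⊔ N i)) := MonoidHom.toAdditive φ
  have := hfin l H
  have := hfin l (H ⊔ N i)
  have h1 := HERB.rank_nullity f
  have h2 : Module.finrank ℤ f.range = Module.finrank ℤ (Additive (WU l N (H ⊔ N i))) := by
    refine RKU.finrank_eq_of_nsmul_mem f.range (Nat.card (N i)) Nat.card_pos ?_
    intro x
    have hx : (x.toMul : Lˣ) ∈ WU l N H := by
      refine ⟨x.toMul.2.1, ?_, x.toMul.2.2.2⟩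
      intro σ hσ
      exact x.toMul.2.2.1 σ (Subgroup.mem_sup_left hσ)
    refine ⟨Additive.ofMul ⟨_, hx⟩, ?_⟩
    apply Additive.toMul.injective
    apply Subtype.ext
    change nuS (N i) (x.toMul : Lˣ) = (x.toMul : Lˣ) ^ Nat.card (N i)
    exact nuS_fixed (N i) _ (fun σ hσ => x.toMul.2.2.1 σ (Subgroup.mem_sup_right hσ))
  have hk : ∀ x : Additive (WU l N H), x ∈ f.ker ↔ nuS (N i) (x.toMul : Lˣ) = 1 := by
    intro x
    rw [AddMonoidHom.mem_ker]
    constructor
    · intro h
      exact congrArg (fun z : Additive (WU l N (H ⊔ N i)) => ((z.toMul : WU l N (H ⊔ N i)) : Lˣ)) h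
    · intro h
      apply Additive.toMul.injective
      apply Subtype.ext
      exact h
  have h3 : Module.finrank ℤ f.ker = Module.finrank ℤ (Additive (WU (i :: l) N H)) := by
    have h4 : ∀ x : f.ker, ((x : Additive (WU l N H)).toMul : Lˣ) ∈ WU (i :: l) N H := by
      intro x
      refine ⟨((x : Additive (WU l N H)).toMul).2.1, ((x : Additive (WU l N H)).toMul).2.2.1, ?_⟩
      rw [mem_part]
      intro j hj
      rcases List.mem_cons.1 hj with rfl | hj
      · exact (hk _).mp x.2
      · exact (mem_part.mp ((x : Additive (WU l N H)).toMul).2.2.2) j hj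
    let e : f.ker →+ Additive (WU (i :: l) N H) :=
      { toFun := fun x => Additive.ofMul ⟨_, h4 x⟩
        map_zero' := by
          apply Additive.toMul.injective
          apply Subtype.ext
          rfl
        map_add' := by
          intro x y
          apply Additive.toMul.injective
          apply Subtype.ext
          rfl }
    have he : Function.Bijective e := by
      constructor
      · intro x y hxy
        apply Subtype.ext
        apply Additive.toMul.injective
        apply Subtype.ext
        exact congrArg (fun z : Additive (WU (i :: l) N H) => ((z.toMul : WU (i :: l) N H) : Lˣ))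
          hxy
      · intro y
        have hy : (y.toMul : Lˣ) ∈ WU l N H := by
          refine ⟨y.toMul.2.1, y.toMul.2.2.1, ?_⟩
          rw [mem_part]
          intro j hj
          exact (mem_part.mp y.toMul.2.2.2) j (List.mem_cons_of_mem _ hj)
        refine ⟨⟨Additive.ofMul ⟨_, hy⟩, (hk _).mpr ?_⟩, ?_⟩
        · exact (mem_part.mp y.toMul.2.2.2) i (by simp)
        · apply Additive.toMul.injective
          apply Subtype.ext
          rfl
    exact (AddEquiv.ofBijective e he).toIntLinearEquiv.finrank_eq
  rw [h2, h3] at h1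
  omega

end Pool.Agent.RID
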