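import Pool.Agent.RID.St
import Pool.Agent.RI.CL

open NumberField Finset IsDedekindDomain
open scoped nonZeroDivisors Pointwise

namespace Pool.Agent.RID

open Pool.Agent.RI

namespace STEPC

section

variable {F K L κ : Type} [Field F] [NumberField F] [Field K] [NumberField K] [Field L]
  [NumberField L] [Algebra F K] [Algebra F L] [Algebra K L] [IsScalarTower F K L]

/-- The abstract situation for one step. -/
theorem mkAD {p a : ℕ} (hCYC : S_CYC) (hRES : S_RES) (hNUS : S_NUS) (hINVE : S_INVE)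
    (l : List κ) (N' : κ → Subgroup (K ≃ₐ[F] K)) (N : κ → Subgroup (L ≃ₐ[F] L))
    (g : L ≃ₐ[F] L) (hS : Sys p F K L l N' N g a) :
    AD p (p ^ a) l (fun i => Nat.card (N i)) (fun i => (nuS (N i) : Lˣ →* Lˣ))
      (fun i => (nuS (N i) : J L →* J L)) (fun i => (nuS (N' i) : Kˣ →* Kˣ))
      (fun i => (nuS (N' i) : J K →* J K)) (prin : Lˣ →* J L) (prin : Kˣ →* J K)
      (Units.map (algebraMap K L : K →* L)) (ext K L) g := by
  obtain ⟨_, _, _, c4, c5, _, _, _, c9, c10, _⟩ := hCYC F K L g (p ^ a) hS.cyc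
  obtain ⟨_, _, n3, _, n5, n6⟩ := hNUS
  obtain ⟨q1, q2, _, _⟩ := n6 F L κ l N hS.nrm
  exact
    { cop := hS.cop
      qA := q1
      qI := q2
      gq := by rw [← hS.cyc.ord]; exact pow_orderOf_eq_one g
      dvg := fun x => (smul_prin g x).symm
      gA := fun i hi x => n3 _ _ (N i) x g (hS.nrm i hi)
      gI := fun i hi x => n3 _ _ (N i) x g (hS.nrm i hi)
      dvν := fun i _ x => n5 F L (N i) x
      sq := fun x => ext_prin K L x
      εν := fun i hi x => (hRES F K L (N' i) (N i) (hS.mat i hi)).1 x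
      ιν := fun i hi x => (hRES F K L (N' i) (N i) (hS.mat i hi)).2 x
      εinj := ext_injective K L
      gε := c9
      gι := c10
      h90 := c4
      fixA := c5
      inv := fun b hb hg => hINVE F K L κ l N g (p ^ a) hS.cyc hS.ram b hb hg
      fin := CL.finite_quot L
      fin' := CL.finite_quot K }

/-- The relative units. -/
theorem ker_part (l : List κ) (N : κ → Subgroup (L ≃ₐ[F] L)) :
    (prin : Lˣ →* J L).ker ⊓ part l (fun i => (nuS (N i) : Lˣ →* Lˣ)) = WU l N ⊥ := by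
  ext u
  constructor
  · rintro ⟨h1, h2⟩
    refine ⟨h1, ?_, h2⟩
    intro σ hσ
    rw [Subgroup.mem_bot] at hσ
    rw [hσ, one_smul]
  · rintro ⟨h1, _, h2⟩
    exact ⟨h1, h2⟩

/-- The relative units fixed by an automorphism. -/
theorem ker_fix (l : List κ) (N : κ → Subgroup (L ≃ₐ[F] L)) (h : L ≃ₐ[F] L) :
    (prin : Lˣ →* J L).ker ⊓ part l (fun i => (nuS (N i) : Lˣ →* Lˣ)) ⊓ (dg h : Lˣ →* Lˣ).ker =
      WU l N (Subgroup.zpowers h) := by
  ext u
  constructor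
  · rintro ⟨⟨h1, h2⟩, h3⟩
    have h3' : h • u = u := (mem_dg_ker h u).1 h3
    refine ⟨h1, ?_, h2⟩
    intro σ hσ
    have h4 : Subgroup.zpowers h ≤ MulAction.stabilizer (L ≃ₐ[F] L) u := by
      rw [Subgroup.zpowers_le]
      exact h3'
    exact h4 hσ
  · rintro ⟨h1, h3, h2⟩
    exact ⟨⟨h1, h2⟩, (mem_dg_ker h u).2 (h3 h (Subgroup.mem_zpowers h))⟩

end

end STEPC

open STEPC in
theorem t_STEPC (hABS1 : S_ABS1) (hABS2 : S_ABS2) (hHERBQ : S_HERBQ) (hRK3 : S_RK3)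
    (hRK4 : S_RK4) (hCYC : S_CYC) (hRES : S_RES) (hNUS : S_NUS) (hINVE : S_INVE) : S_STEPC := by
  intro p a _ F K L κ _ _ _ _ _ _ _ _ _ _ l N' N g hS
  have hAD := mkAD hCYC hRES hNUS hINVE l N' N g hS
  have hgal := hS.galL
  obtain ⟨i₀, hi₀⟩ := List.exists_mem_of_ne_nil l hS.ne
  have hFG : ((prin : Lˣ →* J L).ker ⊓ part l (fun i => (nuS (N i) : Lˣ →* Lˣ))).FG := by
    rw [ker_part]
    refine (hRK3 F L κ l i₀ N ⊥ ?_).1
    intro j hj
    rcases List.mem_cons.1 hj with rfl | hj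
    · exact hS.nrm _ hi₀
    · exact hS.nrm j hj
  have hst : ∀ u ∈ (prin : Lˣ →* J L).ker ⊓ part l (fun i => (nuS (N i) : Lˣ →* Lˣ)),
      g • u ∈ (prin : Lˣ →* J L).ker ⊓ part l (fun i => (nuS (N i) : Lˣ →* Lˣ)) := by
    rintro u ⟨h1, h2⟩
    have h1' : prin u = 1 := h1
    have h2' := mem_part.1 (show u ∈ part l (fun i => (nuS (N i) : Lˣ →* Lˣ)) from h2)
    refine ⟨?_, ?_⟩
    · show prin (g • u) = 1
      rw [hAD.dvg, h1', smul_one]
    · show g • u ∈ part l (fun i => (nuS (N i) : Lˣ →* Lˣ))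
      rw [mem_part]
      intro i hi
      have h3 := hAD.gA i hi u
      rw [h2' i hi, smul_one] at h3
      exact h3.symm
  have hrk : ∀ i ≤ a, Module.finrank ℤ (Additive ↥((prin : Lˣ →* J L).ker ⊓
      part l (fun i => (nuS (N i) : Lˣ →* Lˣ)) ⊓ (dg (g ^ (p ^ i)) : Lˣ →* Lˣ).ker)) =
      p ^ i * Module.finrank ℤ (Additive ↥((prin : Lˣ →* J L).ker ⊓
      part l (fun i => (nuS (N i) : Lˣ →* Lˣ)) ⊓ (dg g : Lˣ →* Lˣ).ker)) := by
    intro i hi
    rw [ker_fix, ker_fix]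
    exact hRK4 p a F K L κ l N' N g hS i hi
  obtain ⟨hne, heq⟩ := hHERBQ p a Lˣ (L ≃ₐ[F] L) g _ hAD.gq hFG hst hrk
  have h1 := hABS1 p (p ^ a) _ _ _ _ _ _ _ _ _ _ _ _ _ _ _ _ _ hAD hne
  have h2 := hABS2 p (p ^ a) _ _ _ _ _ _ _ _ _ _ _ _ _ _ _ _ _ hAD (heq ▸ hne)
  rw [← heq] at h2
  have h3 : padicValNat p ((prin : Lˣ →* J L).range.relIndex
      (partM l (fun i => (nuS (N i) : J L →* J L)) (prin : Lˣ →* J L).range ⊓
        (prin : Lˣ →* J L).range.comap (dg g))) ≤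
      padicValNat p ((prin : Kˣ →* J K).range.relIndex
        (partM l (fun i => (nuS (N' i) : J K →* J K)) (prin : Kˣ →* J K).range)) :=
    h1.trans h2
  exact h3

end Pool.Agent.RID
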