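import Pool.Agent.RID.St

/-!
# The capitulation kernel (abstract counting)
-/

open NumberField Finset IsDedekindDomain
open scoped nonZeroDivisors Pointwise

namespace Pool.Agent.RID

open Pool.Agent.RI

namespace ABS2

lemma rel_dvd_right {X : Type} [CommGroup X] {H K L : Subgroup X} (hHL : H ≤ L) (hKL : K ≤ L) :
    H.relIndex K ∣ H.relIndex L := by
  have h1 : H.relIndex (H ⊔ K) = H.relIndex K := Subgroup.relIndex_sup_left K H
  rw [← h1, ← Subgroup.relIndex_mul_relIndex H (H ⊔ K) L le_sup_left (sup_le hHL hKL)]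
  exact Dvd.intro _ rfl

lemma map_dvd {X Y : Type} [CommGroup X] [CommGroup Y] (f : X →* Y) (H K : Subgroup X) :
    (H.map f).relIndex (K.map f) ∣ H.relIndex K := by
  rw [← Subgroup.relIndex_comap]
  exact Subgroup.relIndex_dvd_of_le_left K (Subgroup.le_comap_map f H)

lemma padic_zero (p : ℕ) [hp : Fact p.Prime] {X : Type} [CommGroup X] {H K : Subgroup X} {n : ℕ}
    (hn : n.Coprime p) (h : ∀ x ∈ K, x ^ n ∈ H) : padicValNat p (H.relIndex K) = 0 := by
  by_cases h0 : H.relIndex K = 0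
  · rw [h0, padicValNat.zero]
  · refine padicValNat.eq_zero_of_not_dvd fun hd => ?_
    have hcard : Nat.card (K ⧸ H.subgroupOf K) = H.relIndex K := rfl
    have hfin : Finite (K ⧸ H.subgroupOf K) := Nat.finite_of_card_ne_zero (by rw [hcard]; exact h0)
    rw [← hcard] at hd
    obtain ⟨x, hx⟩ := exists_prime_orderOf_dvd_card' p hd
    have hx1 : x ^ n = 1 := by
      induction x using QuotientGroup.induction_on with
      | H y =>
        rw [← QuotientGroup.mk_pow, QuotientGroup.eq_one_iff, Subgroup.mem_subgroupOf]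
        exact h _ y.2
    have h1 : p ∣ n := by
      rw [← hx]
      exact orderOf_dvd_of_pow_eq_one hx1
    have h2 : p ∣ 1 := by
      rw [← hn]
      exact Nat.dvd_gcd h1 dvd_rfl
    exact hp.out.one_lt.ne' (Nat.dvd_one.1 h2)

lemma padic_mono (p : ℕ) [Fact p.Prime] {a b : ℕ} (hb : b ≠ 0) (h : a ∣ b) :
    padicValNat p a ≤ padicValNat p b :=
  (padicValNat_dvd_iff_le hb).1 (pow_padicValNat_dvd.trans h)

lemma ng_dg {G X : Type} [Group G] [CommGroup X] [MulDistribMulAction G X] (g : G) (q : ℕ)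
    (hg : g ^ q = 1) (x : X) : ng g q (dg g x) = 1 := by
  rw [ng_apply]
  have h : ∀ n : ℕ, ∏ i ∈ range n, g ^ i • dg g x = x / g ^ n • x := by
    intro n
    induction n with
    | zero => simp
    | succ n ih =>
      rw [prod_range_succ, ih, dg_apply, smul_div', ← mul_smul, ← pow_succ,
        div_mul_div_cancel]
  rw [h, hg, one_smul, div_self']

end ABS2

open ABS2

theorem t_ABS2 : S_ABS2 := by
  intro p q hp A I A' I' G κ _ _ _ _ _ _ _ l k νA νI νA' νI' dv dv' ι ε g had h0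
  obtain ⟨cop, qA, qI, gq, dvg, gA, gI, dvν, sq, εν, ιν, εinj, gε, gι, h90, fixA, inv, fin, fin'⟩ :=
    had
  set E := dv.ker ⊓ part l νA with hE
  set Z₁ := E ⊓ (ng g q : A →* A).ker with hZ₁
  set B₁ := E.map (dg g : A →* A) with hB₁
  set P := dv.range with hP
  set P' := dv'.range with hP'
  set X' := partM l νI' P' with hX'
  set K₀ := X' ⊓ P.comap ε with hK₀
  set w := wt l k with hw
  have hwp : w.Coprime p := wt_coprime l k cop
  -- stability
  have hst : ∀ i ∈ l, ∀ a, νI' i (dv' a) = dv' (νA' i a) := by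
    intro i hi a
    apply εinj
    rw [εν i hi, sq, ← dvν i hi, sq, ιν i hi]
  have hPX : P' ≤ X' := by
    rintro _ ⟨a, rfl⟩
    rw [hX', mem_partM]
    intro i hi
    rw [hst i hi]
    exact ⟨_, rfl⟩
  have hPK : P' ≤ K₀ := by
    refine le_inf hPX ?_
    rintro _ ⟨a, rfl⟩
    rw [Subgroup.mem_comap, sq]
    exact ⟨_, rfl⟩
  have hKX : K₀ ≤ X' := inf_le_left
  have hn1 : P'.relIndex X' ≠ 0 := by
    have h1 : P'.index ≠ 0 := by
      have : Finite (I' ⧸ P') := fin'
      exact Subgroup.index_ne_zero_of_finite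
    exact fun h => h1 (by
      have := Subgroup.relIndex_dvd_index_of_normal P' X'
      rw [h] at this
      exact Nat.eq_zero_of_zero_dvd this)
  have hmul := Subgroup.relIndex_mul_relIndex P' K₀ X' hPK hKX
  have hn2 : P'.relIndex K₀ ≠ 0 := fun h => hn1 (by rw [← hmul, h, zero_mul])
  have hn3 : K₀.relIndex X' ≠ 0 := fun h => hn1 (by rw [← hmul, h, mul_zero])
  have hKU : K₀.relIndex X' = P.relIndex (X'.map ε ⊔ P) := by
    rw [Subgroup.relIndex_sup_right, ← Subgroup.relIndex_comap, hK₀, Subgroup.inf_relIndex_left]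
  -- commutation with `dg g`
  have hdgν : ∀ i ∈ l, ∀ x, (dg g : A →* A) (νA i x) = νA i (dg g x) := by
    intro i hi x
    rw [dg_apply, dg_apply, map_div, gA i hi]
  have hdv_dg : ∀ x, dv (dg g x) = dg g (dv x) := by
    intro x
    rw [dg_apply, dg_apply, map_div, dvg]
  have hBZ : B₁ ≤ Z₁ := by
    rintro _ ⟨u, hu, rfl⟩
    have hu1 : dv u = 1 := hu.1
    have hu2 := mem_part.1 hu.2
    refine ⟨⟨?_, ?_⟩, ?_⟩
    · change dv (dg g u) = 1
      rw [hdv_dg, hu1, map_one]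
    · refine mem_part.2 fun i hi => ?_
      rw [← hdgν i hi, hu2 i hi, map_one]
    · exact ng_dg g q gq u
  -- the correspondence
  let Λ : Subgroup (A × I') :=
    { carrier := {z | z.1 ∈ Z₁ ∧ z.2 ∈ K₀ ∧ ∃ y ∈ part l νA, z.1 ^ w = dg g y ∧ dv y = ε z.2}
      mul_mem' := by
        rintro ⟨a, b⟩ ⟨c, d⟩ ⟨h1, h2, y, hy, h3, h4⟩ ⟨h1', h2', y', hy', h3', h4'⟩
        refine ⟨mul_mem h1 h1', mul_mem h2 h2', y * y', mul_mem hy hy', ?_, ?_⟩
        · change (a * c) ^ w = _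
          rw [mul_pow, map_mul]
          exact congrArg₂ (· * ·) h3 h3'
        · change _ = ε (b * d)
          rw [map_mul, map_mul]
          exact congrArg₂ (· * ·) h4 h4'
      one_mem' := ⟨one_mem _, one_mem _, 1, one_mem _, by simp, by simp⟩
      inv_mem' := by
        rintro ⟨a, b⟩ ⟨h1, h2, y, hy, h3, h4⟩
        refine ⟨inv_mem h1, inv_mem h2, y⁻¹, inv_mem hy, ?_, ?_⟩
        · change (a⁻¹) ^ w = _
          rw [inv_pow, map_inv]
          exact congrArg _ h3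
        · change _ = ε (b⁻¹)
          rw [map_inv, map_inv]
          exact congrArg _ h4 }
  have hΛ : ∀ a b, (a, b) ∈ Λ ↔ a ∈ Z₁ ∧ b ∈ K₀ ∧
      ∃ y ∈ part l νA, a ^ w = dg g y ∧ dv y = ε b := fun a b => Iff.rfl
  have hΛ1 : Λ.map (MonoidHom.fst A I') = Z₁ := by
    apply le_antisymm
    · rintro _ ⟨⟨a, b⟩, h, rfl⟩
      exact h.1
    · intro u hu
      obtain ⟨⟨hu1, hu2⟩, hu3⟩ := hu
      obtain ⟨y₀, hy₀⟩ := h90 u hu3
      have hy₀' : u = dg g y₀ := hy₀
      have huw : u ^ w = dg g (pr l k νA y₀) := by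
        rw [hw, ← pr_part l k νA hu2, comm_pr l k νA (dg g) hdgν, ← hy₀']
      have hy := pr_mem l k νA qA y₀
      have hfix : g • dv (pr l k νA y₀) = dv (pr l k νA y₀) := by
        rw [← mem_dg_ker, MonoidHom.mem_ker, ← hdv_dg, ← huw, map_pow]
        have : dv u = 1 := hu1
        rw [this, one_pow]
      have hpart : dv (pr l k νA y₀) ∈ part l νI := by
        refine mem_part.2 fun i hi => ?_
        rw [← dvν i hi, mem_part.1 hy i hi, map_one]
      obtain ⟨c, hc⟩ := inv _ hpart hfix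
      have hνc : ∀ i ∈ l, νI' i c = 1 := by
        intro i hi
        apply εinj
        rw [εν i hi, hc, mem_part.1 hpart i hi, map_one]
      refine ⟨(u, c), ⟨⟨⟨hu1, hu2⟩, hu3⟩, ⟨?_, ?_⟩, pr l k νA y₀, hy, huw, hc.symm⟩, rfl⟩
      · refine mem_partM.2 fun i hi => ?_
        rw [hνc i hi]
        exact one_mem _
      · exact ⟨_, hc.symm⟩
  have hΛ2 : Λ.map (MonoidHom.snd A I') ≤ K₀ := by
    rintro _ ⟨⟨a, b⟩, h, rfl⟩
    exact h.2.1
  set Λ₀ := P'.comap (MonoidHom.snd A I') ⊓ Λ with hΛ₀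
  have hr : Λ₀.relIndex Λ = P'.relIndex (Λ.map (MonoidHom.snd A I')) := by
    rw [hΛ₀, Subgroup.inf_relIndex_right, Subgroup.relIndex_comap]
  set Z₀ := Λ₀.map (MonoidHom.fst A I') with hZ₀
  have hZ₀1 : Z₀ ≤ Z₁ := by
    rw [← hΛ1]
    exact Subgroup.map_mono inf_le_right
  have hd1 : Z₀.relIndex Z₁ ∣ P'.relIndex K₀ := by
    have h1 : Z₀.relIndex Z₁ ∣ Λ₀.relIndex Λ := by
      rw [← hΛ1]
      exact map_dvd _ _ _
    rw [hr] at h1
    exact h1.trans (rel_dvd_right hPK hΛ2)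
  have hkill : ∀ u ∈ Z₀, u ^ (w * w) ∈ B₁ := by
    rintro _ ⟨⟨u, c⟩, ⟨h1, h2⟩, rfl⟩
    obtain ⟨⟨⟨hu1, hu2⟩, hu3⟩, -, y, hy, huy, hyc⟩ := h2
    obtain ⟨a, ha⟩ := h1
    have ha' : dv' a = c := ha
    change u ^ (w * w) ∈ B₁
    have hv1 : dv (y / ι a) = 1 := by
      rw [map_div, ← sq, ha', div_eq_one]
      exact hyc
    have hv2 : (dg g : A →* A) (y / ι a) = u ^ w := by
      have h3 : (dg g : A →* A) (ι a) = 1 := by
        rw [dg_apply, gι, div_self']
      rw [map_div, h3, div_one]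
      exact huy.symm
    refine ⟨pr l k νA (y / ι a), ⟨?_, pr_mem l k νA qA _⟩, ?_⟩
    · change dv (pr l k νA (y / ι a)) = 1
      rw [pr_map l k νA νI dv dvν, hv1, map_one]
    · rw [comm_pr l k νA (dg g) hdgν, hv2, pr_part l k νA (pow_mem hu2 w), ← hw, ← pow_mul]
  set S := Z₀ ⊔ B₁ with hS
  have hS0 : padicValNat p (B₁.relIndex S) = 0 := by
    refine padic_zero p (n := w * w) (Nat.Coprime.mul_left hwp hwp) fun x hx => ?_
    rw [hS, Subgroup.mem_sup] at hx
    obtain ⟨a, ha, b, hb, rfl⟩ := hx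
    rw [mul_pow]
    exact mul_mem (hkill a ha) (pow_mem hb _)
  have hSZ := Subgroup.relIndex_mul_relIndex B₁ S Z₁ le_sup_right (sup_le hZ₀1 hBZ)
  have hS1 : B₁.relIndex S ≠ 0 := fun h => h0 (by rw [← hSZ, h, zero_mul])
  have hS2 : S.relIndex Z₁ ≠ 0 := fun h => h0 (by rw [← hSZ, h, mul_zero])
  have hclaim : padicValNat p (B₁.relIndex Z₁) ≤ padicValNat p (P'.relIndex K₀) := by
    rw [← hSZ, padicValNat.mul hS1 hS2, hS0, zero_add]
    refine padic_mono p hn2 (dvd_trans ?_ hd1)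
    exact Subgroup.relIndex_dvd_of_le_left Z₁ le_sup_left
  rw [← hKU, ← hmul, padicValNat.mul hn2 hn3]
  exact Nat.add_le_add_right hclaim _

end Pool.Agent.RID
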