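import Pool.Agent.RID.St

/-!
# Decomposition fields and the growth of class groups: the subgroup generated by fixed elements
-/

open Finset

namespace Pool.Agent.RID

namespace GENA

/-- If `ν i b = b ^ k i` for some `i ∈ l` then `pr b = 1`. -/
lemma pr_eq_one {κ X : Type} [CommGroup X] (l : List κ) (k : κ → ℕ) (ν : κ → X →* X)
    (h : ∀ i ∈ l, ∀ j ∈ l, ∀ x, ν i (ν j x) = ν j (ν i x)) {b : X} {i : κ} (hi : i ∈ l)
    (hb : ν i b = b ^ k i) : pr l k ν b = 1 := by
  induction l with
  | nil => simp at hi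
  | cons j l ih =>
    have ih' := ih fun a ha c hc => h a (by simp [ha]) c (by simp [hc])
    rw [pr_cons]
    rcases List.mem_cons.1 hi with rfl | hi
    · rw [comm_pr l k ν (ν i) (fun a ha x => h i (by simp) a (by simp [ha]) x) b, hb, map_pow,
        div_self']
    · rw [ih' hi, one_pow, map_one, div_one]

/-- A finite index of exponent prime to `p` is prime to `p`. -/
lemma val_zero (p : ℕ) [Fact p.Prime] {I : Type} [CommGroup I] (H K : Subgroup I) (w : ℕ)
    (hw : w.Coprime p) (h0 : H.relIndex K ≠ 0) (h : ∀ x ∈ K, x ^ w ∈ H) :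
    padicValNat p (H.relIndex K) = 0 := by
  rw [padicValNat.eq_zero_iff]
  right
  right
  intro hd
  have e : H.relIndex K = Nat.card (K ⧸ H.subgroupOf K) := rfl
  rw [e] at hd h0
  have hf : Finite (K ⧸ H.subgroupOf K) := Nat.finite_of_card_ne_zero h0
  obtain ⟨x, hx⟩ := exists_prime_orderOf_dvd_card' p hd
  obtain ⟨y, rfl⟩ := QuotientGroup.mk_surjective x
  have h1 : (QuotientGroup.mk y : K ⧸ H.subgroupOf K) ^ w = 1 := by
    rw [← QuotientGroup.mk_pow, QuotientGroup.eq_one_iff, Subgroup.mem_subgroupOf]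
    have h2 := h y y.2
    simpa using h2
  have h2 := orderOf_dvd_of_pow_eq_one h1
  rw [hx] at h2
  have h3 : p ∣ 1 := by
    have h4 := Nat.dvd_gcd h2 (dvd_refl p)
    rwa [Nat.Coprime.gcd_eq_one hw] at h4
  exact (Fact.out : p.Prime).one_lt.ne' (Nat.dvd_one.1 h3)

end GENA

theorem t_GENA : S_GENA := by
  intro p _ I κ _ l k ν P B S hcop hQ hP hfin hνB hB hS
  have hw := wt_coprime l k hcop
  have hP0 : P.index ≠ 0 := by
    have : P.FiniteIndex := Subgroup.finiteIndex_of_finite_quotient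
    exact this.index_ne_zero
  have hPB : P ≤ B := hB ▸ le_sup_left
  have hPX : P ≤ partM l ν P := fun x hx i hi => hP i hi x hx
  set f := pr l k ν with hf
  have hBK : B ≤ P.comap f := by
    rw [hB, sup_le_iff, Subgroup.closure_le]
    refine ⟨fun x hx => pr_mem_stable l k ν P hP hx, fun b hb => ?_⟩
    obtain ⟨i, hi, hb'⟩ := hS b hb
    have h1 : f b = 1 := GENA.pr_eq_one l k ν hQ.2 hi hb'
    show f b ∈ P
    rw [h1]
    exact one_mem _
  have hK0 : (P.comap f).index ≠ 0 := by
    have h1 := Subgroup.relIndex_mul_index (hPB.trans hBK)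
    intro h2
    rw [h2, mul_zero] at h1
    exact hP0 h1.symm
  have hBK0 : B.relIndex (P.comap f) ≠ 0 := by
    have h1 := Subgroup.relIndex_mul_index hPB
    have h2 := Subgroup.relIndex_mul_index hBK
    intro h3
    rw [h3, zero_mul] at h2
    rw [← h2, mul_zero] at h1
    exact hP0 h1.symm
  have v1 : padicValNat p (B.relIndex (P.comap f)) = 0 := by
    refine GENA.val_zero p B _ (wt l k) hw hBK0 fun x hx => ?_
    have h1 : pr l k ν x / x ^ wt l k ∈ B :=
      pr_partM l k ν B (fun i hi x _ => hνB i hi x) (fun i hi => hνB i hi x)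
    have h2 : pr l k ν x ∈ B := hPB hx
    have h3 := div_mem h2 h1
    rwa [div_div_cancel] at h3
  have hfX : f.range ≤ partM l ν P := by
    rintro _ ⟨x, rfl⟩ i hi
    have h1 := mem_part.1 (pr_mem l k ν hQ x) i hi
    show ν i (pr l k ν x) ∈ P
    rw [h1]
    exact one_mem _
  have hsup : f.range ⊔ P ≤ partM l ν P := sup_le hfX hPX
  have e1 := Subgroup.relIndex_mul_relIndex P (f.range ⊔ P) (partM l ν P) le_sup_right hsup
  have e2 : P.relIndex (f.range ⊔ P) = P.relIndex f.range := by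
    rw [Subgroup.relIndex_sup_right]
  have hPX0 : P.relIndex (partM l ν P) ≠ 0 := by
    have h1 := Subgroup.relIndex_mul_index hPX
    intro h2
    rw [h2, zero_mul] at h1
    exact hP0 h1.symm
  have h3 : P.relIndex (f.range ⊔ P) ≠ 0 := left_ne_zero_of_mul (e1 ▸ hPX0)
  have h4 : (f.range ⊔ P).relIndex (partM l ν P) ≠ 0 := right_ne_zero_of_mul (e1 ▸ hPX0)
  have v2 : padicValNat p ((f.range ⊔ P).relIndex (partM l ν P)) = 0 := by
    refine GENA.val_zero p _ _ (wt l k) hw h4 fun x hx => ?_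
    have h5 : pr l k ν x / x ^ wt l k ∈ P := pr_partM l k ν P hP hx
    have h6 : pr l k ν x ∈ f.range ⊔ P := (le_sup_left : f.range ≤ _) ⟨x, rfl⟩
    have h7 := div_mem h6 ((le_sup_right : P ≤ f.range ⊔ P) h5)
    rwa [div_div_cancel] at h7
  rw [← Subgroup.relIndex_mul_index hBK, padicValNat.mul hBK0 hK0, v1, zero_add,
    Subgroup.index_comap, ← e2, ← e1, padicValNat.mul h3 h4, v2, add_zero]

end Pool.Agent.RID
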