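import Pool.Agent.RID.St
import Pool.Agent.RI.CL
import Pool.Agent.RI.BCH

/-!
# Decomposition fields and the growth of class groups, module GENC
-/

open NumberField Finset IsDedekindDomain
open scoped nonZeroDivisors Pointwise

namespace Pool.Agent.RID

open Pool.Agent.RI

namespace GENC

/-! ### Norms for subgroups -/

section Norms

set_option linter.unusedSectionVars false

variable {F E L : Type} [Field F] [NumberField F] [Field E] [NumberField E] [Field L]
  [NumberField L] [Algebra F E] [Algebra F L] [Algebra E L] [IsScalarTower F E L]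

lemma restrict_smul (τ : L ≃ₐ[E] L) (b : J L) : (τ.restrictScalars F) • b = τ • b := by
  apply Units.ext
  ext x
  rw [RI.mem_smul, RI.mem_smul]
  rfl

/-- The automorphisms over `E` are the elements of the subgroup `N`. -/
noncomputable def eqv (N : Subgroup (L ≃ₐ[F] L))
    (hN : ∀ σ : L ≃ₐ[F] L, σ ∈ N ↔ ∀ x : E, σ (algebraMap E L x) = algebraMap E L x) :
    (L ≃ₐ[E] L) ≃ N where
  toFun τ := ⟨τ.restrictScalars F, (hN _).2 fun x => τ.commutes x⟩
  invFun σ := { (σ : L ≃ₐ[F] L) with commutes' := (hN _).1 σ.2 }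
  left_inv τ := by ext x; rfl
  right_inv σ := by ext x; rfl

lemma nuS_eq (N : Subgroup (L ≃ₐ[F] L))
    (hN : ∀ σ : L ≃ₐ[F] L, σ ∈ N ↔ ∀ x : E, σ (algebraMap E L x) = algebraMap E L x) (b : J L) :
    nuS N b = CL.nm E L b := by
  classical
  let _ := Fintype.ofFinite N
  rw [nuS_apply, CL.nm_apply]
  refine (Fintype.prod_equiv (eqv N hN) _ _ fun τ => ?_).symm
  exact (restrict_smul τ b).symm

lemma card_eq [IsGalois E L] (N : Subgroup (L ≃ₐ[F] L))
    (hN : ∀ σ : L ≃ₐ[F] L, σ ∈ N ↔ ∀ x : E, σ (algebraMap E L x) = algebraMap E L x) :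
    Nat.card N = Module.finrank E L := by
  rw [← Nat.card_congr (eqv N hN), IsGalois.card_aut_eq_finrank]

end Norms

/-! ### Ideals -/

lemma ext_mk0 {E L : Type} [Field E] [NumberField E] [Field L] [NumberField L] [Algebra E L]
    (I : (Ideal (𝓞 E))⁰) (I' : (Ideal (𝓞 L))⁰)
    (h : (I' : Ideal (𝓞 L)) = (I : Ideal (𝓞 E)).map (algebraMap (𝓞 E) (𝓞 L))) :
    ext E L (FractionalIdeal.mk0 E I) = FractionalIdeal.mk0 L I' := by
  apply Units.ext
  show FractionalIdeal.extendedHom L (𝓞 L) (I : FractionalIdeal (𝓞 E)⁰ E) = _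
  rw [FractionalIdeal.extendedHom_coeIdeal_eq_map, ← h, FractionalIdeal.coe_mk0]

/-- Every fractional ideal is the quotient of an integral one by a principal one. -/
lemma exists_mk0 {E : Type} [Field E] [NumberField E] (c : J E) :
    ∃ (a : Eˣ) (I : (Ideal (𝓞 E))⁰), c = prin a * FractionalIdeal.mk0 E I := by
  obtain ⟨a, I, ha, hc⟩ := FractionalIdeal.exists_eq_spanSingleton_mul
    (c : FractionalIdeal (𝓞 E)⁰ E)
  have ha' : (algebraMap (𝓞 E) E a) ≠ 0 := by simpa using ha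
  have hI : I ≠ 0 := by
    rintro rfl
    apply c.ne_zero
    rw [hc]; simp
  refine ⟨(Units.mk0 _ ha')⁻¹, ⟨I, mem_nonZeroDivisors_of_ne_zero hI⟩, ?_⟩
  rw [map_inv]
  rw [← map_inv]
  apply Units.ext
  rw [hc, Units.val_mul, coe_toPrincipalIdeal]
  simp

/-- The ideals `I 𝓞_L`, `I` an ideal of a field in `S`, as fractional ideals. -/
noncomputable def gens (L : IntermediateField ℚ ℂ) [FiniteDimensional ℚ L]
    (S : Set (IntermediateField ℚ ℂ)) : Set (J L) :=
  {b | ∃ E ∈ S, ∃ (h : E ≤ L) (I : Ideal (𝓞 E)) (I' : (Ideal (𝓞 L))⁰),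
    (I' : Ideal (𝓞 L)) =
      I.map (RingOfIntegers.mapRingHom (IntermediateField.inclusion h : E →+* L)) ∧
    b = FractionalIdeal.mk0 L I'}

lemma index_aux {C I : Type} [CommGroup C] [CommGroup I] (P : Subgroup I) (e : C ≃* I ⧸ P)
    (S : Set C) (T : Set I)
    (h : (e : C → I ⧸ P) '' S = (QuotientGroup.mk' P : I → I ⧸ P) '' T) :
    (Subgroup.closure S).index = (P ⊔ Subgroup.closure T).index := by
  have h1 : (Subgroup.closure S).map (e : C →* I ⧸ P) =
      (Subgroup.closure T).map (QuotientGroup.mk' P) := by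
    rw [MonoidHom.map_closure, MonoidHom.map_closure]
    congr 1
  rw [← Subgroup.index_map_equiv _ e, h1,
    ← Subgroup.index_comap_of_surjective _ (QuotientGroup.mk'_surjective P),
    Subgroup.comap_map_eq, QuotientGroup.ker_mk', sup_comm]

lemma index_fromSub (L : IntermediateField ℚ ℂ) [FiniteDimensional ℚ L]
    (S : Set (IntermediateField ℚ ℂ)) :
    (fromSub L S).index =
      ((prin : (↥L)ˣ →* J L).range ⊔ Subgroup.closure (gens L S)).index := by
  unfold fromSub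
  refine index_aux (C := ClassGroup (𝓞 L)) (I := J L) (prin : (↥L)ˣ →* J L).range
    (ClassGroup.equiv (R := 𝓞 L) L) _ _ ?_
  ext y
  constructor
  · rintro ⟨c, ⟨E, hE, h, I, I', h1, rfl⟩, rfl⟩
    exact ⟨FractionalIdeal.mk0 L I', ⟨E, hE, h, I, I', h1, rfl⟩,
      (ClassGroup.equiv_mk0 (R := 𝓞 L) L I').symm⟩
  · rintro ⟨c, ⟨E, hE, h, I, I', h1, rfl⟩, rfl⟩
    exact ⟨ClassGroup.mk0 I', ⟨E, hE, h, I, I', h1, rfl⟩,
      ClassGroup.equiv_mk0 (R := 𝓞 L) L I'⟩

lemma fd_of_le {E F : IntermediateField ℚ ℂ} (h : E ≤ F) [FiniteDimensional ℚ F] :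
    FiniteDimensional ℚ E :=
  FiniteDimensional.of_injective (IntermediateField.inclusion h).toLinearMap
    (IntermediateField.inclusion h).injective

lemma map_ringHom {E L : IntermediateField ℚ ℂ} (h : E ≤ L) :
    letI := algC h
    algebraMap (𝓞 E) (𝓞 L) =
      RingOfIntegers.mapRingHom (IntermediateField.inclusion h : E →+* L) := by
  let _ := algC h
  ext x
  rfl

/-- Extended ideals are in the subgroup generated by `gens` and the principal ideals. -/
lemma ext_mem (L : IntermediateField ℚ ℂ) [FiniteDimensional ℚ L]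
    (S : Set (IntermediateField ℚ ℂ)) {E : IntermediateField ℚ ℂ} [FiniteDimensional ℚ E]
    (hE : E ∈ S) (h : E ≤ L) (c : J E) :
    letI := algC h
    ext E L c ∈ (prin : (↥L)ˣ →* J L).range ⊔ Subgroup.closure (gens L S) := by
  let _ := algC h
  obtain ⟨a, I, rfl⟩ := exists_mk0 c
  rw [map_mul]
  refine mul_mem ?_ ?_
  · rw [ext_prin]
    exact Subgroup.mem_sup_left ⟨_, rfl⟩
  · have hne : (I : Ideal (𝓞 E)).map (algebraMap (𝓞 E) (𝓞 L)) ≠ 0 := by
      rw [Ne, Ideal.zero_eq_bot, Ideal.map_eq_bot_iff_of_injective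
        (FaithfulSMul.algebraMap_injective (𝓞 E) (𝓞 L))]
      exact nonZeroDivisors.coe_ne_zero I
    rw [ext_mk0 I ⟨_, mem_nonZeroDivisors_of_ne_zero hne⟩ rfl]
    apply Subgroup.mem_sup_right
    apply Subgroup.subset_closure
    exact ⟨E, hE, h, I, ⟨_, mem_nonZeroDivisors_of_ne_zero hne⟩, by rw [← map_ringHom h], rfl⟩

/-- The generators are extended ideals. -/
lemma gens_eq (L : IntermediateField ℚ ℂ) [FiniteDimensional ℚ L]
    (S : Set (IntermediateField ℚ ℂ)) (b : J L) (hb : b ∈ gens L S) :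
    ∃ E ∈ S, ∃ h : E ≤ L, ∀ _ : FiniteDimensional ℚ E,
    letI := algC h
    ∃ c : J E, b = ext E L c := by
  obtain ⟨E, hE, h, I, I', h1, rfl⟩ := hb
  refine ⟨E, hE, h, fun _ => ?_⟩
  let _ := algC h
  have hI : I ≠ 0 := by
    rintro rfl
    apply nonZeroDivisors.coe_ne_zero I'
    rw [h1]
    simp
  refine ⟨FractionalIdeal.mk0 E ⟨I, mem_nonZeroDivisors_of_ne_zero hI⟩, ?_⟩
  rw [ext_mk0 _ I']
  rw [h1, ← map_ringHom h]

/-- The norms for the groups `NC h D`. -/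
lemma nuS_NC (L : IntermediateField ℚ ℂ) [FiniteDimensional ℚ L] {F D : IntermediateField ℚ ℂ}
    [FiniteDimensional ℚ F] (h : F ≤ L) (hFD : F ≤ D) (hD : D ≤ L) (hg : IsGalois F (IntermediateField.extendScalars h)) :
    haveI := fd_of_le hD
    letI := algC h
    letI := algC hD
    (∀ b : J L, ∃ c : J D, nuS (NC h D) b = ext D L c) ∧
      ∀ c : J D, nuS (NC h D) (ext D L c) = ext D L c ^ Nat.card (NC h D) := by
  have _ := fd_of_le hD
  let _ := algC h
  let _ := algC hD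
  let _ := algC hFD
  have : IsScalarTower F D L := towerC hFD hD
  have g1 : IsGalois F L := (isGalois_algC h).2 hg
  have g2 : IsGalois D L := IsGalois.tower_top_of_isGalois F D L
  have hN : ∀ σ : L ≃ₐ[F] L, σ ∈ NC h D ↔
      ∀ x : D, σ (algebraMap D L x) = algebraMap D L x := by
    intro σ
    constructor
    · intro hσ x
      exact hσ (algebraMap D L x) x.2
    · intro hσ x hx
      exact hσ ⟨x, hx⟩
  constructor
  · intro b
    obtain ⟨c, hc⟩ := CL.nm_mem (F := D) b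
    exact ⟨c, by rw [nuS_eq (E := D) (NC h D) hN, hc]⟩
  · intro c
    rw [nuS_eq (E := D) (NC h D) hN, CL.nm_ext, card_eq (E := D) (NC h D) hN]

end GENC

open GENC in
theorem t_GENC (hGENA : S_GENA) (hSCN : S_SCN) (hNUS : S_NUS) : S_GENC := by
  intro p _ F K M fF fK fM l hCD h
  let _ := algC h
  have hL : FiniteDimensional ℚ ↥(K ⊔ M) := inferInstance
  have hg : IsGalois F (IntermediateField.extendScalars h) :=
    BCH_thm.2 F K M hCD.hK hCD.hM h hCD.gK hCD.gM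
  obtain ⟨-, -, -, -, hN5, hN6⟩ := hNUS
  have hsc := fun E hE => hSCN p F K M l hCD h E hE
  have hnrm : ∀ E ∈ l, (NC h (E ⊔ M)).Normal := fun E hE => (hsc E hE).1
  obtain ⟨-, hQ, -, -⟩ := hN6 F ↥(K ⊔ M) (IntermediateField ℚ ℂ) l (fun E => NC h (E ⊔ M)) hnrm
  have hle : ∀ E ∈ l, E ⊔ M ≤ K ⊔ M := by
    intro E hE
    obtain ⟨_, h2, _⟩ := hCD.mem E hE
    exact sup_le_sup_right h2 M
  have key := hGENA p (J ↥(K ⊔ M)) (IntermediateField ℚ ℂ) l
    (fun E => Nat.card (NC h (E ⊔ M))) (fun E => nuS (NC h (E ⊔ M)))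
    (prin : (↥(K ⊔ M))ˣ →* J ↥(K ⊔ M)).range
    ((prin : (↥(K ⊔ M))ˣ →* J ↥(K ⊔ M)).range ⊔
      Subgroup.closure (gens (K ⊔ M) {D | ∃ E ∈ {E | E ∈ l}, D = E ⊔ M}))
    (gens (K ⊔ M) {D | ∃ E ∈ {E | E ∈ l}, D = E ⊔ M})
    (fun E hE => (hsc E hE).2.1) hQ ?_ inferInstance ?_ rfl ?_
  · unfold eOf
    rw [index_fromSub, key]
    rfl
  · rintro E hE _ ⟨x, rfl⟩
    exact ⟨nuS (NC h (E ⊔ M)) x, hN5 F ↥(K ⊔ M) _ x⟩
  · intro E hE x
    have hFD : F ≤ E ⊔ M := hCD.hM.trans le_sup_right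
    obtain ⟨c, hc⟩ := (nuS_NC (K ⊔ M) h hFD (hle E hE) hg).1 x
    rw [hc]
    have _ := fd_of_le (hle E hE)
    exact ext_mem (K ⊔ M) {D | ∃ E ∈ {E | E ∈ l}, D = E ⊔ M}
      (show E ⊔ M ∈ {D | ∃ E ∈ {E | E ∈ l}, D = E ⊔ M} from ⟨E, hE, rfl⟩) (hle E hE) c
  · intro b hb
    obtain ⟨D, ⟨E, hE, rfl⟩, h1, h2⟩ := gens_eq _ _ _ hb
    have hFD : F ≤ E ⊔ M := hCD.hM.trans le_sup_right
    obtain ⟨c, hc⟩ := h2 (fd_of_le (hle E hE))
    exact ⟨E, hE, by rw [hc]; exact (nuS_NC (K ⊔ M) h hFD (hle E hE) hg).2 c⟩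

end Pool.Agent.RID
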