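import Pool.Agent.RID.St

/-!
# Module NUS: basic facts on the norms
-/

open NumberField Finset IsDedekindDomain
open scoped nonZeroDivisors Pointwise

namespace Pool.Agent.RID

open Pool.Agent.RI

namespace NUS

section
variable {G X : Type} [Group G] [Finite G] [CommGroup X] [MulDistribMulAction G X]

lemma smul_left (N : Subgroup G) (x : X) (τ : G) (hτ : τ ∈ N) : τ • nuS N x = nuS N x := by
  classical
  letI := Fintype.ofFinite N
  rw [nuS_apply, Finset.smul_prod']
  refine Fintype.prod_equiv (Equiv.mulLeft (⟨τ, hτ⟩ : N)) _ _ fun σ => ?_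
  rw [smul_smul]
  rfl

lemma smul_right (N : Subgroup G) (x : X) (τ : G) (hτ : τ ∈ N) : nuS N (τ • x) = nuS N x := by
  classical
  letI := Fintype.ofFinite N
  rw [nuS_apply, nuS_apply]
  refine Fintype.prod_equiv (Equiv.mulRight (⟨τ, hτ⟩ : N)) _ _ fun σ => ?_
  rw [smul_smul]
  rfl

lemma sq (N : Subgroup G) (x : X) : nuS N (nuS N x) = nuS N x ^ Nat.card N := by
  classical
  letI := Fintype.ofFinite N
  rw [nuS_apply N (nuS N x)]
  rw [Finset.prod_congr rfl fun (σ : N) _ => smul_left N x σ σ.2]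
  rw [Finset.prod_const, Finset.card_univ, Nat.card_eq_fintype_card]

lemma equiv (N : Subgroup G) (x : X) (τ : G) (hN : N.Normal) : τ • nuS N x = nuS N (τ • x) := by
  classical
  letI := Fintype.ofFinite N
  rw [nuS_apply, nuS_apply, Finset.smul_prod']
  refine Fintype.prod_equiv (MulAut.conjNormal (H := N) τ).toEquiv _ _ fun σ => ?_
  rw [smul_smul, smul_smul]
  congr 1
  simp [MulAut.conjNormal_apply]

lemma comm (N N' : Subgroup G) (x : X) (hN : N.Normal) :
    nuS N (nuS N' x) = nuS N' (nuS N x) := by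
  classical
  letI := Fintype.ofFinite N'
  rw [nuS_apply N' x, nuS_apply N' (nuS N x), map_prod]
  exact Finset.prod_congr rfl fun σ _ => (equiv N x (σ : G) hN).symm

end

end NUS

theorem t_NUS : S_NUS := by
  refine ⟨?_, ?_, ?_, ?_, ?_, ?_⟩
  · intro G X _ _ _ _ N x
    exact NUS.sq N x
  · intro G X _ _ _ _ N x τ hτ
    exact ⟨NUS.smul_left N x τ hτ, NUS.smul_right N x τ hτ⟩
  · intro G X _ _ _ _ N x τ hN
    exact NUS.equiv N x τ hN
  · intro G X _ _ _ _ N N' x hN
    exact NUS.comm N N' x hN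
  · intro F L _ _ _ _ _ N x
    classical
    letI := Fintype.ofFinite N
    rw [nuS_apply, nuS_apply, map_prod]
    exact Finset.prod_congr rfl fun σ _ => (smul_prin _ _).symm
  · intro F L κ _ _ _ _ _ l N hN
    have hpr : ∀ (M : Subgroup (L ≃ₐ[F] L)) (x : Lˣ), prin (nuS M x) = nuS M (prin x) := by
      intro M x
      classical
      letI := Fintype.ofFinite M
      rw [nuS_apply, nuS_apply, map_prod]
      exact Finset.prod_congr rfl fun σ _ => (smul_prin _ _).symm
    refine ⟨⟨fun i _ x => NUS.sq _ x, fun i hi j _ x => NUS.comm _ _ x (hN i hi)⟩,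
      ⟨fun i _ x => NUS.sq _ x, fun i hi j _ x => NUS.comm _ _ x (hN i hi)⟩, ?_, ?_⟩
    · rintro _ ⟨x, rfl⟩
      intro i _
      exact ⟨nuS (N i) x, hpr (N i) x⟩
    · intro σ x hx i hi
      obtain ⟨y, hy⟩ := hx i hi
      refine ⟨σ • y, ?_⟩
      change prin (σ • y) = nuS (N i) (σ • x)
      rw [← NUS.equiv _ _ _ (hN i hi)]
      have : σ • prin y = prin (σ • y) := smul_prin _ _
      rw [← this, hy]

end Pool.Agent.RID
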