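import Pool.Agent.RID.St
import Pool.Agent.RI.BCH
import Pool.Agent.RI.TSTEP
import Pool.Agent.RI.CHIEF

/-!
# Decomposition fields: the groups `Gal(K M / E M)`
-/

open NumberField
open scoped nonZeroDivisors Pointwise

namespace Pool.Agent.RID

open Pool.Agent.RI Pool.Agent.RI.TSTEP

namespace SCN

/-- Automorphisms preserve Galois subfields. -/
theorem stable {F D L : IntermediateField ℚ ℂ} (h : F ≤ L) (hD : F ≤ D) (hDL : D ≤ L)
    (hg : IsGalois F (IntermediateField.extendScalars hD)) :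
    letI := algC h
    ∀ (τ : L ≃ₐ[F] L) (x : L), (x : ℂ) ∈ D → ((τ x : L) : ℂ) ∈ D := by
  letI a1 := algC h
  letI a2 := algC hD
  letI a3 := algC hDL
  have t1 : IsScalarTower F D L := towerC hD hDL
  have : IsGalois F D := (isGalois_algC hD).2 hg
  intro τ x hx
  have h1 := AlgEquiv.restrictNormal_commutes τ D ⟨(x : ℂ), hx⟩
  have h2 : algebraMap D L ⟨(x : ℂ), hx⟩ = x := rfl
  rw [h2] at h1
  rw [← h1]
  exact (τ.restrictNormal D ⟨(x : ℂ), hx⟩).2

/-- An automorphism of `K M` that fixes `K` and `M` is trivial. -/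
theorem eq_one {F K M : IntermediateField ℚ ℂ} (h : F ≤ K ⊔ M) :
    letI := algC h
    ∀ (τ : ↥(K ⊔ M) ≃ₐ[F] ↥(K ⊔ M)), (∀ x : ↥(K ⊔ M), (x : ℂ) ∈ K → τ x = x) →
      (∀ x : ↥(K ⊔ M), (x : ℂ) ∈ M → τ x = x) → τ = 1 := by
  letI a1 := algC h
  intro τ h1 h2
  let T : IntermediateField ℚ ℂ :=
    { carrier := {z | ∃ hz : z ∈ K ⊔ M, τ (⟨z, hz⟩ : ↥(K ⊔ M)) = ⟨z, hz⟩}
      mul_mem' := by
        rintro a b ⟨ha, ha'⟩ ⟨hb, hb'⟩
        refine ⟨mul_mem ha hb, ?_⟩
        have e : (⟨a * b, mul_mem ha hb⟩ : ↥(K ⊔ M)) = ⟨a, ha⟩ * ⟨b, hb⟩ := rfl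
        rw [e, map_mul, ha', hb']
      add_mem' := by
        rintro a b ⟨ha, ha'⟩ ⟨hb, hb'⟩
        refine ⟨add_mem ha hb, ?_⟩
        have e : (⟨a + b, add_mem ha hb⟩ : ↥(K ⊔ M)) = ⟨a, ha⟩ + ⟨b, hb⟩ := rfl
        rw [e, map_add, ha', hb']
      algebraMap_mem' := by
        intro r
        refine ⟨algebraMap_mem _ r, ?_⟩
        exact h1 _ (algebraMap_mem K r)
      inv_mem' := by
        rintro a ⟨ha, ha'⟩
        refine ⟨inv_mem ha, ?_⟩
        have e : (⟨a⁻¹, inv_mem ha⟩ : ↥(K ⊔ M)) = (⟨a, ha⟩ : ↥(K ⊔ M))⁻¹ := rfl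
        rw [e, map_inv₀, ha'] }
  have hT : K ⊔ M ≤ T := by
    apply sup_le
    · intro a ha
      exact ⟨le_sup_left (a := K) ha, h1 _ ha⟩
    · intro b hb
      exact ⟨le_sup_right (a := K) hb, h2 _ hb⟩
  ext x
  obtain ⟨hx, hx'⟩ := hT x.2
  show ((τ x : ↥(K ⊔ M)) : ℂ) = x
  rw [show τ x = x from hx']

/-- The order of `NC`. -/
theorem card_NC {F D L : IntermediateField ℚ ℂ} [FiniteDimensional ℚ L] (h : F ≤ L)
    (hD : F ≤ D) (hDL : D ≤ L) (hg : IsGalois D (IntermediateField.extendScalars hDL)) :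
    letI := algC h
    Nat.card (NC h D) = Module.finrank D (IntermediateField.extendScalars hDL) := by
  letI a1 := algC h
  letI a2 := algC hD
  letI a3 := algC hDL
  have t1 : IsScalarTower F D L := towerC hD hDL
  have hg' : IsGalois D L := (isGalois_algC hDL).2 hg
  have fdD : FiniteDimensional ℚ D := fd_of_le hDL
  have fdL : FiniteDimensional D (IntermediateField.extendScalars hDL) := BCH.fin_ext hDL
  have fdL' : FiniteDimensional D L :=
    Module.Finite.equiv (extEquiv hDL).toLinearEquiv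
  let e : NC h D ≃ (L ≃ₐ[D] L) :=
    { toFun := fun σ => { (σ : L ≃ₐ[F] L) with
        commutes' := fun y => σ.2 (algebraMap D L y) y.2 }
      invFun := fun σ => ⟨σ.restrictScalars F, fun x hx => σ.commutes ⟨(x : ℂ), hx⟩⟩
      left_inv := fun σ => rfl
      right_inv := fun σ => rfl }
  rw [Nat.card_congr e, IsGalois.card_aut_eq_finrank D L]
  exact finrank_algC hDL

end SCN

theorem t_SCN : S_SCN := by
  intro p _ F K M fdK fdM l hCD h
  letI a1 := algC h
  intro E hE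
  obtain ⟨hBCH1, hBCH2⟩ := BCH_thm
  obtain ⟨hFE, hEK, gE⟩ := hCD.mem E hE
  have hK := hCD.hK
  have hM := hCD.hM
  have gK := hCD.gK
  have gM := hCD.gM
  have fdE : FiniteDimensional ℚ E := fd_of_le hEK
  have fdF : FiniteDimensional ℚ F := fd_of_le hK
  have hFD : F ≤ E ⊔ M := hFE.trans le_sup_left
  have hDL : E ⊔ M ≤ K ⊔ M := sup_le_sup_right hEK M
  have gD : IsGalois F (IntermediateField.extendScalars hFD) := hBCH2 F E M hFE hM hFD gE gM
  refine ⟨⟨?_⟩, ?_, ?_⟩
  · intro σ hσ τ x hx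
    have h1 : ((τ⁻¹ x : ↥(K ⊔ M)) : ℂ) ∈ E ⊔ M := SCN.stable h hFD hDL gD τ⁻¹ x hx
    rw [AlgEquiv.mul_apply, AlgEquiv.mul_apply, hσ _ h1, ← AlgEquiv.mul_apply, mul_inv_cancel,
      AlgEquiv.one_apply]
  · have gEK : IsGalois E (IntermediateField.extendScalars hEK) := by
      letI a2 := algC hFE
      letI a3 := algC hEK
      letI a4 := algC hK
      have t1 : IsScalarTower F E K := towerC hFE hEK
      have : IsGalois F K := (isGalois_algC hK).2 gK
      have : IsGalois E K := IsGalois.tower_top_of_isGalois F E K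
      exact (isGalois_algC hEK).1 this
    obtain ⟨g1, g2⟩ := hBCH1 E K M (E ⊔ M) (K ⊔ M) hEK hDL rfl rfl gEK
    rw [SCN.card_NC h hFD hDL g1]
    have h2 : Module.finrank F (IntermediateField.extendScalars hFE) *
        Module.finrank E (IntermediateField.extendScalars hEK) =
        Module.finrank F (IntermediateField.extendScalars hK) := CHIEF.finrank_mul hFE hEK
    have h3 : (Module.finrank F (IntermediateField.extendScalars hK)).Coprime p :=
      ((Nat.Prime.coprime_iff_not_dvd (Fact.out : p.Prime)).2 hCD.copK).symm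
    exact Nat.Coprime.coprime_dvd_left (g2.trans (Dvd.intro_left _ h2)) h3
  · intro g hg σ hσ
    have h1 : (g * σ)⁻¹ * (σ * g) = 1 := by
      apply SCN.eq_one h
      · intro x hx
        have h2 : ((σ x : ↥(K ⊔ M)) : ℂ) ∈ K := SCN.stable h hK le_sup_left gK σ x hx
        rw [AlgEquiv.mul_apply, AlgEquiv.mul_apply, hg x hx]
        have h3 : (g * σ) x = σ x := by rw [AlgEquiv.mul_apply, hg _ h2]
        rw [← h3, ← AlgEquiv.mul_apply, inv_mul_cancel, AlgEquiv.one_apply]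
      · intro x hx
        have h2 : ((g x : ↥(K ⊔ M)) : ℂ) ∈ M := SCN.stable h hM le_sup_right gM g x hx
        have h4 : σ (g x) = g x := hσ _ (le_sup_right (a := E) h2)
        have h5 : σ x = x := hσ _ (le_sup_right (a := E) hx)
        rw [AlgEquiv.mul_apply, AlgEquiv.mul_apply, h4]
        have h3 : (g * σ) x = g x := by rw [AlgEquiv.mul_apply, h5]
        rw [← h3, ← AlgEquiv.mul_apply, inv_mul_cancel, AlgEquiv.one_apply]
    exact (inv_mul_eq_one.mp h1).symm

end Pool.Agent.RID
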