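import Pool.Agent.RID.St2
import Pool.Agent.RI.CL
import Pool.Agent.RI.BCH

/-!
# Decomposition fields and the growth of class groups, module SGL

The exponent `eOf p K M {F}` is the difference of the exponents of `p` in the class numbers of
`K ⊔ M` and `M`.
-/

open NumberField Finset IsDedekindDomain
open scoped nonZeroDivisors Pointwise

namespace Pool.Agent.RID

open Pool.Agent.RI

namespace SGL

/-- Counting: if the kernel of `e : C → A` is killed by a number prime to `p`. -/
lemma count (p : ℕ) [hp : Fact p.Prime] (A C : Type) [CommGroup A] [CommGroup C] [Finite A]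
    [Finite C] (e : C →* A) (d : ℕ) (hd : d.Coprime p) (h : ∀ c, e c = 1 → c ^ d = 1) :
    padicValNat p e.range.index + padicValNat p (Nat.card C) = padicValNat p (Nat.card A) := by
  have c1 : ¬ p ∣ Nat.card e.ker := by
    rw [CL.not_dvd_card_iff]
    rintro ⟨b, hb⟩
    exact ⟨d, hd, Subtype.ext (h b hb)⟩
  have e2 : Nat.card C = Nat.card e.ker * Nat.card e.range := by
    rw [← Subgroup.index_ker, Subgroup.card_mul_index]
  have pos : ∀ (X : Type) [Finite X] [Nonempty X], Nat.card X ≠ 0 := fun X _ _ =>
    Nat.card_ne_zero.2 ⟨inferInstance, inferInstance⟩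
  rw [e2, padicValNat.mul (pos _) (pos _), padicValNat.eq_zero_of_not_dvd c1, zero_add,
    ← Subgroup.card_mul_index e.range, padicValNat.mul (pos _) Subgroup.index_ne_zero_of_finite,
    add_comm]

section number

variable (F K : Type) [Field F] [NumberField F] [Field K] [NumberField K] [Algebra F K]

/-- The extension of an integral ideal. -/
lemma ext_mk0 (I : (Ideal (𝓞 F))⁰) :
    ext F K (FractionalIdeal.mk0 F I) =
      FractionalIdeal.mk0 K (ClassGroup.extendedIdeal (𝓞 F) (𝓞 K) I) := by
  apply Units.ext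
  show FractionalIdeal.extendedHom K (𝓞 K) ((I : Ideal (𝓞 F)) : FractionalIdeal (𝓞 F)⁰ F) = _
  rw [FractionalIdeal.extendedHom_coeIdeal_eq_map, FractionalIdeal.coe_mk0]

/-- The classes that become principal in `K` are killed by `[K : F]`. -/
lemma ker_pow [IsGalois F K] (c : ClassGroup (𝓞 F))
    (h : ClassGroup.extendedHom (𝓞 F) (𝓞 K) c = 1) : c ^ Module.finrank F K = 1 := by
  obtain ⟨I, rfl⟩ := ClassGroup.mk0_surjective c
  rw [ClassGroup.extendedHom_mk0] at h
  have h1 := congrArg (ClassGroup.equiv K) h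
  rw [ClassGroup.equiv_mk0, map_one, QuotientGroup.mk'_apply, QuotientGroup.eq_one_iff] at h1
  obtain ⟨x, hx⟩ := h1
  apply (ClassGroup.equiv F).injective
  rw [map_pow, ClassGroup.equiv_mk0, map_one, ← map_pow, QuotientGroup.mk'_apply,
    QuotientGroup.eq_one_iff]
  refine ⟨Units.map (Algebra.norm F : K →* F) x, ?_⟩
  apply ext_injective F K
  have h2 : CL.nm F K (prin x) = ext F K (prin (Units.map (Algebra.norm F : K →* F) x)) :=
    CL.nm_prin x
  rw [← h2, hx, ← ext_mk0, CL.nm_ext, map_pow]

end number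

/-- The index of the subgroup of the classes that come from `M`. -/
theorem index (p : ℕ) [hp : Fact p.Prime] (M L : IntermediateField ℚ ℂ)
    [FiniteDimensional ℚ M] [FiniteDimensional ℚ L] (h : M ≤ L)
    (hg : IsGalois M (IntermediateField.extendScalars h))
    (hd : ¬ p ∣ Module.finrank M (IntermediateField.extendScalars h)) :
    padicValNat p (fromSub L {M}).index + padicValNat p (classNo M) =
      padicValNat p (classNo L) := by
  let _ := algC h
  have : IsGalois M L := (isGalois_algC h).2 hg
  have hd' : (Module.finrank M L).Coprime p := by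
    rw [Nat.coprime_comm, Nat.Prime.coprime_iff_not_dvd hp.1]
    rwa [← finrank_algC h] at hd
  have hr : fromSub L {M} = (ClassGroup.extendedHom (𝓞 M) (𝓞 L)).range := by
    apply le_antisymm
    · unfold fromSub
      rw [Subgroup.closure_le]
      rintro c ⟨E, hE, h', I, I', hI, rfl⟩
      rw [Set.mem_singleton_iff] at hE
      subst hE
      have hI0 : I ∈ (Ideal (𝓞 E))⁰ := by
        apply mem_nonZeroDivisors_of_ne_zero
        rintro rfl
        apply nonZeroDivisors.coe_ne_zero I'
        rw [hI]
        exact Ideal.map_bot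
      refine ⟨ClassGroup.mk0 ⟨I, hI0⟩, ?_⟩
      rw [ClassGroup.extendedHom_mk0]
      congr 1
      apply Subtype.ext
      rw [hI]
      rfl
    · rintro _ ⟨x, rfl⟩
      obtain ⟨I, rfl⟩ := ClassGroup.mk0_surjective x
      apply Subgroup.subset_closure
      refine ⟨M, rfl, h, I, ClassGroup.extendedIdeal (𝓞 M) (𝓞 L) I, rfl, ?_⟩
      rw [ClassGroup.extendedHom_mk0]
  rw [hr]
  exact count p _ _ _ (Module.finrank M L) hd' (ker_pow M L)

end SGL

/-- Module SGL. -/
theorem t_SGL : S_SGL := by
  intro p hp F K M _ _ hK hM hg hd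
  have hML : M ≤ K ⊔ M := le_sup_right
  obtain ⟨h1, h2⟩ := BCH_thm.1 F K M M (K ⊔ M) hK hML (sup_eq_right.2 hM).symm rfl hg
  have hS : {D | ∃ E ∈ ({F} : Set (IntermediateField ℚ ℂ)), D = E ⊔ M} = {M} := by
    ext D
    simp only [Set.mem_ofPred_eq, Set.mem_singleton_iff, exists_eq_left, sup_eq_right.2 hM]
  unfold eOf
  rw [hS]
  exact SGL.index p M (K ⊔ M) hML h1 fun h => hd (h.trans h2)

end Pool.Agent.RID
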