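import Pool.Agent.RID.St

/-!
# Decomposition fields and the growth of class groups: module ALGR
-/

open Finset
open scoped Pointwise

namespace Pool.Agent.RID

namespace ALGR

section

variable {I G : Type} [CommGroup I] [Group G] [MulDistribMulAction G I]

lemma pow_smul_mem {Y : Subgroup I} {g : G} (h : ∀ x ∈ Y, g • x ∈ Y) (k : ℕ) :
    ∀ x ∈ Y, g ^ k • x ∈ Y := by
  induction k with
  | zero => intro x hx; simpa using hx
  | succ k ih => intro x hx; rw [pow_succ, mul_smul]; exact ih _ (h x hx)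

/-- The action of `g` on a stable subgroup. -/
def res (g : G) (X : Subgroup I) (h : ∀ x ∈ X, g • x ∈ X) : X →* X where
  toFun x := ⟨g • (x : I), h x x.2⟩
  map_one' := by ext; simp
  map_mul' x y := by ext; simp [smul_mul']

/-- The action of `g` on the quotient. -/
def gq (g : G) (P X : Subgroup I) (hP : ∀ x ∈ P, g • x ∈ P) (hX : ∀ x ∈ X, g • x ∈ X) :
    X ⧸ P.subgroupOf X →* X ⧸ P.subgroupOf X :=
  QuotientGroup.map (P.subgroupOf X) (P.subgroupOf X) (res g X hX) (by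
    intro x hx
    rw [Subgroup.mem_comap, Subgroup.mem_subgroupOf]
    rw [Subgroup.mem_subgroupOf] at hx
    exact hP _ hx)

/-- The same, additive. -/
def ga (g : G) (P X : Subgroup I) (hP : ∀ x ∈ P, g • x ∈ P) (hX : ∀ x ∈ X, g • x ∈ X) :
    AddMonoid.End (Additive (X ⧸ P.subgroupOf X)) :=
  MonoidHom.toAdditive (gq g P X hP hX)

lemma ga_pow (g : G) (P X : Subgroup I) (hP : ∀ x ∈ P, g • x ∈ P) (hX : ∀ x ∈ X, g • x ∈ X)
    (k : ℕ) (x : X) :
    (ga g P X hP hX ^ k) (Additive.ofMul (x : X ⧸ P.subgroupOf X)) =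
      Additive.ofMul ((⟨g ^ k • (x : I), pow_smul_mem hX k x x.2⟩ : X) :
        X ⧸ P.subgroupOf X) := by
  induction k generalizing x with
  | zero =>
    have : (⟨g ^ 0 • (x : I), pow_smul_mem hX 0 x x.2⟩ : X) = x := by ext; simp
    rw [this]
    rfl
  | succ k ih =>
    have h1 : (ga g P X hP hX ^ (k + 1)) (Additive.ofMul (x : X ⧸ P.subgroupOf X)) =
        (ga g P X hP hX ^ k) (Additive.ofMul ((res g X hX x : X) : X ⧸ P.subgroupOf X)) := by
      rw [pow_succ]
      rfl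
    rw [h1, ih]
    congr 2
    ext
    show g ^ k • (g • (x : I)) = g ^ (k + 1) • (x : I)
    rw [pow_succ, mul_smul]

lemma mem_im {P U X : Subgroup I} (h1 : P ≤ U) (x : X) :
    (x : X ⧸ P.subgroupOf X) ∈ (U.subgroupOf X).map (QuotientGroup.mk' (P.subgroupOf X)) ↔
      (x : I) ∈ U := by
  constructor
  · rintro ⟨y, hy, hxy⟩
    rw [QuotientGroup.mk'_apply, QuotientGroup.eq, Subgroup.mem_subgroupOf] at hxy
    have hy' : (y : I) ∈ U := hy
    have h2 : ((y⁻¹ * x : X) : I) ∈ U := h1 hxy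
    have h3 : (y : I) * ((y⁻¹ * x : X) : I) = x := by simp
    rw [← h3]
    exact mul_mem hy' h2
  · intro hx
    exact ⟨x, hx, rfl⟩

lemma card_im {P U X : Subgroup I} (h1 : P ≤ U) (h2 : U ≤ X) :
    Nat.card ((U.subgroupOf X).map (QuotientGroup.mk' (P.subgroupOf X))) = P.relIndex U := by
  rw [← Subgroup.relIndex_bot_left, ← Subgroup.map_bot (QuotientGroup.mk' (P.subgroupOf X)),
    Subgroup.relIndex_map_map, QuotientGroup.ker_mk', bot_sup_eq]
  have h3 : U.subgroupOf X ⊔ P.subgroupOf X = U.subgroupOf X :=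
    sup_eq_left.2 (fun x hx => h1 hx)
  rw [h3, Subgroup.relIndex_subgroupOf h2]

lemma card_add {P U X : Subgroup I} (h1 : P ≤ U) (h2 : U ≤ X)
    (K : AddSubgroup (Additive (X ⧸ P.subgroupOf X)))
    (h : ∀ x : X, Additive.ofMul (x : X ⧸ P.subgroupOf X) ∈ K ↔ (x : I) ∈ U) :
    Nat.card K = P.relIndex U := by
  rw [← card_im h1 h2]
  apply Nat.card_congr
  refine Equiv.subtypeEquiv Additive.toMul ?_
  intro a
  obtain ⟨x, hx⟩ := QuotientGroup.mk_surjective (Additive.toMul a)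
  have ha : a = Additive.ofMul (x : X ⧸ P.subgroupOf X) := by rw [hx]; rfl
  subst ha
  rw [h x]
  exact (mem_im h1 x).symm

end

end ALGR

open ALGR in
theorem t_ALGR (hALG1 : S_ALG1) (hALG2 : S_ALG2) : S_ALGR := by
  intro p m n _ I G _ _ _ g P X hg hnm hPX hfin hP hX hlt
  have hp := Fact.out (p := p.Prime)
  set γ : AddMonoid.End (Additive (X ⧸ P.subgroupOf X)) := ga g P X hP hX with hγ
  have hind : (P.subgroupOf X).FiniteIndex := ⟨hfin⟩
  have hfinC : Finite (X ⧸ P.subgroupOf X) := Subgroup.finite_quotient_of_finiteIndex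
  have hfinA : Finite (Additive (X ⧸ P.subgroupOf X)) := hfinC
  have hcard : Nat.card (Additive (X ⧸ P.subgroupOf X)) = P.relIndex X := rfl
  have hγ1 : γ ^ (p ^ (m + 1)) = 1 := by
    ext a
    obtain ⟨x, hx⟩ := QuotientGroup.mk_surjective (Additive.toMul a)
    have ha : a = Additive.ofMul (x : X ⧸ P.subgroupOf X) := by rw [hx]; rfl
    subst ha
    rw [hγ, ga_pow]
    have : (⟨g ^ (p ^ (m + 1)) • (x : I), pow_smul_mem hX _ x x.2⟩ : X) = x := by
      ext
      simp [hg]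
    rw [this]
    rfl
  have hU1 : P ≤ X ⊓ P.comap (dg (g ^ (p ^ n))) := by
    intro x hx
    refine Subgroup.mem_inf.2 ⟨hPX hx, ?_⟩
    rw [Subgroup.mem_comap, dg_apply]
    exact div_mem hx (pow_smul_mem hP _ x hx)
  have hker : Nat.card (AddMonoidHom.ker (γ ^ (p ^ n) - 1 : AddMonoid.End _)) =
      P.relIndex (X ⊓ P.comap (dg (g ^ (p ^ n)))) := by
    apply card_add hU1 inf_le_left
    intro x
    have h0 : Additive.ofMul (x : X ⧸ P.subgroupOf X) ∈
        AddMonoidHom.ker (γ ^ (p ^ n) - 1 : AddMonoid.End _) ↔ (γ ^ (p ^ n) - 1 : AddMonoid.End _)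
        (Additive.ofMul (x : X ⧸ P.subgroupOf X)) = 0 := Iff.rfl
    rw [h0]
    have h1 : (γ ^ (p ^ n) - 1 : AddMonoid.End _)
        (Additive.ofMul (x : X ⧸ P.subgroupOf X)) =
        (γ ^ (p ^ n)) (Additive.ofMul (x : X ⧸ P.subgroupOf X)) -
          Additive.ofMul (x : X ⧸ P.subgroupOf X) := rfl
    rw [h1, sub_eq_zero, hγ, ga_pow, Additive.ofMul.injective.eq_iff, QuotientGroup.eq,
      Subgroup.mem_subgroupOf, Subgroup.mem_inf, Subgroup.mem_comap, dg_apply]
    have h2 : (((⟨g ^ (p ^ n) • (x : I), pow_smul_mem hX _ x x.2⟩ : X)⁻¹ * x : X) : I) =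
        (x : I) / g ^ (p ^ n) • (x : I) := by
      simp [div_eq_mul_inv, mul_comm]
    rw [h2]
    simp
  have hran : Nat.card
      (AddMonoidHom.range (∑ j ∈ range p, γ ^ (p ^ m * j) : AddMonoid.End _)) =
      P.relIndex (X.map (ng (g ^ (p ^ m)) p) ⊔ P) := by
    have hng : ∀ x ∈ X, ng (g ^ (p ^ m)) p x ∈ X := by
      intro x hx
      rw [ng_apply]
      refine Subgroup.prod_mem _ fun i _ => ?_
      rw [← pow_mul]
      exact pow_smul_mem hX _ x hx
    have hval : ∀ x : X, (∑ j ∈ range p, γ ^ (p ^ m * j) : AddMonoid.End _)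
        (Additive.ofMul (x : X ⧸ P.subgroupOf X)) =
        Additive.ofMul ((⟨ng (g ^ (p ^ m)) p (x : I), hng x x.2⟩ : X) :
          X ⧸ P.subgroupOf X) := by
      intro x
      have h1 : (∑ j ∈ range p, γ ^ (p ^ m * j) : AddMonoid.End _)
          (Additive.ofMul (x : X ⧸ P.subgroupOf X)) =
          ∑ j ∈ range p, (γ ^ (p ^ m * j)) (Additive.ofMul (x : X ⧸ P.subgroupOf X)) := by
        exact AddMonoidHom.finsetSum_apply _ _ _
      rw [h1]
      have h2 : (⟨ng (g ^ (p ^ m)) p (x : I), hng x x.2⟩ : X) =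
          ∏ j ∈ range p, (⟨g ^ (p ^ m * j) • (x : I), pow_smul_mem hX _ x x.2⟩ : X) := by
        ext
        rw [Subgroup.val_finsetProd]
        simp [ng_apply, pow_mul]
      rw [h2]
      have h3 : (((∏ j ∈ range p,
          (⟨g ^ (p ^ m * j) • (x : I), pow_smul_mem hX _ x x.2⟩ : X)) : X) :
          X ⧸ P.subgroupOf X) = ∏ j ∈ range p,
          (((⟨g ^ (p ^ m * j) • (x : I), pow_smul_mem hX _ x x.2⟩ : X)) :
            X ⧸ P.subgroupOf X) := map_prod (QuotientGroup.mk' (P.subgroupOf X)) _ _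
      rw [h3, ofMul_prod]
      refine Finset.sum_congr rfl fun j _ => ?_
      rw [hγ, ga_pow]
    refine card_add le_sup_right (sup_le ?_ hPX) _ ?_
    · rintro _ ⟨x, hx, rfl⟩
      exact hng x hx
    intro x
    have h0 : Additive.ofMul (x : X ⧸ P.subgroupOf X) ∈
        AddMonoidHom.range (∑ j ∈ range p, γ ^ (p ^ m * j) : AddMonoid.End _) ↔
        ∃ b, (∑ j ∈ range p, γ ^ (p ^ m * j) : AddMonoid.End _) b =
          Additive.ofMul (x : X ⧸ P.subgroupOf X) := Iff.rfl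
    rw [h0]
    constructor
    · rintro ⟨b, hb⟩
      obtain ⟨y, hy⟩ := QuotientGroup.mk_surjective (Additive.toMul b)
      have ha : b = Additive.ofMul (y : X ⧸ P.subgroupOf X) := by rw [hy]; rfl
      subst ha
      rw [hval, Additive.ofMul.injective.eq_iff, QuotientGroup.eq,
        Subgroup.mem_subgroupOf] at hb
      have h4 : (x : I) = ng (g ^ (p ^ m)) p (y : I) *
          (((⟨ng (g ^ (p ^ m)) p (y : I), hng y y.2⟩ : X)⁻¹ * x : X) : I) := by
        simp
      rw [h4]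
      exact Subgroup.mul_mem_sup (Subgroup.mem_map_of_mem _ y.2) hb
    · intro hx
      obtain ⟨a, ha, b, hb, hab⟩ := Subgroup.mem_sup.1 hx
      obtain ⟨y, hy, rfl⟩ := ha
      refine ⟨Additive.ofMul ((⟨y, hy⟩ : X) : X ⧸ P.subgroupOf X), ?_⟩
      rw [hval, Additive.ofMul.injective.eq_iff, QuotientGroup.eq,
        Subgroup.mem_subgroupOf]
      have h4 : (((⟨ng (g ^ (p ^ m)) p y, hng y hy⟩ : X)⁻¹ * x : X) : I) = b := by
        rw [Subgroup.coe_mul, Subgroup.coe_inv, ← hab]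
        simp
      rw [h4]
      exact hb
  have hnm' : n ≤ m + 1 := le_trans hnm (Nat.le_succ m)
  have h1 := hALG1 p (m + 1) n (Additive (X ⧸ P.subgroupOf X)) γ hγ1 hnm'
    (by rw [hker]; exact hlt)
  rw [hker] at h1
  have h2 : p ^ n ≤ p ^ m * (p - 1) := by
    have h3 : p ^ n ≤ p ^ m := Nat.pow_le_pow_right hp.pos hnm
    have h4 : 1 ≤ p - 1 := by have := hp.two_le; omega
    calc p ^ n ≤ p ^ m := h3
      _ = p ^ m * 1 := (mul_one _).symm
      _ ≤ p ^ m * (p - 1) := Nat.mul_le_mul_left _ h4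
  have h5 := hALG2 p m (Additive (X ⧸ P.subgroupOf X)) γ hγ1
    (lt_of_le_of_lt h1 (lt_of_lt_of_le hlt h2))
  rw [hran, hcard] at h5
  exact h5.trans (Nat.add_le_add_left h1 _)

end Pool.Agent.RID
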