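import Pool.Agent.RID.St
import Pool.Agent.RI.EXTACT

/-!
# Decomposition fields: norms for corresponding subgroups and extension (RES)
-/

open NumberField Finset
open scoped nonZeroDivisors Pointwise

namespace Pool.Agent.RID

open Pool.Agent.RI

namespace RES

/-- Reindexing of a product of conjugates. -/
lemma reindex {G H X Y : Type} [Group G] [Finite G] [Group H] [Finite H] [CommGroup X]
    [CommGroup Y] [MulDistribMulAction G X] [MulDistribMulAction H Y] (N : Subgroup G)
    (N' : Subgroup H) (f : Y →* X) (e : N' ≃ N)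
    (h : ∀ (σ : N') (y : Y), f ((σ : H) • y) = ((e σ : N) : G) • f y) (y : Y) :
    f (nuS N' y) = nuS N (f y) := by
  classical
  letI := Fintype.ofFinite N
  letI := Fintype.ofFinite N'
  rw [nuS_apply, nuS_apply, map_prod]
  refine Fintype.prod_equiv e _ _ fun σ => h σ y

end RES

theorem t_RES : S_RES := by
  intro F K L _ _ _ _ _ _ _ _ _ _ N' N hm
  obtain ⟨e, he⟩ := hm
  constructor
  · intro c
    refine RES.reindex N N' (ext K L) e (fun σ y => ?_) c
    exact EXTACT_thm F K F L ((e σ : N) : L ≃ₐ[F] L) (σ : K ≃ₐ[F] K) (fun x => he σ x) y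
  · intro x
    refine RES.reindex N N' (Units.map (algebraMap K L : K →* L)) e (fun σ y => ?_) x
    apply Units.ext
    exact he σ (y : K)

end Pool.Agent.RID
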