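import Pool.Agent.RID.St
import Pool.Agent.RI.MAINA

/-!
# Decomposition fields and the growth of class groups: the module CDR
-/

open NumberField Finset IsDedekindDomain
open scoped nonZeroDivisors Pointwise

namespace Pool.Agent.RID

open Pool.Agent.RI

namespace CDR

/-- The degree of an intermediate field divides the degree. -/
lemma finrank_dvd {F M' M : IntermediateField ℚ ℂ} [FiniteDimensional ℚ M] (h₁ : F ≤ M')
    (h₂ : M' ≤ M) :
    Module.finrank F (IntermediateField.extendScalars h₁) ∣
      Module.finrank F (IntermediateField.extendScalars (h₁.trans h₂)) := by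
  have hf1 := finrank_algC h₁
  have hf2 := finrank_algC (h₁.trans h₂)
  rw [← hf1, ← hf2]
  let : Algebra F M' := algC h₁
  let : Algebra M' M := algC h₂
  let : Algebra F M := algC (h₁.trans h₂)
  have : IsScalarTower F M' M := towerC h₁ h₂
  exact ⟨_, (Module.finrank_mul_finrank F M' M).symm⟩

end CDR

theorem t_CDR : S_CDR := by
  intro p hp F K M' M _ _ _ l hCD h₁ h₂ hG
  obtain ⟨hK, hM, gK, copK, gM, ⟨a, ha⟩, ne, mem, inf, ram⟩ := hCD
  refine ⟨hK, h₁, gK, copK, hG, ?_, ne, mem, MAINA.unramInf_bot h₁ h₂ inf, ?_⟩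
  · have h := CDR.finrank_dvd h₁ h₂
    have h' : Module.finrank F (IntermediateField.extendScalars h₁) ∣ p ^ a := by
      rw [← ha]; exact h
    obtain ⟨b, -, hb⟩ := (Nat.dvd_prime_pow hp.out).1 h'
    exact ⟨b, hb⟩
  · intro P hP hR
    exact ram P hP (MAINA.ramifies_of h₁ h₂ _ hR)

end Pool.Agent.RID
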