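import Pool.Agent.RID.St
import Pool.Agent.RI.INF
import Pool.Agent.RI.BCH
import Pool.Agent.RI.TSTEP

/-!
# Decomposition fields: infinite places
-/

open NumberField IsDedekindDomain
open scoped nonZeroDivisors Pointwise

namespace Pool.Agent.RID

open Pool.Agent.RI Pool.Agent.RI.TSTEP

theorem t_SCI : S_SCI := by
  intro p _ F K M' M fdK fdM' fdM l hCD h₁ h₂ gM' h'
  obtain ⟨hBCH1, hBCH2⟩ := BCH_thm
  have hK := hCD.hK
  have hur := hCD.inf
  have gM := hCD.gM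
  have gK := hCD.gK
  have hK'L : K ⊔ M' ≤ K ⊔ M := h'
  have hML : M ≤ K ⊔ M := le_sup_right
  have hFM : F ≤ M := h₁.trans h₂
  have hFL : F ≤ K ⊔ M := hK.trans le_sup_left
  have hFK' : F ≤ K ⊔ M' := hK.trans le_sup_left
  have fdF : FiniteDimensional ℚ F := fd_of_le hK
  let aFL : Algebra F ↥(K ⊔ M) := algC hFL
  let aFK' : Algebra F ↥(K ⊔ M') := algC hFK'
  let aK'L : Algebra ↥(K ⊔ M') ↥(K ⊔ M) := algC hK'L
  let aML : Algebra M ↥(K ⊔ M) := algC hML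
  have t1 : IsScalarTower F ↥(K ⊔ M') ↥(K ⊔ M) := towerC hFK' hK'L
  have gFL : IsGalois F ↥(K ⊔ M) := (isGalois_algC hFL).2 (hBCH2 F K M hK hFM hFL gK gM)
  have gK'L : IsGalois ↥(K ⊔ M') ↥(K ⊔ M) :=
    IsGalois.tower_top_of_isGalois F ↥(K ⊔ M') ↥(K ⊔ M)
  have hadj : IntermediateField.adjoin ↥(K ⊔ M') (Set.range (algebraMap M ↥(K ⊔ M))) = ⊤ :=
    adjoin_top (A := M) (B := K ⊔ M') (C := K ⊔ M)
      (le_antisymm (sup_le (le_sup_left.trans le_sup_right) le_sup_left)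
        (sup_le le_sup_right hK'L)) hK'L hML
  have hinf1 : Fintype.card (InfinitePlace ↥(K ⊔ M)) =
      Module.finrank ↥(K ⊔ M') ↥(K ⊔ M) * Fintype.card (InfinitePlace ↥(K ⊔ M')) := by
    refine INF_thm ↥(K ⊔ M') ↥(K ⊔ M) (Set.range (algebraMap M ↥(K ⊔ M))) ?_ ?_
    · exact hadj
    · rintro φ hφ _ ⟨s, rfl⟩
      refine hur (φ.comp (algebraMap M ↥(K ⊔ M))) ?_ s
      intro x hx
      have := hφ ⟨(x : ℂ), (hK.trans le_sup_left) hx⟩
      exact this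
  rw [Nat.card_eq_fintype_card, Nat.card_eq_fintype_card]
  exact hinf1

end Pool.Agent.RID
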