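import Pool.Agent.RID.St
import Pool.Agent.RI.BCH

/-!
# Module SCM: restriction from `K M` to `K M'`
-/

set_option autoImplicit false

open NumberField Finset IsDedekindDomain
open scoped nonZeroDivisors Pointwise

namespace Pool.Agent.RID

open Pool.Agent.RI

namespace SCM

/-- Two endomorphisms of `K ⊔ M` that agree on `K` and on `M` are equal. -/
lemma agree (K M : IntermediateField ℚ ℂ) (f g : ↥(K ⊔ M) →+* ↥(K ⊔ M))
    (hK : ∀ x : ↥(K ⊔ M), (x : ℂ) ∈ K → f x = g x)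
    (hM : ∀ x : ↥(K ⊔ M), (x : ℂ) ∈ M → f x = g x) (x : ↥(K ⊔ M)) : f x = g x := by
  let S : IntermediateField ℚ ℂ :=
    { carrier := {z | ∃ hz : z ∈ K ⊔ M, f ⟨z, hz⟩ = g ⟨z, hz⟩}
      mul_mem' := by
        rintro a b ⟨ha, ha'⟩ ⟨hb, hb'⟩
        refine ⟨mul_mem ha hb, ?_⟩
        have e : (⟨a * b, mul_mem ha hb⟩ : ↥(K ⊔ M)) = ⟨a, ha⟩ * ⟨b, hb⟩ := rfl
        rw [e, map_mul, map_mul, ha', hb']
      add_mem' := by
        rintro a b ⟨ha, ha'⟩ ⟨hb, hb'⟩
        refine ⟨add_mem ha hb, ?_⟩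
        have e : (⟨a + b, add_mem ha hb⟩ : ↥(K ⊔ M)) = ⟨a, ha⟩ + ⟨b, hb⟩ := rfl
        rw [e, map_add, map_add, ha', hb']
      algebraMap_mem' := by
        intro r
        refine ⟨IntermediateField.algebraMap_mem _ r, ?_⟩
        have e : (⟨algebraMap ℚ ℂ r, IntermediateField.algebraMap_mem _ r⟩ : ↥(K ⊔ M)) =
            (algebraMap ℚ ↥(K ⊔ M)) r := rfl
        rw [e]
        have h1 : f.comp (algebraMap ℚ ↥(K ⊔ M)) = g.comp (algebraMap ℚ ↥(K ⊔ M)) :=
          Subsingleton.elim _ _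
        exact congrArg (fun φ : ℚ →+* ↥(K ⊔ M) => φ r) h1
      inv_mem' := by
        rintro a ⟨ha, ha'⟩
        refine ⟨inv_mem ha, ?_⟩
        have e : (⟨a⁻¹, inv_mem ha⟩ : ↥(K ⊔ M)) = (⟨a, ha⟩ : ↥(K ⊔ M))⁻¹ := rfl
        rw [e, map_inv₀, map_inv₀, ha'] }
  have h1 : K ≤ S := fun z hz => ⟨(le_sup_left : K ≤ K ⊔ M) hz, hK ⟨z, _⟩ hz⟩
  have h2 : M ≤ S := fun z hz => ⟨(le_sup_right : M ≤ K ⊔ M) hz, hM ⟨z, _⟩ hz⟩
  obtain ⟨_, h3⟩ := (sup_le h1 h2) x.2
  exact h3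

/-- The order of `NC`. -/
lemma card_NC {F L : IntermediateField ℚ ℂ} (h : F ≤ L) (D : IntermediateField ℚ ℂ)
    (hFD : F ≤ D) (hDL : D ≤ L) [FiniteDimensional ℚ L]
    (hg : IsGalois F (IntermediateField.extendScalars h)) :
    letI := algC h
    Nat.card (NC h D) = IntermediateField.relfinrank D L := by
  let := algC h
  let := algC hDL
  let := algC hFD
  have : IsScalarTower F D L := towerC hFD hDL
  have hgF : IsGalois F L := (isGalois_algC h).2 hg
  have hgD : IsGalois D L := IsGalois.tower_top_of_isGalois F D L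
  have hfin : FiniteDimensional D L := by
    have := BCH.fin_ext hDL
    exact (extEquiv hDL).toLinearEquiv.finiteDimensional
  let e : NC h D ≃ (L ≃ₐ[D] L) :=
    { toFun := fun σ =>
        { (σ : L ≃ₐ[F] L).toRingEquiv with
          commutes' := fun d => σ.2 (algebraMap D L d) d.2 }
      invFun := fun τ => ⟨τ.restrictScalars F, fun x hx => τ.commutes ⟨x, hx⟩⟩
      left_inv := fun σ => rfl
      right_inv := fun τ => rfl }
  rw [Nat.card_congr e, IsGalois.card_aut_eq_finrank D L,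
    IntermediateField.relfinrank_eq_finrank_of_le hDL, finrank_algC hDL]

/-- Divisibility of degrees under base change. -/
lemma bc_dvd (A C E A' C' : IntermediateField ℚ ℂ) [FiniteDimensional ℚ C]
    [FiniteDimensional ℚ E] (h : A ≤ C) (hA : A' = A ⊔ E) (hC : C' = C ⊔ E)
    (hg : IsGalois A (IntermediateField.extendScalars h)) :
    IntermediateField.relfinrank A' C' ∣ IntermediateField.relfinrank A C := by
  have h' : A' ≤ C' := by rw [hA, hC]; exact sup_le_sup_right h E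
  have h1 := (BCH_thm.1 A C E A' C' h h' hA hC hg).2
  rwa [← IntermediateField.relfinrank_eq_finrank_of_le h',
    ← IntermediateField.relfinrank_eq_finrank_of_le h] at h1

/-- The upper part of a Galois extension. -/
lemma gal_top {F D L : IntermediateField ℚ ℂ} (hFD : F ≤ D) (hDL : D ≤ L) (hFL : F ≤ L)
    (hg : IsGalois F (IntermediateField.extendScalars hFL)) :
    IsGalois D (IntermediateField.extendScalars hDL) := by
  let := algC hFD
  let := algC hDL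
  let := algC hFL
  have : IsScalarTower F D L := towerC hFD hDL
  have hgF : IsGalois F L := (isGalois_algC hFL).2 hg
  exact (isGalois_algC hDL).1 (IsGalois.tower_top_of_isGalois F D L)

lemma eqn {p a b c d N s : ℕ} (h : b * a = d * c) (hN : N.Coprime p) (ha : a ∣ N) (hd : d ∣ N)
    (hb : b ∣ p ^ s) (hc : c ∣ p ^ s) : a = d := by
  have h1 : N.Coprime (p ^ s) := hN.pow_right s
  have h2 : a.Coprime c := (h1.coprime_dvd_left ha).coprime_dvd_right hc
  have h3 : d.Coprime b := (h1.coprime_dvd_left hd).coprime_dvd_right hb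
  apply Nat.dvd_antisymm
  · exact h2.dvd_of_dvd_mul_right (h ▸ Dvd.intro_left b rfl)
  · exact h3.dvd_of_dvd_mul_left (h ▸ Dvd.intro c rfl)

end SCM

open SCM

theorem t_SCM (_hSCN : S_SCN) : S_SCM := by
  intro p hp F K M' M _ _ _ l hcd h₁ hM'M hg' h h' E hE
  obtain ⟨hFE, hEK, hgE⟩ := hcd.mem E hE
  have hEM'E : E ⊔ M' ≤ E ⊔ M := sup_le_sup_left hM'M E
  have hE1 : E ⊔ M' ≤ K ⊔ M' := sup_le_sup_right hEK M'
  have hE2 : E ⊔ M ≤ K ⊔ M := sup_le_sup_right hEK M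
  have hgK₁ : IsGalois F (IntermediateField.extendScalars h) :=
    BCH_thm.2 F K M' hcd.hK h₁ h hcd.gK hg'
  have hgL : IsGalois F (IntermediateField.extendScalars (h.trans h')) :=
    BCH_thm.2 F K M hcd.hK hcd.hM (h.trans h') hcd.gK hcd.gM
  have hgKE : IsGalois E (IntermediateField.extendScalars hEK) := gal_top hFE hEK hcd.hK hcd.gK
  have hgMM : IsGalois M' (IntermediateField.extendScalars hM'M) :=
    gal_top h₁ hM'M hcd.hM hcd.gM
  have hfE : FiniteDimensional ℚ E :=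
    FiniteDimensional.of_injective (IntermediateField.inclusion hEK).toLinearMap
      (IntermediateField.inclusion hEK).injective
  -- degrees
  obtain ⟨s, hs⟩ := hcd.degM
  rw [← IntermediateField.relfinrank_eq_finrank_of_le hcd.hM] at hs
  have hN : (IntermediateField.relfinrank F K).Coprime p := by
    rw [Nat.coprime_comm, Nat.Prime.coprime_iff_not_dvd hp.out,
      IntermediateField.relfinrank_eq_finrank_of_le hcd.hK]
    exact hcd.copK
  have hEKF : IntermediateField.relfinrank E K ∣ IntermediateField.relfinrank F K :=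
    ⟨_, by rw [mul_comm]; exact (IntermediateField.relfinrank_mul_relfinrank hFE hEK).symm⟩
  have hMMF : IntermediateField.relfinrank M' M ∣ p ^ s := by
    rw [← hs]
    exact ⟨_, by rw [mul_comm]; exact (IntermediateField.relfinrank_mul_relfinrank h₁ hM'M).symm⟩
  have hmul1 := IntermediateField.relfinrank_mul_relfinrank hEM'E hE2
  have hmul2 := IntermediateField.relfinrank_mul_relfinrank hE1 h'
  have hdeg : IntermediateField.relfinrank (E ⊔ M) (K ⊔ M) =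
      IntermediateField.relfinrank (E ⊔ M') (K ⊔ M') :=
    eqn (hmul1.trans hmul2.symm) hN
      ((bc_dvd E K M (E ⊔ M) (K ⊔ M) hEK rfl rfl hgKE).trans hEKF)
      ((bc_dvd E K M' (E ⊔ M') (K ⊔ M') hEK rfl rfl hgKE).trans hEKF)
      ((bc_dvd M' M E (E ⊔ M') (E ⊔ M) hM'M (sup_comm _ _) (sup_comm _ _) hgMM).trans hMMF)
      ((bc_dvd M' M K (K ⊔ M') (K ⊔ M) hM'M (sup_comm _ _) (sup_comm _ _) hgMM).trans hMMF)
  have hc1 := card_NC h (E ⊔ M') (hFE.trans le_sup_left) hE1 hgK₁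
  have hc2 := card_NC (h.trans h') (E ⊔ M) (hFE.trans le_sup_left) hE2 hgL
  -- restriction
  let := algC h
  let := algC h'
  let := algC (h.trans h')
  have : IsScalarTower F ↥(K ⊔ M') ↥(K ⊔ M) := towerC h h'
  have hgF1 : IsGalois F ↥(K ⊔ M') := (isGalois_algC h).2 hgK₁
  have hgF2 : IsGalois F ↥(K ⊔ M) := (isGalois_algC (h.trans h')).2 hgL
  have hfin1 : FiniteDimensional F ↥(K ⊔ M') := by
    have := BCH.fin_ext h
    exact (extEquiv h).toLinearEquiv.finiteDimensional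
  have hfin2 : FiniteDimensional F ↥(K ⊔ M) := by
    have := BCH.fin_ext (h.trans h')
    exact (extEquiv (h.trans h')).toLinearEquiv.finiteDimensional
  have hrc : ∀ (σ : ↥(K ⊔ M) ≃ₐ[F] ↥(K ⊔ M)) (x : ↥(K ⊔ M')),
      algebraMap ↥(K ⊔ M') ↥(K ⊔ M) (σ.restrictNormal ↥(K ⊔ M') x) =
        σ (algebraMap ↥(K ⊔ M') ↥(K ⊔ M) x) :=
    fun σ x => AlgEquiv.restrictNormal_commutes σ ↥(K ⊔ M') x
  let r : NC (h.trans h') (E ⊔ M) → NC h (E ⊔ M') := fun σ =>
    ⟨(σ : ↥(K ⊔ M) ≃ₐ[F] ↥(K ⊔ M)).restrictNormal ↥(K ⊔ M'), fun x hx => by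
      have h1 := hrc σ x
      have h2 : (σ : ↥(K ⊔ M) ≃ₐ[F] ↥(K ⊔ M)) (algebraMap ↥(K ⊔ M') ↥(K ⊔ M) x) =
          algebraMap ↥(K ⊔ M') ↥(K ⊔ M) x := σ.2 _ (hEM'E hx)
      rw [h2] at h1
      exact (algebraMap ↥(K ⊔ M') ↥(K ⊔ M)).injective h1⟩
  have hrinj : Function.Injective r := by
    intro σ τ hστ
    have h0 : (σ : ↥(K ⊔ M) ≃ₐ[F] ↥(K ⊔ M)).restrictNormal ↥(K ⊔ M') =
        (τ : ↥(K ⊔ M) ≃ₐ[F] ↥(K ⊔ M)).restrictNormal ↥(K ⊔ M') := congrArg Subtype.val hστ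
    apply Subtype.ext
    apply AlgEquiv.ext
    intro x
    refine agree K M ((σ : ↥(K ⊔ M) ≃ₐ[F] ↥(K ⊔ M)) : ↥(K ⊔ M) →+* ↥(K ⊔ M))
      ((τ : ↥(K ⊔ M) ≃ₐ[F] ↥(K ⊔ M)) : ↥(K ⊔ M) →+* ↥(K ⊔ M)) ?_ ?_ x
    · intro y hy
      have h1 := hrc σ ⟨y, (le_sup_left : K ≤ K ⊔ M') hy⟩
      have h2 := hrc τ ⟨y, (le_sup_left : K ≤ K ⊔ M') hy⟩
      rw [h0, h2] at h1
      exact h1.symm
    · intro y hy
      exact (σ.2 y ((le_sup_right : M ≤ E ⊔ M) hy)).trans
        (τ.2 y ((le_sup_right : M ≤ E ⊔ M) hy)).symm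
  have hcard : Nat.card (NC h (E ⊔ M')) = Nat.card (NC (h.trans h') (E ⊔ M)) := by
    rw [hc1, hc2, hdeg]
  have hbij : Function.Bijective r := by
    have hf1 : Finite (NC h (E ⊔ M')) := inferInstance
    exact (Nat.bijective_iff_injective_and_card r).2 ⟨hrinj, hcard.symm⟩
  refine ⟨(Equiv.ofBijective r hbij).symm, fun σ x => ?_⟩
  have h1 := hrc ((Equiv.ofBijective r hbij).symm σ : NC (h.trans h') (E ⊔ M)) x
  have h2 : r ((Equiv.ofBijective r hbij).symm σ) = σ :=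
    (Equiv.ofBijective r hbij).apply_symm_apply σ
  have h3 := congrArg Subtype.val h2
  rw [← h1]
  exact congrArg (fun φ : ↥(K ⊔ M') ≃ₐ[F] ↥(K ⊔ M') =>
    algebraMap ↥(K ⊔ M') ↥(K ⊔ M) (φ x)) h3.symm

end Pool.Agent.RID
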