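import Pool.Agent.RID.St
import Pool.Agent.RI.CL

/-!
# Decomposition fields: the relative norm (NRM)
-/

open NumberField Finset
open scoped nonZeroDivisors Pointwise

namespace Pool.Agent.RID

open Pool.Agent.RI

namespace NRM

/-- `ng g q` commutes with an operator that commutes with `g`. -/
lemma ng_comm {G X : Type} [Group G] [CommGroup X] [MulDistribMulAction G X] (g : G) (q : ℕ)
    (f : X →* X) (h : ∀ x, g • f x = f (g • x)) (x : X) : f (ng g q x) = ng g q (f x) := by
  have key : ∀ (i : ℕ) (x : X), g ^ i • f x = f (g ^ i • x) := by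
    intro i
    induction i with
    | zero => intro x; simp
    | succ i ih => intro x; rw [pow_succ, mul_smul, mul_smul, h, ih]
  rw [ng_apply, ng_apply, map_prod]
  exact Finset.prod_congr rfl fun i _ => (key i x).symm

/-- `nuS N` commutes with an element that commutes with the elements of `N`. -/
lemma nuS_comm {G X : Type} [Group G] [Finite G] [CommGroup X] [MulDistribMulAction G X]
    (N : Subgroup G) (g : G) (h : ∀ σ ∈ N, σ * g = g * σ) (x : X) :
    g • nuS N x = nuS N (g • x) := by
  classical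
  letI := Fintype.ofFinite N
  rw [nuS_apply, nuS_apply, Finset.smul_prod']
  refine Finset.prod_congr rfl fun σ _ => ?_
  rw [← mul_smul, ← mul_smul, h (σ : G) σ.2]

end NRM

theorem t_NRM (hCYC : S_CYC) (hRES : S_RES) (_hNUS : S_NUS) : S_NRM := by
  intro F K L κ _ _ _ _ _ _ _ _ _ _ l N' N g q hcyc hmat hcom b hb
  obtain ⟨hgal, -, -, -, -, -, hJ, -, -, -, -⟩ := hCYC F K L g q hcyc
  haveI := hgal
  obtain ⟨c, hc⟩ := CL.nm_mem (F := K) (K := L) b
  have hc' : ext K L c = ng g q b := by
    rw [hc, hJ b, CL.nm_apply]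
  refine ⟨c, ?_, hc'⟩
  intro i hi
  obtain ⟨x, hx⟩ := hb i hi
  refine ⟨Units.map (Algebra.norm K : L →* K) x, ?_⟩
  apply ext_injective K L
  have h1 := (hRES F K L (N' i) (N i) (hmat i hi)).1 c
  have h2 : nuS (N i) (ng g q b) = ng g q (nuS (N i) b) :=
    NRM.ng_comm g q (nuS (N i)) (NRM.nuS_comm (N i) g (hcom i hi)) b
  rw [h1, hc', h2]
  have h3 : ng g q (nuS (N i) b) = ng g q (prin x) := congrArg _ hx.symm
  rw [h3, hJ (prin x), ← CL.nm_apply, CL.nm_prin]

end Pool.Agent.RID
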