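import Pool.Agent.RID.St2

/-!
# Decomposition fields and the growth of class groups: the final form of the statements
-/

open NumberField IntermediateField Pool.Agent.RI

namespace Pool.Agent.RID

lemma toList_set (S : Finset (IntermediateField ℚ ℂ)) :
    {E | E ∈ S.toList} = (S : Set (IntermediateField ℚ ℂ)) := by
  ext E
  simp

lemma cd_of {p : ℕ} {F K M : IntermediateField ℚ ℂ} {S : Finset (IntermediateField ℚ ℂ)}
    (hK : F ≤ K) (hM : F ≤ M) (gK : IsGalois F (extendScalars hK))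
    (hp : ¬ p ∣ Module.finrank F (extendScalars hK)) (hS : S.Nonempty)
    (hE : ∀ E ∈ S, ∃ h : F ≤ E, E ≤ K ∧ IsGalois F (extendScalars h))
    (gM : IsGalois F (extendScalars hM)) (a : ℕ)
    (ha : Module.finrank F (extendScalars hM) = p ^ a) (hinf : UnramInf hM)
    (hram : DecRam hK hM S) : CD p F K M S.toList where
  hK := hK
  hM := hM
  gK := gK
  copK := hp
  gM := gM
  degM := ⟨a, ha⟩
  ne := by
    intro h
    exact hS.ne_empty (Finset.toList_eq_nil.1 h)
  mem E hE' := hE E (Finset.mem_toList.1 hE')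
  inf := hinf
  ram := by rw [toList_set]; exact hram

theorem asm1 (h3 : S_MAIN3) (p : ℕ) [Fact p.Prime] (F K : IntermediateField ℚ ℂ)
    [FiniteDimensional ℚ K] (hK : F ≤ K) (S : Finset (IntermediateField ℚ ℂ))
    (Q : ℕ → IntermediateField ℚ ℂ) [∀ n, FiniteDimensional ℚ (Q n)]
    (gK : IsGalois F (extendScalars hK)) (hp : ¬ p ∣ Module.finrank F (extendScalars hK))
    (hS : S.Nonempty)
    (hE : ∀ E ∈ S, ∃ h : F ≤ E, E ≤ K ∧ IsGalois F (extendScalars h)) (hD : DecP p K S)
    (hQ : Monotone Q) (hQ' : ∀ n, IsLayer p n (Q n)) :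
    (∃ C : ℕ, ∀ n, padicValNat p (classNo (K ⊔ Q n)) ≤ C * (n + 1)) ↔
      (∀ E ∈ S, ∃ C : ℕ, ∀ n, padicValNat p (classNo (E ⊔ Q n)) ≤ C * (n + 1)) ∧
      ∃ n, eOf p K (Q n) S < Module.finrank F (extendScalars (le_sup_left : F ≤ F ⊔ Q n)) := by
  have h := h3 p F K S.toList hK Q gK hp (fun h => hS.ne_empty (Finset.toList_eq_nil.1 h))
    (fun E hE' => hE E (Finset.mem_toList.1 hE')) (by rw [toList_set]; exact hD) hQ hQ'
  rw [toList_set] at h
  rw [h]
  simp only [Finset.mem_toList]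

theorem asm2 (h2 : S_MAIN2) (hB : S_BND) (p n m : ℕ) [Fact p.Prime]
    (F K M' M : IntermediateField ℚ ℂ) [FiniteDimensional ℚ K] [FiniteDimensional ℚ M']
    [FiniteDimensional ℚ M] (hK : F ≤ K) (hM : F ≤ M) (hM' : F ≤ M') (hMM : M' ≤ M)
    (S : Finset (IntermediateField ℚ ℂ)) (gK : IsGalois F (extendScalars hK))
    (hp : ¬ p ∣ Module.finrank F (extendScalars hK)) (hS : S.Nonempty)
    (hE : ∀ E ∈ S, ∃ h : F ≤ E, E ≤ K ∧ IsGalois F (extendScalars h))
    (gM : IsGalois F (extendScalars hM))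
    (cM : IsCyclic ((extendScalars hM) ≃ₐ[F] (extendScalars hM)))
    (hn : Module.finrank F (extendScalars hM') = p ^ n)
    (hm : Module.finrank F (extendScalars hM) = p ^ m) (hinf : UnramInf hM)
    (hram : DecRam hK hM S) (he : eOf p K M' S < p ^ n) :
    eOf p K M S ≤ (m - n + 1) * eOf p K M' S ∧
    padicValNat p (classNo (K ⊔ M)) ≤
      (m - n + 1) * eOf p K M' S + ∑ E ∈ S, padicValNat p (classNo (E ⊔ M)) := by
  have hc := cd_of hK hM gK hp hS hE gM m hm hinf hram
  have fdF : FiniteDimensional ℚ F := FiniteDimensional.of_injective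
    (IntermediateField.inclusion hK).toLinearMap (IntermediateField.inclusion hK).injective
  have h := h2 p n m F K M' M S.toList hc hM hM' hMM cM hn hm (by rw [toList_set]; exact he)
  rw [toList_set] at h
  refine ⟨h, ?_⟩
  have h' := (hB p K M S.toList
    (fun E hE' => (hE E (Finset.mem_toList.1 hE')).choose_spec.1)).2
  rw [toList_set, Finset.sum_map_toList] at h'
  omega

theorem asm3 (h1 : S_MAIN1) (p a : ℕ) [Fact p.Prime]
    (F K M : IntermediateField ℚ ℂ) [FiniteDimensional ℚ F] [FiniteDimensional ℚ K]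
    [FiniteDimensional ℚ M] (hK : F ≤ K) (hM : F ≤ M)
    (S : Finset (IntermediateField ℚ ℂ)) (gK : IsGalois F (extendScalars hK))
    (hp : ¬ p ∣ Module.finrank F (extendScalars hK)) (hS : S.Nonempty)
    (hE : ∀ E ∈ S, ∃ h : F ≤ E, E ≤ K ∧ IsGalois F (extendScalars h))
    (gM : IsGalois F (extendScalars hM))
    (ha : Module.finrank F (extendScalars hM) = p ^ a) (hinf : UnramInf hM)
    (hram : DecRam hK hM S) (he : eOf p K F S = 0) : eOf p K M S = 0 := by
  have hc := cd_of hK hM gK hp hS hE gM a ha hinf hram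
  have h := h1 p F K M S.toList hc (by rw [toList_set]; exact he)
  rw [toList_set] at h
  exact h

end Pool.Agent.RID
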