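import Pool.Agent.RID.St

/-!
ALG1: few invariants of a power of `γ` bound the rank.
-/

set_option autoImplicit false

open Finset

namespace Pool.Agent.RID

namespace ALG1

lemma dvd_step {A : Type} [AddCommGroup A] {p : ℕ} [Fact p.Prime]
    {H K : AddSubgroup A} (hHK : H ≤ K) (hne : H ≠ K) (hp : ∀ x ∈ K, p • x = 0) :
    p * Nat.card H ∣ Nat.card K := by
  have hlt : ∃ x ∈ K, x ∉ H := by
    by_contra h
    push Not at h
    exact hne (le_antisymm hHK h)
  obtain ⟨x, hxK, hxH⟩ := hlt
  have h1 : p ∣ H.relIndex K := by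
    have h : addOrderOf ((⟨x, hxK⟩ : K) : K ⧸ H.addSubgroupOf K) = p := by
      apply addOrderOf_eq_prime
      · rw [← QuotientAddGroup.mk_nsmul, QuotientAddGroup.eq_zero_iff,
          AddSubgroup.mem_addSubgroupOf]
        have : ((p • (⟨x, hxK⟩ : K) : K) : A) = 0 := by
          rw [AddSubgroup.coe_nsmul]
          exact hp x hxK
        rw [this]
        exact zero_mem H
      · intro h
        rw [QuotientAddGroup.eq_zero_iff, AddSubgroup.mem_addSubgroupOf] at h
        exact hxH h
    rw [← h]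
    exact addOrderOf_dvd_natCard _
  have h2 : Nat.card H * H.relIndex K = Nat.card K := by
    have := AddSubgroup.relIndex_mul_relIndex (⊥ : AddSubgroup A) H K bot_le hHK
    rwa [AddSubgroup.relIndex_bot_left, AddSubgroup.relIndex_bot_left] at this
  rw [← h2, mul_comm]
  exact mul_dvd_mul_left _ h1

/-- On the elements killed by `p` the power `(γ - 1)^(p^j)` is `γ^(p^j) - 1`. -/
lemma pow_apply {A : Type} [AddCommGroup A] {p : ℕ} [Fact p.Prime] (γ : AddMonoid.End A) (j : ℕ)
    {x : A} (hx : p • x = 0) : ((γ - 1) ^ (p ^ j) : AddMonoid.End A) x =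
      (γ ^ (p ^ j) - 1 : AddMonoid.End A) x := by
  obtain ⟨r, hr⟩ := Commute.exists_add_pow_prime_pow_eq (Fact.out : p.Prime)
    (Commute.one_right (γ - 1)) j
  rw [sub_add_cancel, one_pow] at hr
  set s : AddMonoid.End A := (γ - 1) * 1 * r with hs
  have h : ((γ - 1) ^ (p ^ j) : AddMonoid.End A) =
      (γ ^ (p ^ j) - 1) - (p : AddMonoid.End A) * s := by
    rw [hr, hs]
    simp only [mul_assoc]
    abel
  have h2 : ((p : AddMonoid.End A) * s) x = 0 := by
    rw [← nsmul_eq_mul]
    show p • s x = 0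
    rw [← map_nsmul, hx, map_zero]
  rw [h]
  show (γ ^ (p ^ j) - 1 : AddMonoid.End A) x - ((p : AddMonoid.End A) * s) x = _
  rw [h2, sub_zero]

/-- The elements killed by `p` and by `T^j`. -/
def VV {A : Type} [AddCommGroup A] (p : ℕ) (T : AddMonoid.End A) (j : ℕ) : AddSubgroup A :=
  (nsmulAddMonoidHom p : A →+ A).ker ⊓ AddMonoidHom.ker (T ^ j : AddMonoid.End A)

lemma mem_VV {A : Type} [AddCommGroup A] {p : ℕ} {T : AddMonoid.End A} {j : ℕ} {x : A} :
    x ∈ VV p T j ↔ p • x = 0 ∧ (T ^ j : AddMonoid.End A) x = 0 := Iff.rfl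

lemma VV_succ {A : Type} [AddCommGroup A] {p : ℕ} {T : AddMonoid.End A} {j : ℕ} :
    VV p T j ≤ VV p T (j + 1) := by
  intro x hx
  rw [mem_VV] at hx ⊢
  refine ⟨hx.1, ?_⟩
  rw [pow_succ']
  show T ((T ^ j : AddMonoid.End A) x) = 0
  rw [hx.2, map_zero]

lemma VV_stable {A : Type} [AddCommGroup A] {p : ℕ} {T : AddMonoid.End A} {j : ℕ}
    (h : VV p T j = VV p T (j + 1)) : ∀ i, j ≤ i → VV p T i = VV p T j := by
  intro i hi
  induction i, hi using Nat.le_induction with
  | base => rfl
  | succ i hi ih =>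
    refine le_antisymm ?_ (by rw [← ih]; exact VV_succ)
    intro x hx
    rw [mem_VV] at hx
    have h1 : T x ∈ VV p T i := by
      rw [mem_VV]
      refine ⟨by rw [← map_nsmul, hx.1, map_zero], ?_⟩
      have := hx.2
      rw [pow_succ] at this
      exact this
    rw [ih, mem_VV] at h1
    rw [h, mem_VV]
    refine ⟨hx.1, ?_⟩
    rw [pow_succ]
    exact h1.2

end ALG1

open ALG1 in
theorem t_ALG1 : S_ALG1 := by
  intro p m n _ A _ _ γ hγ hnm hv
  have hp : p.Prime := Fact.out
  set T : AddMonoid.End A := γ - 1 with hT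
  set W := AddMonoidHom.ker (γ ^ (p ^ n) - 1 : AddMonoid.End A) with hW
  have hWpos : Nat.card W ≠ 0 := Nat.card_ne_zero.mpr ⟨⟨0⟩, inferInstance⟩
  -- the whole of `A[p]`
  have htop : ∀ x : A, p • x = 0 → x ∈ VV p T (p ^ m) := by
    intro x hx
    rw [mem_VV]
    refine ⟨hx, ?_⟩
    rw [hT, pow_apply γ m hx, hγ]
    simp
  have hle : ∀ x : A, x ∈ VV p T (p ^ n) → x ∈ W := by
    intro x hx
    rw [mem_VV] at hx
    exact (pow_apply γ n hx.1).symm.trans hx.2
  have hall : ∀ x : A, p • x = 0 → x ∈ VV p T (p ^ n) := by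
    by_contra hcon
    push Not at hcon
    obtain ⟨x, hx, hxn⟩ := hcon
    have hne : ∀ j < p ^ n, VV p T j ≠ VV p T (j + 1) := by
      intro j hj heq
      have h1 := VV_stable heq (p ^ n) hj.le
      have h2 := VV_stable heq (p ^ m) (hj.le.trans (Nat.pow_le_pow_right hp.pos hnm))
      exact hxn (by rw [h1, ← h2]; exact htop x hx)
    have hdvd : ∀ j ≤ p ^ n, p ^ j ∣ Nat.card (VV p T j) := by
      intro j
      induction j with
      | zero => intro _; simp
      | succ j ih =>
        intro hj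
        rw [pow_succ']
        exact (mul_dvd_mul_left p (ih (by omega))).trans
          (dvd_step VV_succ (hne j (by omega)) fun y hy => (mem_VV.mp hy).1)
    have hd : p ^ (p ^ n) ∣ Nat.card W :=
      (hdvd _ le_rfl).trans (AddSubgroup.card_dvd_of_le (fun y hy => hle y hy))
    have := (padicValNat_dvd_iff_le hWpos).mp hd
    omega
  have hcard : Nat.card {x : A // p • x = 0} =
      Nat.card (nsmulAddMonoidHom p : A →+ A).ker := rfl
  rw [hcard]
  have hdv : Nat.card (nsmulAddMonoidHom p : A →+ A).ker ∣ Nat.card W :=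
    AddSubgroup.card_dvd_of_le (fun y hy => hle y (hall y hy))
  exact (padicValNat_dvd_iff_le hWpos).mp ((pow_padicValNat_dvd).trans hdv)

end Pool.Agent.RID
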