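import Pool.Agent.RID.St

/-!
# Module BND: the class number of `K M`
-/

open NumberField Finset
open scoped nonZeroDivisors Pointwise

namespace Pool.Agent.RID

open Pool.Agent.RI

namespace BND

/-- A product of finitely many subgroups of a finite commutative group. -/
lemma sup_card {κ C : Type} [CommGroup C] [Finite C] (l : List κ) (H : κ → Subgroup C)
    (n : κ → ℕ) (hn : ∀ i ∈ l, Nat.card (H i) ∣ n i) :
    ∃ S : Subgroup C, (∀ i ∈ l, H i ≤ S) ∧ Nat.card S ∣ (l.map n).prod := by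
  induction l with
  | nil => exact ⟨⊥, by simp, by simp⟩
  | cons i l ih =>
    obtain ⟨S, hS, hc⟩ := ih fun j hj => hn j (List.mem_cons_of_mem _ hj)
    refine ⟨H i ⊔ S, ?_, ?_⟩
    · intro j hj
      rcases List.mem_cons.1 hj with rfl | hj
      · exact le_sup_left
      · exact (hS j hj).trans le_sup_right
    · have h1 : Nat.card ↥(H i ⊔ S) = Nat.card S * S.relIndex (H i ⊔ S) := by
        have := Subgroup.relIndex_mul_relIndex ⊥ S (H i ⊔ S) bot_le le_sup_right
        rw [Subgroup.relIndex_bot_left, Subgroup.relIndex_bot_left] at this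
        exact this.symm
      have h2 : S.relIndex (H i ⊔ S) = S.relIndex (H i) := Subgroup.relIndex_sup_right _ _
      have h3 : S.relIndex (H i) ∣ Nat.card (H i) := by
        have := Subgroup.relIndex_dvd_card S (H i)
        exact this
      rw [h1, h2, List.map_cons, List.prod_cons, mul_comm]
      exact mul_dvd_mul (h3.trans (hn i (by simp))) hc

/-- Extension of ideal classes. -/
lemma exists_hom {E L : IntermediateField ℚ ℂ} [FiniteDimensional ℚ E] [FiniteDimensional ℚ L]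
    (h : E ≤ L) : ∃ φ : ClassGroup (𝓞 E) →* ClassGroup (𝓞 L),
      ∀ (I : Ideal (𝓞 E)) (I' : (Ideal (𝓞 L))⁰), (I' : Ideal (𝓞 L)) =
        I.map (RingOfIntegers.mapRingHom (IntermediateField.inclusion h : E →+* L)) →
        ClassGroup.mk0 I' ∈ φ.range := by
  let _ := algC h
  have hle : (prin : (E : Type)ˣ →* J E).range ≤ (prin : (L : Type)ˣ →* J L).range.comap (ext E L) := by
    rintro _ ⟨x, rfl⟩
    exact ⟨_, (ext_prin E L x).symm⟩
  refine ⟨(ClassGroup.equiv L).symm.toMonoidHom.comp ((QuotientGroup.map _ _ (ext E L) hle).comp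
    (ClassGroup.equiv E).toMonoidHom), ?_⟩
  intro I I' hI
  have hI0 : I ≠ 0 := by
    rintro rfl
    apply nonZeroDivisors.coe_ne_zero I'
    rw [hI]
    exact Ideal.map_bot
  refine ⟨ClassGroup.mk0 ⟨I, mem_nonZeroDivisors_of_ne_zero hI0⟩, ?_⟩
  have e1 : ext E L (FractionalIdeal.mk0 E ⟨I, mem_nonZeroDivisors_of_ne_zero hI0⟩) =
      FractionalIdeal.mk0 L I' := by
    apply Units.ext
    show FractionalIdeal.extendedHom L (𝓞 L) (I : FractionalIdeal (𝓞 E)⁰ E) = _
    rw [FractionalIdeal.extendedHom_coeIdeal_eq_map, FractionalIdeal.coe_mk0, hI]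
    rfl
  show (ClassGroup.equiv L).symm (QuotientGroup.map _ _ (ext E L) hle
    (ClassGroup.equiv E (ClassGroup.mk0 _))) = _
  rw [ClassGroup.equiv_mk0, MulEquiv.symm_apply_eq, ClassGroup.equiv_mk0, ← e1]
  rfl

end BND

theorem t_BND : S_BND := by
  intro p _ K M _ _ l hl
  classical
  have hpos : ∀ (H : Subgroup (ClassGroup (𝓞 ↥(K ⊔ M)))), Nat.card H ≠ 0 := fun H =>
    Nat.card_pos.ne'
  have hmul : classNo (K ⊔ M) = (fromSub (K ⊔ M) {D | ∃ E ∈ {E | E ∈ l}, D = E ⊔ M}).index *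
      Nat.card (fromSub (K ⊔ M) {D | ∃ E ∈ {E | E ∈ l}, D = E ⊔ M}) := by
    rw [Subgroup.index_mul_card]
    rfl
  have hidx : (fromSub (K ⊔ M) {D | ∃ E ∈ {E | E ∈ l}, D = E ⊔ M}).index ≠ 0 :=
    Subgroup.FiniteIndex.index_ne_zero
  have hv : padicValNat p (classNo (K ⊔ M)) = eOf p K M {E | E ∈ l} +
      padicValNat p (Nat.card (fromSub (K ⊔ M) {D | ∃ E ∈ {E | E ∈ l}, D = E ⊔ M})) := by
    rw [hmul, padicValNat.mul hidx (hpos _)]
    rfl
  refine ⟨by rw [hv]; exact Nat.le_add_right _ _, ?_⟩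
  rw [hv]
  apply Nat.add_le_add_left
  have hcl : ∀ E ∈ l, classNo (E ⊔ M) ≠ 0 := by
    intro E hE
    have : FiniteDimensional ℚ E :=
      Module.Finite.of_injective (IntermediateField.inclusion (hl E hE)).toLinearMap
        (IntermediateField.inclusion (hl E hE)).injective
    unfold classNo
    exact Nat.card_pos.ne'
  have hH : ∀ E ∈ l, ∃ H : Subgroup (ClassGroup (𝓞 ↥(K ⊔ M))), Nat.card H ∣ classNo (E ⊔ M) ∧
      ∀ (h : E ⊔ M ≤ K ⊔ M) (I : Ideal (𝓞 ↥(E ⊔ M))) (I' : (Ideal (𝓞 ↥(K ⊔ M)))⁰),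
        (I' : Ideal (𝓞 ↥(K ⊔ M))) = I.map (RingOfIntegers.mapRingHom
          (IntermediateField.inclusion h : ↥(E ⊔ M) →+* ↥(K ⊔ M))) →
        ClassGroup.mk0 I' ∈ H := by
    intro E hE
    have : FiniteDimensional ℚ E :=
      Module.Finite.of_injective (IntermediateField.inclusion (hl E hE)).toLinearMap
        (IntermediateField.inclusion (hl E hE)).injective
    obtain ⟨φ, hφ⟩ := BND.exists_hom (sup_le_sup_right (hl E hE) M)
    exact ⟨φ.range, Subgroup.card_range_dvd φ, fun h => hφ⟩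
  choose! H hH1 hH2 using hH
  obtain ⟨S, hS, hc⟩ := BND.sup_card l H (fun E => classNo (E ⊔ M)) hH1
  have hle : fromSub (K ⊔ M) {D | ∃ E ∈ {E | E ∈ l}, D = E ⊔ M} ≤ S := by
    unfold fromSub
    rw [Subgroup.closure_le]
    rintro c ⟨D, ⟨E, hE, rfl⟩, h, I, I', hI, rfl⟩
    exact hS E hE (hH2 E hE h I I' hI)
  have hd : Nat.card (fromSub (K ⊔ M) {D | ∃ E ∈ {E | E ∈ l}, D = E ⊔ M}) ∣
      (l.map fun E => classNo (E ⊔ M)).prod := (Subgroup.card_dvd_of_le hle).trans hc
  have hprod : ∀ l' : List (IntermediateField ℚ ℂ), (∀ E ∈ l', classNo (E ⊔ M) ≠ 0) →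
      (l'.map fun E => classNo (E ⊔ M)).prod ≠ 0 ∧
      padicValNat p (l'.map fun E => classNo (E ⊔ M)).prod =
        (l'.map fun E => padicValNat p (classNo (E ⊔ M))).sum := by
    intro l' hl'
    induction l' with
    | nil => simp
    | cons E l' ih =>
      obtain ⟨h1, h2⟩ := ih fun E' hE' => hl' E' (List.mem_cons_of_mem _ hE')
      have h3 := hl' E (by simp)
      simp only [List.map_cons, List.prod_cons, List.sum_cons]
      exact ⟨mul_ne_zero h3 h1, by rw [padicValNat.mul h3 h1, h2]⟩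
  obtain ⟨h1, h2⟩ := hprod l hcl
  rw [← h2]
  exact padicValNat_dvd_iff_le h1 |>.1 ((pow_padicValNat_dvd).trans hd)

end Pool.Agent.RID
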