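import Pool.Agent.RID.St
import Pool.Agent.RI.CHIEF

/-!
# CYCM: the next to last field in a cyclic extension of degree `p ^ (m + 1)`
-/

open NumberField

namespace Pool.Agent.RID

open Pool.Agent.RI

namespace CYCM

/-- A subgroup whose order is divisible by `p` contains a subgroup of order `p`. -/
lemma exists_sub_card {G : Type*} [Group G] [Finite G] {p : ℕ} [hp : Fact p.Prime]
    (N₁ : Subgroup G) (h : p ∣ Nat.card N₁) : ∃ N : Subgroup G, N ≤ N₁ ∧ Nat.card N = p := by
  obtain ⟨z, hz⟩ := exists_prime_orderOf_dvd_card' p h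
  refine ⟨Subgroup.zpowers (z : G), ?_, ?_⟩
  · rw [Subgroup.zpowers_le]
    exact z.2
  · rw [Nat.card_zpowers, Subgroup.orderOf_coe, hz]

/-- In a cyclic extension all intermediate fields are Galois. -/
lemma galois_of_cyclic {F E : Type*} [Field F] [Field E] [Algebra F E] [FiniteDimensional F E]
    [IsGalois F E] (hc : IsCyclic (E ≃ₐ[F] E)) (L : IntermediateField F E) : IsGalois F L := by
  have hN : L.fixingSubgroup.Normal := by
    refine ⟨fun n hn g => ?_⟩
    have hcomm : g * n = n * g := hc.isMulCommutative.is_comm.comm g n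
    rw [hcomm, mul_inv_cancel_right]
    exact hn
  have := IsGalois.of_fixedField_normal_subgroup L.fixingSubgroup
  rwa [IsGalois.fixedField_fixingSubgroup] at this

/-- ... with cyclic Galois group. -/
lemma cyclic_of_cyclic {F E : Type*} [Field F] [Field E] [Algebra F E] [FiniteDimensional F E]
    [IsGalois F E] (hc : IsCyclic (E ≃ₐ[F] E)) (L : IntermediateField F E) :
    IsCyclic (L ≃ₐ[F] L) := by
  have hg : IsGalois F L := galois_of_cyclic hc L
  exact isCyclic_of_surjective (AlgEquiv.restrictNormalHom (F := F) (K₁ := E) L)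
    (AlgEquiv.restrictNormalHom_surjective E)

/-- The intermediate field of degree `p ^ m`. -/
lemma exists_mid {F E : Type*} [Field F] [Field E] [Algebra F E] [FiniteDimensional F E]
    [IsGalois F E] {p m n : ℕ} [hp : Fact p.Prime] (hc : IsCyclic (E ≃ₐ[F] E))
    (hdeg : Module.finrank F E = p ^ (m + 1)) (L₁ : IntermediateField F E)
    (hf₁ : Module.finrank F L₁ = p ^ n) (hnm : n ≤ m) :
    ∃ L₀ : IntermediateField F E, L₁ ≤ L₀ ∧ IsGalois F L₀ ∧ IsCyclic (L₀ ≃ₐ[F] L₀) ∧
      Module.finrank F L₀ = p ^ m := by
  have hcN : Nat.card L₁.fixingSubgroup = p ^ (m + 1 - n) := by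
    rw [IsGalois.card_fixingSubgroup_eq_finrank]
    have := Module.finrank_mul_finrank F L₁ E
    rw [hf₁, hdeg, show m + 1 = n + (m + 1 - n) by omega, pow_add] at this
    exact Nat.eq_of_mul_eq_mul_left (pow_pos hp.out.pos _) this
  obtain ⟨N, hN, hNc⟩ := exists_sub_card (p := p) L₁.fixingSubgroup (by
    rw [hcN]
    exact dvd_pow_self p (by omega))
  refine ⟨IntermediateField.fixedField N, ?_, galois_of_cyclic hc _, cyclic_of_cyclic hc _, ?_⟩
  · have h := IntermediateField.fixedField_antitone hN
    rwa [IsGalois.fixedField_fixingSubgroup] at h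
  · have hfa : Module.finrank (IntermediateField.fixedField N) E = p := by
      rw [IntermediateField.finrank_fixedField_eq_card, hNc]
    have := Module.finrank_mul_finrank F (IntermediateField.fixedField N) E
    rw [hfa, hdeg, pow_succ] at this
    exact Nat.eq_of_mul_eq_mul_right hp.out.pos this

end CYCM

open CYCM in
theorem t_CYCM : S_CYCM := by
  intro p m n hp F M' M _ hM h₁ h₂ hgal hcyc hdeg hdeg' hnm
  have hfd : FiniteDimensional F (IntermediateField.extendScalars hM) :=
    Module.finite_of_finrank_pos (by rw [hdeg]; exact pow_pos hp.out.pos _)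
  have hle : IntermediateField.extendScalars h₁ ≤ IntermediateField.extendScalars hM := by
    intro x hx
    exact h₂ hx
  set L₁ : IntermediateField F (IntermediateField.extendScalars hM) :=
    IntermediateField.restrict hle with hL₁
  have hf₁ : Module.finrank F L₁ = p ^ n := by
    rw [← hdeg']
    exact (IntermediateField.restrictAlgEquiv hle).symm.toLinearEquiv.finrank_eq
  have hg₁ : IsGalois F (IntermediateField.extendScalars h₁) := by
    have := galois_of_cyclic hcyc L₁
    exact IsGalois.of_algEquiv (IntermediateField.restrictAlgEquiv hle).symm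
  refine ⟨hg₁, ?_⟩
  obtain ⟨L₀, hL₁₀, hg₀, hc₀, hf₀⟩ := exists_mid hcyc hdeg L₁ hf₁ hnm
  set M'' : IntermediateField ℚ ℂ :=
    (IntermediateField.lift L₀).restrictScalars ℚ with hM''
  have h₃ : F ≤ M'' := by
    intro x hx
    have : ((algebraMap F ℂ) ⟨x, hx⟩) ∈ IntermediateField.lift L₀ :=
      (IntermediateField.lift L₀).algebraMap_mem _
    exact this
  have h₄ : M'' ≤ M := by
    intro x hx
    have : x ∈ IntermediateField.lift L₀ := hx
    exact IntermediateField.lift_le L₀ this
  have h₅ : M' ≤ M'' := by
    intro x hx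
    have h6 : (⟨x, h₂ hx⟩ : IntermediateField.extendScalars hM) ∈ L₁ := by
      rw [hL₁]
      exact (IntermediateField.mem_restrict hle _).2 hx
    exact (IntermediateField.mem_lift (⟨x, h₂ hx⟩ : IntermediateField.extendScalars hM)).2
      (hL₁₀ h6)
  have he : IntermediateField.extendScalars h₃ = IntermediateField.lift L₀ := by
    ext x; rfl
  have hf₃ : Module.finrank F (IntermediateField.extendScalars h₃) = p ^ m := by
    rw [he, ← hf₀]
    exact (IntermediateField.liftAlgEquiv L₀).symm.toLinearEquiv.finrank_eq
  refine ⟨M'', h₃, h₄, h₅, ?_, ?_, hf₃, ?_, ?_⟩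
  · rw [he]
    exact IsGalois.of_algEquiv (IntermediateField.liftAlgEquiv L₀)
  · rw [he]
    exact isCyclic_of_surjective
      (AlgEquiv.autCongr (IntermediateField.liftAlgEquiv L₀)).toMonoidHom
      (AlgEquiv.autCongr (IntermediateField.liftAlgEquiv L₀)).surjective
  all_goals
    have hfM : Module.finrank M'' (IntermediateField.extendScalars h₄) = p := by
      have := CHIEF.finrank_mul h₃ h₄
      rw [hf₃, hdeg, pow_succ] at this
      exact Nat.eq_of_mul_eq_mul_left (pow_pos hp.out.pos _) this
  · have hgM : IsGalois M'' (IntermediateField.extendScalars h₄) := by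
      let _ := algC h₃
      let _ := algC h₄
      let _ := algC hM
      have : IsScalarTower F M'' M := towerC h₃ h₄
      have : IsGalois F M := (isGalois_algC hM).2 hgal
      exact (isGalois_algC h₄).1 (IsGalois.tower_top_of_isGalois F M'' M)
    have hfd' : FiniteDimensional M'' (IntermediateField.extendScalars h₄) :=
      Module.finite_of_finrank_pos (by rw [hfM]; exact hp.out.pos)
    exact isCyclic_of_prime_card (p := p) (by rw [IsGalois.card_aut_eq_finrank, hfM])
  · exact hfM

end Pool.Agent.RID
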