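import Pool.Agent.RID.St
import Pool.Agent.RI.INVI
import Pool.Agent.RI.COUNTACT
import Pool.Agent.RI.COUNTEXT

/-!
# Decomposition fields and the growth of class groups: module INVE
-/

open NumberField Finset IsDedekindDomain
open scoped nonZeroDivisors Pointwise

namespace Pool.Agent.RID

open Pool.Agent.RI

/-- INVE: invariant ideals with trivial norms. -/
theorem t_INVE (hCYC : S_CYC) : S_INVE := by
  intro F K L κ _ _ _ _ _ _ _ _ _ _ l N g q hg hram b hb hgb
  obtain ⟨hgal, -, -, -, -, hinv, -⟩ := hCYC F K L g q hg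
  have hcount : ∀ w : HeightOneSpectrum (𝓞 L), w.asIdeal.ramificationIdx (𝓞 K) ≠ 1 →
      FractionalIdeal.count L w (b : FractionalIdeal (𝓞 L)⁰ L) = 0 := by
    intro w hw
    obtain ⟨i, hi, hN⟩ := hram w hw
    have hfin : Finite (N i) := inferInstance
    letI : Fintype (N i) := Fintype.ofFinite _
    have h1 : nuS (N i) b = 1 := (mem_part.1 hb) i hi
    rw [nuS_apply] at h1
    have e1 : ∀ σ : N i, FractionalIdeal.count L w
        (((σ : L ≃ₐ[F] L) • b : J L) : FractionalIdeal (𝓞 L)⁰ L) =
          FractionalIdeal.count L w (b : FractionalIdeal (𝓞 L)⁰ L) :=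
      fun σ => COUNTACT_thm F L (σ : L ≃ₐ[F] L) w w (hN σ σ.2).symm b
    have e2 : FractionalIdeal.count L w
        ((∏ σ : N i, (σ : L ≃ₐ[F] L) • b : J L) : FractionalIdeal (𝓞 L)⁰ L) = 0 := by
      rw [h1, Units.val_one, FractionalIdeal.count_one]
    rw [Units.coe_prod, FractionalIdeal.count_prod _ _ _ _
      (fun (σ : N i) _ => ((σ : L ≃ₐ[F] L) • b : J L).ne_zero),
      Finset.sum_congr rfl (fun σ _ => e1 σ), Finset.sum_const, nsmul_eq_mul] at e2
    rcases mul_eq_zero.mp e2 with e3 | e3
    · exfalso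
      have e4 : (univ : Finset (N i)).card = 0 := by exact_mod_cast e3
      rw [Finset.card_univ] at e4
      exact Fintype.card_ne_zero e4
    · exact e3
  exact INVI_thm COUNTACT_thm COUNTEXT_thm K L b (hinv b hgb) hcount

end Pool.Agent.RID
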