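import Pool.Agent.RID.St
import Pool.Agent.RI.CHIEF

/-!
# Module RID_MAIN2: linear growth in cyclic extensions (helper69)
-/

open NumberField Finset IsDedekindDomain
open scoped nonZeroDivisors Pointwise

namespace Pool.Agent.RID

open Pool.Agent.RI

namespace MAIN2

lemma fd_of_le {E F : IntermediateField ℚ ℂ} (h : E ≤ F) [FiniteDimensional ℚ F] :
    FiniteDimensional ℚ E :=
  FiniteDimensional.of_injective (IntermediateField.inclusion h).toLinearMap
    (IntermediateField.inclusion h).injective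

/-- Equal degrees over `F` and `M' ≤ M` give `M' = M`. -/
lemma eq_of_finrank {F M' M : IntermediateField ℚ ℂ} [FiniteDimensional ℚ M] (h₁ : F ≤ M')
    (h₂ : M' ≤ M)
    (h : Module.finrank F (IntermediateField.extendScalars h₁) =
      Module.finrank F (IntermediateField.extendScalars (h₁.trans h₂)))
    (h0 : 0 < Module.finrank F (IntermediateField.extendScalars h₁)) : M' = M := by
  have e := CHIEF.finrank_mul h₁ h₂
  rw [← h] at e
  have e1 : Module.finrank M' (IntermediateField.extendScalars h₂) = 1 := by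
    refine Nat.eq_of_mul_eq_mul_left h0 ?_
    rw [mul_one]
    exact e
  rw [IntermediateField.finrank_eq_one_iff] at e1
  refine le_antisymm h₂ fun x hx => ?_
  have hx' : x ∈ IntermediateField.extendScalars h₂ := hx
  rw [e1, IntermediateField.mem_bot] at hx'
  obtain ⟨y, rfl⟩ := hx'
  exact y.2

lemma orderOf_pow_pp {G : Type*} [Group G] {p : ℕ} [hp : Fact p.Prime] (g : G) {n N : ℕ}
    (hn : n ≤ N) (hg : orderOf g = p ^ N) : orderOf (g ^ (p ^ n)) = p ^ (N - n) := by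
  rw [orderOf_pow_of_dvd (pow_ne_zero _ hp.out.ne_zero) (by rw [hg]; exact pow_dvd_pow _ hn), hg,
    Nat.pow_div hn hp.out.pos]

/-- One step of the induction. -/
lemma step (hCDR : S_CDR) (hSYSC : S_SYSC) (hGCC : S_GCC) (hGCP : S_GCP) (hSTEPN : S_STEPN)
    (hGENC : S_GENC) (p m n : ℕ) [Fact p.Prime] (F K M' M'' M : IntermediateField ℚ ℂ)
    [FiniteDimensional ℚ F] [FiniteDimensional ℚ K] [FiniteDimensional ℚ M']
    [FiniteDimensional ℚ M''] [FiniteDimensional ℚ M] (l : List (IntermediateField ℚ ℂ))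
    (cd : CD p F K M l) (hM : F ≤ M) (h₁ : F ≤ M') (h₂ : M' ≤ M) (h₃ : F ≤ M'') (h₄ : M'' ≤ M)
    (cyc : IsCyclic ((IntermediateField.extendScalars hM) ≃ₐ[F]
      (IntermediateField.extendScalars hM)))
    (g₁ : IsGalois F (IntermediateField.extendScalars h₁))
    (g₃ : IsGalois F (IntermediateField.extendScalars h₃))
    (d₁ : Module.finrank F (IntermediateField.extendScalars h₁) = p ^ n)
    (d₃ : Module.finrank F (IntermediateField.extendScalars h₃) = p ^ m)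
    (d : Module.finrank F (IntermediateField.extendScalars hM) = p ^ (m + 1)) (hnm : n ≤ m)
    (he : eOf p K M' {E | E ∈ l} < p ^ n) :
    eOf p K M {E | E ∈ l} ≤ eOf p K M'' {E | E ∈ l} + eOf p K M' {E | E ∈ l} := by
  have hK : F ≤ K := cd.hK
  have hFL : F ≤ K ⊔ M := hK.trans le_sup_left
  have hF1 : F ≤ K ⊔ M' := hK.trans le_sup_left
  have hF2 : F ≤ K ⊔ M'' := hK.trans le_sup_left
  have h1L : K ⊔ M' ≤ K ⊔ M := sup_le_sup_left h₂ K
  have h2L : K ⊔ M'' ≤ K ⊔ M := sup_le_sup_left h₄ K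
  have cd1 : CD p F K M' l := hCDR p F K M' M l cd h₁ h₂ g₁
  have cd2 : CD p F K M'' l := hCDR p F K M'' M l cd h₃ h₄ g₃
  let aFL : Algebra F ↥(K ⊔ M) := algC hFL
  let aF1 : Algebra F ↥(K ⊔ M') := algC hF1
  let aF2 : Algebra F ↥(K ⊔ M'') := algC hF2
  let a1L : Algebra ↥(K ⊔ M') ↥(K ⊔ M) := algC h1L
  let a2L : Algebra ↥(K ⊔ M'') ↥(K ⊔ M) := algC h2L
  have t1 : IsScalarTower F ↥(K ⊔ M') ↥(K ⊔ M) := towerC hF1 h1L
  have t2 : IsScalarTower F ↥(K ⊔ M'') ↥(K ⊔ M) := towerC hF2 h2L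
  obtain ⟨γ, hγo, hγf⟩ := hGCC p F K F M l cd le_rfl hM cyc hFL
  rw [sup_eq_left.2 hK] at hγf
  rw [d] at hγo
  have f1 := hGCP p n F K M' M l cd h₁ h₂ d₁ hFL γ hγf
  have f2 := hGCP p m F K M'' M l cd h₃ h₄ d₃ hFL γ hγf
  have c1 : CycExt F ↥(K ⊔ M') ↥(K ⊔ M) (γ ^ (p ^ n)) (p ^ (m + 1 - n)) := by
    refine ⟨orderOf_pow_pp γ (by omega) hγo, fun x => (f1 x).trans ?_⟩
    constructor
    · intro hx
      exact ⟨⟨(x : ℂ), hx⟩, rfl⟩
    · rintro ⟨y, rfl⟩
      exact y.2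
  have c2 : CycExt F ↥(K ⊔ M'') ↥(K ⊔ M) (γ ^ (p ^ m)) (p ^ 1) := by
    refine ⟨?_, fun x => (f2 x).trans ?_⟩
    · rw [orderOf_pow_pp γ (Nat.le_succ m) hγo, Nat.succ_sub le_rfl, Nat.sub_self]
    constructor
    · intro hx
      exact ⟨⟨(x : ℂ), hx⟩, rfl⟩
    · rintro ⟨y, rfl⟩
      exact y.2
  have s1 := hSYSC p (m + 1 - n) F K M' M l cd h₁ h₂ g₁ hF1 h1L (γ ^ (p ^ n)) c1
  have s2 := hSYSC p 1 F K M'' M l cd h₃ h₄ g₃ hF2 h2L (γ ^ (p ^ m)) c2
  have e0 := hGENC p F K M l cd hFL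
  have e1 := hGENC p F K M' l cd1 hF1
  have e2 := hGENC p F K M'' l cd2 hF2
  have key := hSTEPN p m n F ↥(K ⊔ M') ↥(K ⊔ M'') ↥(K ⊔ M) (IntermediateField ℚ ℂ) l
    (fun E => NC hF1 (E ⊔ M')) (fun E => NC hF2 (E ⊔ M'')) (fun E => NC hFL (E ⊔ M)) γ hnm hγo
    s1 s2 (by rw [e1]; exact he)
  rw [e0, e1, e2] at key
  exact key

end MAIN2

open MAIN2 in
theorem t_MAIN2 (hCDR : S_CDR) (hCYCM : S_CYCM) (hSYSC : S_SYSC) (hGCC : S_GCC) (hGCP : S_GCP)
    (hSTEPN : S_STEPN) (hGENC : S_GENC) : S_MAIN2 := by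
  intro p n m hp F K M' M fF fK fM' fM l cd hM h₁ h₂ cyc d₁ d he
  induction m generalizing M with
  | zero =>
    have e := CHIEF.finrank_mul h₁ h₂
    rw [d₁, d, pow_zero] at e
    have hn : n = 0 := by
      have h1 : p ^ n = 1 := Nat.eq_one_of_mul_eq_one_right e
      rcases Nat.eq_zero_or_pos n with h | h
      · exact h
      · exact absurd h1 (Nat.one_lt_pow h.ne' hp.out.one_lt).ne'
    subst hn
    have hMM : M' = M := eq_of_finrank h₁ h₂ (by rw [d₁, d]) (by rw [d₁]; exact pow_pos hp.out.pos _)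
    subst hMM
    simp
  | succ m ih =>
    have e := CHIEF.finrank_mul h₁ h₂
    rw [d₁, d] at e
    have hnm : n ≤ m + 1 := (Nat.pow_dvd_pow_iff_le_right hp.out.one_lt).1 ⟨_, e.symm⟩
    rcases Nat.lt_or_ge m n with h | h
    · have hn : n = m + 1 := by omega
      subst hn
      have hMM : M' = M :=
        eq_of_finrank h₁ h₂ (by rw [d₁, d]) (by rw [d₁]; exact pow_pos hp.out.pos _)
      subst hMM
      simp
    · obtain ⟨g₁, M'', h₃, h₄, h₅, g₃, c₃, d₃, _, _⟩ :=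
        hCYCM p m n F M' M hM h₁ h₂ cd.gM cyc d d₁ h
      have fM'' : FiniteDimensional ℚ M'' := fd_of_le h₄
      have cd2 : CD p F K M'' l := hCDR p F K M'' M l cd h₃ h₄ g₃
      have i1 := ih M'' cd2 h₃ h₅ c₃ d₃
      have i2 := step hCDR hSYSC hGCC hGCP hSTEPN hGENC p m n F K M' M'' M l cd hM h₁ h₂ h₃ h₄
        cyc g₁ g₃ d₁ d₃ d h he
      have e3 : m + 1 - n + 1 = (m - n + 1) + 1 := by omega
      rw [e3, add_mul, one_mul]
      omega

end Pool.Agent.RID
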