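import Pool.Agent.RID.St
import Pool.Agent.RI.BCH

/-!
# Decomposition fields and the growth of class groups: module MAIN3
-/

open NumberField Finset IsDedekindDomain
open scoped nonZeroDivisors Pointwise

namespace Pool.Agent.RID

open Pool.Agent.RI

namespace MAIN3

lemma index_congr {L L' : IntermediateField ℚ ℂ} [i : FiniteDimensional ℚ L]
    [i' : FiniteDimensional ℚ L'] {S S' : Set (IntermediateField ℚ ℂ)} (h : L = L')
    (hS : S = S') : (fromSub L S).index = (fromSub L' S').index := by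
  subst h
  subst hS
  rfl

lemma eOf_congr (p : ℕ) {F K B : IntermediateField ℚ ℂ} [FiniteDimensional ℚ F]
    [FiniteDimensional ℚ K] [FiniteDimensional ℚ B] {l : List (IntermediateField ℚ ℂ)}
    (hK : F ≤ K) (hl : ∀ E ∈ l, F ≤ E) :
    eOf p K (F ⊔ B) {E | E ∈ l} = eOf p K B {E | E ∈ l} := by
  unfold eOf
  congr 1
  apply index_congr
  · rw [← sup_assoc, sup_eq_left.2 hK]
  · ext D
    constructor
    · rintro ⟨E, hE, rfl⟩
      exact ⟨E, hE, by rw [← sup_assoc, sup_eq_left.2 (hl E hE)]⟩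
    · rintro ⟨E, hE, rfl⟩
      exact ⟨E, hE, by rw [← sup_assoc, sup_eq_left.2 (hl E hE)]⟩

lemma exists_pow (p a : ℕ) (hp : 2 ≤ p) : ∃ n, a * (n + 1) < p ^ n := by
  have h1 : ∃ n, a * (n + 1) < 2 ^ n := by
    refine ⟨2 * a + 2, ?_⟩
    have h2 : ∀ k : ℕ, k < 2 ^ k := fun k => Nat.lt_two_pow_self
    have h3 : 2 ^ (2 * a + 2) = 4 * 2 ^ a * 2 ^ a := by ring
    have h4 : a + 1 ≤ 2 ^ a := h2 a
    have h5 : (a + 1) * (a + 1) ≤ 2 ^ a * 2 ^ a := Nat.mul_le_mul h4 h4
    rw [h3]
    nlinarith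
  obtain ⟨n, hn⟩ := h1
  exact ⟨n, hn.trans_le (Nat.pow_le_pow_left hp n)⟩

lemma sum_bound {κ : Type} (l : List κ) (f : κ → ℕ → ℕ)
    (h : ∀ E ∈ l, ∃ C : ℕ, ∀ n, f E n ≤ C * (n + 1)) :
    ∃ C : ℕ, ∀ n, (l.map fun E => f E n).sum ≤ C * (n + 1) := by
  induction l with
  | nil => exact ⟨0, fun n => by simp⟩
  | cons E l ih =>
    obtain ⟨C, hC⟩ := ih fun E' hE' => h E' (by simp [hE'])
    obtain ⟨D, hD⟩ := h E (by simp)
    refine ⟨D + C, fun n => ?_⟩
    rw [List.map_cons, List.sum_cons, add_mul]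
    exact Nat.add_le_add (hD n) (hC n)

/-- Intermediate steps of a Galois extension. -/
lemma gal_top {F E K : IntermediateField ℚ ℂ} [FiniteDimensional ℚ K] (hK : F ≤ K) (h : F ≤ E)
    (hE : E ≤ K) (hg : IsGalois F (IntermediateField.extendScalars hK)) :
    IsGalois E (IntermediateField.extendScalars hE) ∧
      Module.finrank E (IntermediateField.extendScalars hE) ∣
        Module.finrank F (IntermediateField.extendScalars hK) := by
  let : Algebra F E := algC h
  let : Algebra F (IntermediateField.extendScalars hE) :=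
    ((algebraMap E (IntermediateField.extendScalars hE)).comp (algebraMap F E)).toAlgebra
  have : IsScalarTower F E (IntermediateField.extendScalars hE) :=
    IsScalarTower.of_algebraMap_eq fun _ => rfl
  let e : (IntermediateField.extendScalars hK) ≃ₐ[F] (IntermediateField.extendScalars hE) :=
    { toFun := fun x => ⟨x.1, x.2⟩
      invFun := fun x => ⟨x.1, x.2⟩
      left_inv := fun _ => rfl
      right_inv := fun _ => rfl
      map_mul' := fun _ _ => rfl
      map_add' := fun _ _ => rfl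
      commutes' := fun _ => rfl }
  have h1 : IsGalois F (IntermediateField.extendScalars hE) := IsGalois.of_algEquiv e
  refine ⟨IsGalois.tower_top_of_isGalois F E _, ?_⟩
  rw [e.toLinearEquiv.finrank_eq, ← Module.finrank_mul_finrank F E
    (IntermediateField.extendScalars hE)]
  exact Dvd.intro_left _ rfl

end MAIN3

open MAIN3 in
theorem t_MAIN3 (hMAIN2 : S_MAIN2) (hBND : S_BND) (hINJ : S_INJ) (hCDL : S_CDL) : S_MAIN3 := by
  intro p _ F K _ l hK B _ hg hp hl hmem hdec hmon hlay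
  have hfF : FiniteDimensional ℚ F := FiniteDimensional.of_injective
    (IntermediateField.inclusion hK).toLinearMap (IntermediateField.inclusion hK).toRingHom.injective
  have hpp : p.Prime := Fact.out
  have hcd := fun n => hCDL p n F K (B n) l hK hg hp hl hmem hdec (hlay n)
  have hFE : ∀ E ∈ l, F ≤ E := fun E hE => (hmem E hE).1
  have hEK : ∀ E ∈ l, E ≤ K := fun E hE => (hmem E hE).2.1
  have he : ∀ n, eOf p K (F ⊔ B n) {E | E ∈ l} = eOf p K (B n) {E | E ∈ l} :=
    fun n => eOf_congr p hK hFE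
  have hbnd := fun n => hBND p K (B n) l hEK
  have hF0 : 0 < Module.finrank ℚ F := Module.finrank_pos
  constructor
  · rintro ⟨C, hC⟩
    constructor
    · intro E hE
      refine ⟨C, fun n => ?_⟩
      refine le_trans ?_ (hC n)
      obtain ⟨g1, d1⟩ := gal_top hK (hFE E hE) (hEK E hE) hg
      have h1 : E ⊔ B n ≤ K ⊔ B n := sup_le_sup_right (hEK E hE) _
      obtain ⟨g2, d2⟩ := BCH_thm.1 E K (B n) (E ⊔ B n) (K ⊔ B n) (hEK E hE) h1 rfl rfl g1
      exact hINJ p (E ⊔ B n) (K ⊔ B n) h1 g2 fun h => hp (h.trans (d2.trans d1))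
    · obtain ⟨n, hn⟩ := exists_pow p (C * Module.finrank ℚ F) hpp.two_le
      refine ⟨n, ?_⟩
      obtain ⟨-, -, c, hc, -, hc2⟩ := hcd n
      rw [hc]
      have h1 : eOf p K (B n) {E | E ∈ l} ≤ C * (n + 1) := (hbnd n).1.trans (hC n)
      have h2 : eOf p K (B n) {E | E ∈ l} * Module.finrank ℚ F <
          p ^ c * Module.finrank ℚ F := by
        refine lt_of_lt_of_le (lt_of_le_of_lt (Nat.mul_le_mul_right _ h1) ?_) hc2
        calc C * (n + 1) * Module.finrank ℚ F = C * Module.finrank ℚ F * (n + 1) := by ring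
          _ < p ^ n := hn
      exact lt_of_mul_lt_mul_right h2 hF0.le
  · rintro ⟨hE, n₀, hn₀⟩
    obtain ⟨C, hC⟩ := sum_bound l (fun E n => padicValNat p (classNo (E ⊔ B n))) hE
    obtain ⟨-, -, c₀, hc₀, hc₀n, -⟩ := hcd n₀
    rw [hc₀] at hn₀
    have key : ∀ n, n₀ ≤ n → eOf p K (B n) {E | E ∈ l} ≤
        eOf p K (B n₀) {E | E ∈ l} * (n + 1) := by
      intro n hn
      obtain ⟨h1, h2, c, hc, hcn, -⟩ := hcd n
      have h3 := hMAIN2 p c₀ c F K (F ⊔ B n₀) (F ⊔ B n) l h1 le_sup_left le_sup_left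
        (sup_le_sup_left (hmon hn) F) h2 hc₀ hc (by rw [he]; exact hn₀)
      rw [he, he] at h3
      refine h3.trans ?_
      rw [mul_comm]
      exact Nat.mul_le_mul_left _ (by omega)
    refine ⟨(∑ i ∈ range n₀, eOf p K (B i) {E | E ∈ l}) + eOf p K (B n₀) {E | E ∈ l} + C,
      fun n => (hbnd n).2.trans ?_⟩
    rw [add_mul]
    refine Nat.add_le_add ?_ (hC n)
    rw [add_mul]
    rcases le_or_gt n₀ n with h | h
    · exact (key n h).trans (Nat.le_add_left _ _)
    · refine le_trans ?_ (Nat.le_add_right _ _)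
      have h1 : eOf p K (B n) {E | E ∈ l} ≤ ∑ i ∈ range n₀, eOf p K (B i) {E | E ∈ l} :=
        Finset.single_le_sum (f := fun i => eOf p K (B i) {E | E ∈ l}) (fun _ _ => Nat.zero_le _)
          (mem_range.2 h)
      exact h1.trans (Nat.le_mul_of_pos_right _ (Nat.succ_pos n))

end Pool.Agent.RID
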