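import Pool.Agent.RID.St

open NumberField Finset
open scoped nonZeroDivisors Pointwise

namespace Pool.Agent.RID

open Pool.Agent.RI

namespace RK4

/-- `1` for the empty list, `0` otherwise. -/
def dl {κ : Type} : List κ → ℕ
  | [] => 1
  | _ :: _ => 0

lemma coprime_sup {G : Type} [Group G] [Finite G] {p : ℕ} {H N : Subgroup G} (hN : N.Normal)
    (hH : (Nat.card H).Coprime p) (hNp : (Nat.card N).Coprime p) :
    (Nat.card (H ⊔ N : Subgroup G)).Coprime p := by
  have h1 : Nat.card N * N.relIndex (H ⊔ N) = Nat.card (H ⊔ N : Subgroup G) := by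
    have h2 := Subgroup.relIndex_mul_relIndex (⊥ : Subgroup G) N (H ⊔ N) bot_le le_sup_right
    rwa [Subgroup.relIndex_bot_left, Subgroup.relIndex_bot_left] at h2
  have h3 : N.relIndex (H ⊔ N) = N.relIndex H := by
    exact Subgroup.relIndex_sup_right H N
  have h4 : N.relIndex H ∣ Nat.card H := Subgroup.relIndex_dvd_card N H
  rw [← h1, h3]
  exact Nat.Coprime.mul_left hNp (Nat.Coprime.coprime_dvd_left h4 hH)

end RK4

open RK4 in
theorem t_RK4 (hRK1 : S_RK1) (hRK2 : S_RK2) (hRK3 : S_RK3) (hCYC : S_CYC) : S_RK4 := by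
  intro p a _ F K L κ _ _ _ _ _ _ _ _ _ _ l N' N g hS i hi
  have := hS.galL
  have hfree := (hCYC F K L g (p ^ a) hS.cyc).2.2.2.2.2.2.2.2.2.2 hS.inf
  have key : ∀ l' : List κ, (∀ j ∈ l', j ∈ l) → ∀ H : Subgroup (L ≃ₐ[F] L),
      (Nat.card H).Coprime p → (∀ h ∈ H, h * g = g * h) →
      Module.finrank ℤ (Additive (WU l' N (H ⊔ Subgroup.zpowers (g ^ (p ^ i))))) + dl l'
        = p ^ i * (Module.finrank ℤ (Additive (WU l' N (H ⊔ Subgroup.zpowers g))) + dl l') := by
    intro l'
    induction l' with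
    | nil =>
      intro _ H hH hcom
      have h1 := hRK1 F L κ N (H ⊔ Subgroup.zpowers (g ^ (p ^ i)))
      have h2 := hRK1 F L κ N (H ⊔ Subgroup.zpowers g)
      have h3 := hRK2 p a (L ≃ₐ[F] L) (InfinitePlace L) g H hS.cyc.ord hH hcom hfree i hi
      simp only [dl]
      rw [h1, h2, h3]
    | cons j l'' ih =>
      intro hmem H hH hcom
      have hj : j ∈ l := hmem j (by simp)
      have hmem' : ∀ j' ∈ l'', j' ∈ l := fun j' hj' => hmem j' (by simp [hj'])
      have hnrm : ∀ j' ∈ j :: l'', (N j').Normal := fun j' hj' => hS.nrm j' (hmem j' hj')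
      have e1 := ih hmem' H hH hcom
      have hcom' : ∀ h ∈ H ⊔ N j, h * g = g * h := by
        intro h hh
        have h1 : H ⊔ N j ≤ Subgroup.centralizer {g} := by
          refine sup_le ?_ ?_
          · intro x hx
            rw [Subgroup.mem_centralizer_singleton_iff]
            exact hcom x hx
          · intro x hx
            rw [Subgroup.mem_centralizer_singleton_iff]
            exact hS.com j hj x hx
        have h2 := h1 hh
        rw [Subgroup.mem_centralizer_singleton_iff] at h2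
        exact h2
      have e2 := ih hmem' (H ⊔ N j) (coprime_sup (hS.nrm j hj) hH (hS.cop j hj)) hcom'
      have r1 := (hRK3 F L κ l'' j N (H ⊔ Subgroup.zpowers (g ^ (p ^ i))) hnrm).2
      have r2 := (hRK3 F L κ l'' j N (H ⊔ Subgroup.zpowers g) hnrm).2
      rw [sup_right_comm] at r1 r2
      simp only [dl, add_zero]
      set A := Module.finrank ℤ (Additive (WU (j :: l'') N (H ⊔ Subgroup.zpowers (g ^ (p ^ i)))))
      set A0 := Module.finrank ℤ (Additive (WU (j :: l'') N (H ⊔ Subgroup.zpowers g)))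
      set B := Module.finrank ℤ (Additive (WU l'' N (H ⊔ N j ⊔ Subgroup.zpowers (g ^ (p ^ i)))))
      set B0 := Module.finrank ℤ (Additive (WU l'' N (H ⊔ N j ⊔ Subgroup.zpowers g)))
      set C := Module.finrank ℤ (Additive (WU l'' N (H ⊔ Subgroup.zpowers (g ^ (p ^ i)))))
      set C0 := Module.finrank ℤ (Additive (WU l'' N (H ⊔ Subgroup.zpowers g)))
      have h5 : A + B + dl l'' = p ^ i * A0 + (B + dl l'') := by
        rw [e2, r1, e1, ← r2]; ring
      omega
  have h0 := key l (fun _ h => h) ⊥ (by simp) (by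
    intro h hh
    rw [Subgroup.mem_bot] at hh
    rw [hh, one_mul, mul_one])
  rw [bot_sup_eq, bot_sup_eq] at h0
  have hdl : dl l = 0 := by
    have := hS.ne
    cases l with
    | nil => exact absurd rfl this
    | cons _ _ => rfl
  rw [hdl, add_zero, add_zero] at h0
  exact h0

end Pool.Agent.RID
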