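import Pool.Agent.RID.St
import Pool.Agent.RI.BCH
import Pool.Agent.RI.TSTEP
import Pool.Agent.RI.NSN
import Pool.Agent.RI.RAMB

/-!
# Decomposition fields: ramified primes
-/

open NumberField IsDedekindDomain
open scoped nonZeroDivisors Pointwise

namespace Pool.Agent.RID

open Pool.Agent.RI Pool.Agent.RI.TSTEP

namespace SCR

/-- Two automorphisms with the same underlying map act on ideals in the same way. -/
lemma smul_eq {F D L : Type} [Field F] [Field D] [Field L] [Algebra F L] [Algebra D L]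
    (σ : L ≃ₐ[F] L) (τ : L ≃ₐ[D] L) (h : ∀ x, σ x = τ x) (w : Ideal (𝓞 L)) :
    σ • w = τ • w := by
  ext x
  rw [Ideal.mem_pointwise_smul_iff_inv_smul_mem, Ideal.mem_pointwise_smul_iff_inv_smul_mem]
  have h : σ⁻¹ • x = τ⁻¹ • x := by
    apply RingOfIntegers.ext
    show σ⁻¹ (x : L) = τ⁻¹ (x : L)
    apply τ.injective
    have e1 : τ (τ⁻¹ (x : L)) = x := τ.apply_symm_apply _
    have e2 : σ (σ⁻¹ (x : L)) = x := σ.apply_symm_apply _
    rw [e1, ← h]
    exact e2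
  rw [h]

/-- Change of the base field of an automorphism. -/
lemma exists_aut {F D L : Type} [Field F] [Field D] [Field L] [Algebra F L] [Algebra D L]
    (σ : L ≃ₐ[F] L) (h : ∀ d : D, σ (algebraMap D L d) = algebraMap D L d) :
    ∃ τ : L ≃ₐ[D] L, ∀ x, σ x = τ x :=
  ⟨AlgEquiv.ofRingEquiv (f := (σ : L ≃+* L)) h, fun _ => rfl⟩

end SCR

theorem t_SCR : S_SCR := by
  intro p _ F K M' M fdK fdM' fdM l hCD h₁ h₂ gM' h h' w hw
  obtain ⟨hBCH1, hBCH2⟩ := BCH_thm
  have hK := hCD.hK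
  have gM := hCD.gM
  have gK := hCD.gK
  have hpr : p.Prime := Fact.out
  have hK'L : K ⊔ M' ≤ K ⊔ M := h'
  have hML : M ≤ K ⊔ M := le_sup_right
  have hKL : K ≤ K ⊔ M := le_sup_left
  have hFM : F ≤ M := h₁.trans h₂
  have hFL : F ≤ K ⊔ M := hK.trans le_sup_left
  have hM'K' : M' ≤ K ⊔ M' := le_sup_right
  have hM'L : M' ≤ K ⊔ M := h₂.trans hML
  have fdF : FiniteDimensional ℚ F := fd_of_le hK
  have fdL : FiniteDimensional ℚ ↥(K ⊔ M) := inferInstance
  let aFK : Algebra F K := algC hK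
  let aFM' : Algebra F M' := algC h₁
  let aFM : Algebra F M := algC hFM
  let aFL : Algebra F ↥(K ⊔ M) := algC hFL
  let aKL : Algebra K ↥(K ⊔ M) := algC hKL
  let aM'M : Algebra M' M := algC h₂
  let aM'K' : Algebra M' ↥(K ⊔ M') := algC hM'K'
  let aM'L : Algebra M' ↥(K ⊔ M) := algC hM'L
  let aK'L : Algebra ↥(K ⊔ M') ↥(K ⊔ M) := algC hK'L
  let aML : Algebra M ↥(K ⊔ M) := algC hML
  have t1 : IsScalarTower M' ↥(K ⊔ M') ↥(K ⊔ M) := towerC hM'K' hK'L
  have t2 : IsScalarTower M' M ↥(K ⊔ M) := towerC h₂ hML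
  have t3 : IsScalarTower F K ↥(K ⊔ M) := towerC hK hKL
  have t4 : IsScalarTower F M ↥(K ⊔ M) := towerC hFM hML
  have t5 : IsScalarTower F M' M := towerC h₁ h₂
  have t6 : IsScalarTower F M' ↥(K ⊔ M) := towerC h₁ hM'L
  have gFM : IsGalois F M := (isGalois_algC hFM).2 gM
  have gFK : IsGalois F K := (isGalois_algC hK).2 gK
  have gM'M : IsGalois M' M := IsGalois.tower_top_of_isGalois F M' M
  have gFL : IsGalois F ↥(K ⊔ M) := (isGalois_algC hFL).2 (hBCH2 F K M hK hFM hFL gK gM)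
  have gM'L : IsGalois M' ↥(K ⊔ M) := IsGalois.tower_top_of_isGalois F M' ↥(K ⊔ M)
  have gK'L : IsGalois ↥(K ⊔ M') ↥(K ⊔ M) :=
    IsGalois.tower_top_of_isGalois M' ↥(K ⊔ M') ↥(K ⊔ M)
  have hadj : IntermediateField.adjoin ↥(K ⊔ M') (Set.range (algebraMap M ↥(K ⊔ M))) = ⊤ :=
    adjoin_top (A := M) (B := K ⊔ M') (C := K ⊔ M)
      (le_antisymm (sup_le (le_sup_left.trans le_sup_right) le_sup_left)
        (sup_le le_sup_right hK'L)) hK'L hML
  have dKL : ∃ a : ℕ, Module.finrank K ↥(K ⊔ M) = p ^ a := by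
    have e1 := (hBCH1 F M K K (K ⊔ M) hFM hKL (sup_of_le_right hK).symm (sup_comm _ _) gM).2
    rw [← finrank_algC] at e1
    obtain ⟨a, ha⟩ := hCD.degM
    rw [ha] at e1
    obtain ⟨b, _, hb⟩ := (Nat.dvd_prime_pow hpr).1 e1
    exact ⟨b, hb⟩
  -- `w ∩ F` is ramified in `M`
  have e1 := RAMB_thm M' ↥(K ⊔ M') M ↥(K ⊔ M) hadj w hw
  have hwp : w.asIdeal.IsPrime := w.isPrime
  have hR : Ramifies hCD.hM ((w.asIdeal.under (𝓞 K)).comap
      (RingOfIntegers.mapRingHom (IntermediateField.inclusion hCD.hK : F →+* K))) := by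
    refine ⟨w.asIdeal.under (𝓞 M), inferInstance, ?_, ?_⟩
    · ext x
      rfl
    · have e2 := Ideal.ramificationIdx_tower (R := 𝓞 F)
        ((w.asIdeal.under (𝓞 M)).under (𝓞 M')) (w.asIdeal.under (𝓞 M))
      intro e3
      have e4 : (w.asIdeal.under (𝓞 M)).ramificationIdx (𝓞 F) = 1 := e3
      rw [e4] at e2
      exact e1 (Nat.eq_one_of_mul_eq_one_left e2.symm)
  obtain ⟨E, hEl, hEK, hns⟩ := hCD.ram (w.asIdeal.under (𝓞 K)) inferInstance hR
  obtain ⟨hFE, _, gE⟩ := hCD.mem E hEl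
  refine ⟨E, hEl, ?_⟩
  intro σ hσ
  -- the fields `E` and `E M`
  have fdE : FiniteDimensional ℚ E := fd_of_le hEK
  have hE'L : E ⊔ M ≤ K ⊔ M := sup_le_sup_right hEK M
  have hEE' : E ≤ E ⊔ M := le_sup_left
  have hEL : E ≤ K ⊔ M := hEK.trans hKL
  let aFE : Algebra F E := algC hFE
  let aEK : Algebra E K := algC hEK
  let aEE' : Algebra E ↥(E ⊔ M) := algC hEE'
  let aEL : Algebra E ↥(K ⊔ M) := algC hEL
  let aE'L : Algebra ↥(E ⊔ M) ↥(K ⊔ M) := algC hE'L
  have s1 : IsScalarTower F E K := towerC hFE hEK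
  have s2 : IsScalarTower F E ↥(K ⊔ M) := towerC hFE hEL
  have s3 : IsScalarTower E K ↥(K ⊔ M) := towerC hEK hKL
  have s4 : IsScalarTower E ↥(E ⊔ M) ↥(K ⊔ M) := towerC hEE' hE'L
  have gEK : IsGalois E K := IsGalois.tower_top_of_isGalois F E K
  have gEL : IsGalois E ↥(K ⊔ M) := IsGalois.tower_top_of_isGalois F E ↥(K ⊔ M)
  have gEE' : IsGalois E ↥(E ⊔ M) := (isGalois_algC hEE').2
    (hBCH1 F M E E (E ⊔ M) hFM hEE' (sup_of_le_right hFE).symm (sup_comm _ _) gM).1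
  have dE'L : (Module.finrank ↥(E ⊔ M) ↥(K ⊔ M)).Coprime p := by
    have e5 := (hBCH1 E K M (E ⊔ M) (K ⊔ M) hEK hE'L rfl rfl ((isGalois_algC hEK).1 gEK)).2
    rw [← finrank_algC, ← finrank_algC] at e5
    have e6 : Module.finrank E K ∣ Module.finrank F K := ⟨Module.finrank F E, by
      rw [mul_comm, Module.finrank_mul_finrank]⟩
    have e7 : ¬ p ∣ Module.finrank F K := by
      have := hCD.copK
      rwa [← finrank_algC] at this
    apply Nat.Coprime.symm
    rw [Nat.Prime.coprime_iff_not_dvd hpr]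
    exact fun h => e7 ((h.trans e5).trans e6)
  have key : ∀ τ : ↥(K ⊔ M) ≃ₐ[↥(E ⊔ M)] ↥(K ⊔ M), τ • w.asIdeal = w.asIdeal := by
    refine NSN_thm p E K ↥(E ⊔ M) ↥(K ⊔ M) dKL dE'L w.asIdeal hwp ?_
    intro τ
    refine hns (τ • w.asIdeal.under (𝓞 K)) ?_ ?_
    · rw [Ideal.pointwise_smul_eq_comap]
      infer_instance
    · ext x
      change (RingOfIntegers.mapRingHom (IntermediateField.inclusion hEK : E →+* K)) x ∈
          τ • w.asIdeal.under (𝓞 K) ↔
        (RingOfIntegers.mapRingHom (IntermediateField.inclusion hEK : E →+* K)) x ∈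
          w.asIdeal.under (𝓞 K)
      rw [Ideal.mem_pointwise_smul_iff_inv_smul_mem]
      have : τ⁻¹ • (RingOfIntegers.mapRingHom (IntermediateField.inclusion hEK : E →+* K)) x =
          (RingOfIntegers.mapRingHom (IntermediateField.inclusion hEK : E →+* K)) x := by
        apply RingOfIntegers.ext
        exact τ⁻¹.commutes (x : E)
      rw [this]
  obtain ⟨τ, hτ⟩ := SCR.exists_aut (D := ↥(E ⊔ M)) σ (by
    intro d
    exact hσ _ d.2)
  rw [SCR.smul_eq σ τ hτ]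
  exact key τ

end Pool.Agent.RID
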