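import Pool.Agent.RID.St
import Mathlib.GroupTheory.Perm.Cycle.Type

/-!
# Module STEP1
-/

open NumberField Finset IsDedekindDomain
open scoped nonZeroDivisors Pointwise

namespace Pool.Agent.RID

open Pool.Agent.RI

namespace STEP1

/-- The number of fixed points of an operator of order a power of `p`, in a quotient of subgroups. -/
lemma abs_aux {p a : ℕ} [hp : Fact p.Prime] {I G : Type} [CommGroup I] [Group G]
    [MulDistribMulAction G I] (g : G) (P X : Subgroup I) (hg : g ^ (p ^ a) = 1)
    (_hPX : P ≤ X) (hne : P.relIndex X ≠ 0) (hP : ∀ x ∈ P, g • x ∈ P) (hX : ∀ x ∈ X, g • x ∈ X)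
    (h : ¬ p ∣ P.relIndex (X ⊓ P.comap (dg g))) : ¬ p ∣ P.relIndex X := by
  classical
  let φ : X →* X :=
    { toFun := fun x => ⟨g • (x : I), hX x x.2⟩
      map_one' := Subtype.ext (smul_one g)
      map_mul' := fun x y => Subtype.ext (smul_mul' g (x : I) (y : I)) }
  have hφ : P.subgroupOf X ≤ (P.subgroupOf X).comap φ := by
    intro x hx
    rw [Subgroup.mem_comap, Subgroup.mem_subgroupOf]
    exact hP x (Subgroup.mem_subgroupOf.1 hx)
  let e : X ⧸ P.subgroupOf X →* X ⧸ P.subgroupOf X :=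
    QuotientGroup.map (P.subgroupOf X) (P.subgroupOf X) φ hφ
  let f : Function.End (X ⧸ P.subgroupOf X) := fun q => e q
  have he : ∀ (n : ℕ) (x : X) (hx : g ^ n • (x : I) ∈ X),
      (f ^ n) (QuotientGroup.mk x : X ⧸ P.subgroupOf X) =
        (QuotientGroup.mk ⟨g ^ n • (x : I), hx⟩ : X ⧸ P.subgroupOf X) := by
    intro n
    induction n with
    | zero =>
      intro x hx
      have : (⟨g ^ 0 • (x : I), hx⟩ : X) = x := Subtype.ext (by simp)
      rw [this, pow_zero]
      rfl
    | succ n ih =>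
      intro x hx
      have hx1 : g ^ n • ((φ x : X) : I) ∈ X := by
        have : g ^ n • ((φ x : X) : I) = g ^ (n + 1) • (x : I) := by
          rw [pow_succ, mul_smul]
          rfl
        rw [this]; exact hx
      have h1 : (f ^ (n + 1)) (QuotientGroup.mk x : X ⧸ P.subgroupOf X) =
          (f ^ n) (QuotientGroup.mk (φ x) : X ⧸ P.subgroupOf X) := by
        rw [pow_succ]
        rfl
      rw [h1, ih (φ x) hx1]
      congr 1
      apply Subtype.ext
      change g ^ n • (g • (x : I)) = g ^ (n + 1) • (x : I)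
      rw [pow_succ, mul_smul]
  have hf : f ^ p ^ a = 1 := by
    funext q
    obtain ⟨x, rfl⟩ := QuotientGroup.mk_surjective q
    have hx : g ^ (p ^ a) • (x : I) ∈ X := by rw [hg, one_smul]; exact x.2
    rw [he (p ^ a) x hx]
    have : (⟨g ^ (p ^ a) • (x : I), hx⟩ : X) = x := Subtype.ext (by simp [hg])
    exact congrArg (fun z : X => (QuotientGroup.mk z : X ⧸ P.subgroupOf X)) this
  have hfin : Finite (X ⧸ P.subgroupOf X) := by
    apply Nat.finite_of_card_ne_zero
    exact hne
  let := Fintype.ofFinite (X ⧸ P.subgroupOf X)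
  have hmod := Equiv.Perm.card_fixedPoints_modEq (p := p) (n := a) hf
  -- the fixed points
  have hfix : Fintype.card (Function.fixedPoints f) = P.relIndex (X ⊓ P.comap (dg g)) := by
    have e1 : P.relIndex (X ⊓ P.comap (dg g)) =
        (P.subgroupOf X).relIndex ((X ⊓ P.comap (dg g)).subgroupOf X) :=
      (Subgroup.relIndex_subgroupOf inf_le_left).symm
    have e2 : (P.subgroupOf X) = (⊥ : Subgroup (X ⧸ P.subgroupOf X)).comap
        (QuotientGroup.mk' (P.subgroupOf X)) := by
      rw [MonoidHom.comap_bot, QuotientGroup.ker_mk']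
    have e3 : (P.subgroupOf X).relIndex ((X ⊓ P.comap (dg g)).subgroupOf X) =
        Nat.card (((X ⊓ P.comap (dg g)).subgroupOf X).map
          (QuotientGroup.mk' (P.subgroupOf X))) := by
      conv_lhs => rw [e2]
      rw [Subgroup.relIndex_comap, Subgroup.relIndex_bot_left]
    rw [e1, e3, ← Nat.card_eq_fintype_card]
    have e4 : (Function.fixedPoints f : Set (X ⧸ P.subgroupOf X)) =
        ((((X ⊓ P.comap (dg g)).subgroupOf X).map
          (QuotientGroup.mk' (P.subgroupOf X)) : Subgroup (X ⧸ P.subgroupOf X)) :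
          Set (X ⧸ P.subgroupOf X)) := by
      ext q
      obtain ⟨x, rfl⟩ := QuotientGroup.mk_surjective q
      have h1 : f (QuotientGroup.mk x : X ⧸ P.subgroupOf X) =
          (QuotientGroup.mk (φ x) : X ⧸ P.subgroupOf X) := rfl
      have h2 : (QuotientGroup.mk x : X ⧸ P.subgroupOf X) ∈ Function.fixedPoints f ↔
          (x : I) / g • (x : I) ∈ P := by
        rw [Function.mem_fixedPoints]
        change (QuotientGroup.mk (φ x) : X ⧸ P.subgroupOf X) = QuotientGroup.mk x ↔ _
        rw [QuotientGroup.eq, Subgroup.mem_subgroupOf]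
        have : (((φ x)⁻¹ * x : X) : I) = (x : I) / g • (x : I) := by
          change (g • (x : I))⁻¹ * (x : I) = _
          rw [div_eq_mul_inv, mul_comm]
        rw [this]
      rw [h2, SetLike.mem_coe, Subgroup.mem_map]
      constructor
      · intro hx
        refine ⟨x, ?_, rfl⟩
        rw [Subgroup.mem_subgroupOf]
        exact ⟨x.2, hx⟩
      · rintro ⟨y, hy, hyx⟩
        rw [Subgroup.mem_subgroupOf] at hy
        have hy2 : (y : I) / g • (y : I) ∈ P := hy.2
        have hyx' : (QuotientGroup.mk y : X ⧸ P.subgroupOf X) = QuotientGroup.mk x := hyx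
        rw [QuotientGroup.eq, Subgroup.mem_subgroupOf] at hyx'
        have h3 : (y : I)⁻¹ * (x : I) ∈ P := hyx'
        have h4 : (x : I) / g • (x : I) =
            ((y : I)⁻¹ * (x : I)) / g • ((y : I)⁻¹ * (x : I)) * ((y : I) / g • (y : I)) := by
          have h5 : dg g (x : I) = dg g ((y : I)⁻¹ * (x : I)) * dg g (y : I) := by
            rw [← map_mul, mul_comm _ (y : I), mul_inv_cancel_left]
          exact h5
        rw [h4]
        exact mul_mem (div_mem h3 (hP _ h3)) hy2
    rw [e4]
    rfl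
  have hcard : Fintype.card (X ⧸ P.subgroupOf X) = P.relIndex X := by
    rw [← Nat.card_eq_fintype_card]; rfl
  rw [hcard, hfix] at hmod
  intro hdvd
  apply h
  exact (Nat.ModEq.dvd_iff hmod dvd_rfl).1 hdvd

end STEP1

open STEP1

theorem t_STEP1 (hSTEPC : S_STEPC) (hNUS : S_NUS) : S_STEP1 := by
  intro p a hp F K L κ _ _ _ _ _ _ _ _ _ _ l N' N g S h0
  have hC := hSTEPC p a F K L κ l N' N g S
  rw [h0] at hC
  obtain ⟨hPX, hXst⟩ := (hNUS.2.2.2.2.2 F L κ l N S.nrm).2.2
  have hPst : ∀ x ∈ (prin : Lˣ →* J L).range, g • x ∈ (prin : Lˣ →* J L).range := by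
    rintro _ ⟨y, rfl⟩
    rw [smul_prin]
    exact ⟨_, rfl⟩
  by_cases hne : (prin : Lˣ →* J L).range.relIndex (XsJ l N) = 0
  · rw [hne]; simp
  have hg : g ^ (p ^ a) = 1 := by rw [← S.cyc.ord]; exact pow_orderOf_eq_one g
  have hmid : (prin : Lˣ →* J L).range ≤ XsJ l N ⊓ (prin : Lˣ →* J L).range.comap (dg g) := by
    intro x hx
    refine ⟨hPX hx, ?_⟩
    change x / g • x ∈ (prin : Lˣ →* J L).range
    exact div_mem hx (hPst x hx)
  have hmul := Subgroup.relIndex_mul_relIndex (prin : Lˣ →* J L).range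
    (XsJ l N ⊓ (prin : Lˣ →* J L).range.comap (dg g)) (XsJ l N) hmid inf_le_left
  have hne2 : (prin : Lˣ →* J L).range.relIndex
      (XsJ l N ⊓ (prin : Lˣ →* J L).range.comap (dg g)) ≠ 0 := by
    intro hh
    rw [hh, zero_mul] at hmul
    exact hne hmul.symm
  have h1 : ¬ p ∣ (prin : Lˣ →* J L).range.relIndex
      (XsJ l N ⊓ (prin : Lˣ →* J L).range.comap (dg g)) := by
    intro hd
    have := (dvd_iff_padicValNat_ne_zero hne2).1 hd
    omega
  have h2 := abs_aux (p := p) (a := a) g (prin : Lˣ →* J L).range (XsJ l N) hg hPX hne hPst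
    (hXst g) h1
  exact padicValNat.eq_zero_of_not_dvd h2

end Pool.Agent.RID
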