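import Pool.Agent.RID.St
import Pool.Agent.RI.CL

/-!
# Module STEPN
-/

open NumberField Finset IsDedekindDomain
open scoped nonZeroDivisors Pointwise

namespace Pool.Agent.RID

open Pool.Agent.RI

namespace STEPN

lemma vle {p : ℕ} [hp : Fact p.Prime] {a b : ℕ} (h : a ∣ b) (hb : b ≠ 0) :
    padicValNat p a ≤ padicValNat p b :=
  (padicValNat_dvd_iff_le hb).1 (pow_padicValNat_dvd.trans h)

lemma idx_ne (K : Type) [Field K] [NumberField K] : (prin (K := K)).range.index ≠ 0 := by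
  have := CL.finite_quot K
  exact Subgroup.index_ne_zero_iff_finite.2 inferInstance

lemma rel_ne (K : Type) [Field K] [NumberField K] (Y : Subgroup (J K)) :
    (prin (K := K)).range.relIndex Y ≠ 0 :=
  fun h => idx_ne K (Nat.eq_zero_of_zero_dvd (h ▸ Subgroup.relIndex_dvd_index_of_normal _ _))

end STEPN

open STEPN

theorem t_STEPN (hSTEPC : S_STEPC) (hNRM : S_NRM) (hALGR : S_ALGR) (hNUS : S_NUS) : S_STEPN := by
  intro p m n hp F K₁ K₂ L κ _ _ _ _ _ _ _ _ _ _ _ _ _ _ _ l N₁ N₂ N γ hnm hord S₁ S₂ hlt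
  have hC := hSTEPC p (m + 1 - n) F K₁ L κ l N₁ N (γ ^ (p ^ n)) S₁
  obtain ⟨hPX, hXst⟩ := (hNUS.2.2.2.2.2 F L κ l N S₁.nrm).2.2
  have hPst : ∀ (σ : L ≃ₐ[F] L), ∀ x ∈ (prin : Lˣ →* J L).range,
      σ • x ∈ (prin : Lˣ →* J L).range := by
    rintro σ _ ⟨y, rfl⟩
    rw [smul_prin]
    exact ⟨_, rfl⟩
  have h1 : γ ^ (p ^ (m + 1)) = 1 := by rw [← hord]; exact pow_orderOf_eq_one γ
  have hA := hALGR p m n (J L) (L ≃ₐ[F] L) γ (prin : Lˣ →* J L).range (XsJ l N) h1 hnm hPX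
    (rel_ne L _) (hPst γ) (hXst γ) (lt_of_le_of_lt hC hlt)
  refine hA.trans (add_le_add ?_ hC)
  -- the image of the norm
  have hq : p ^ 1 = p := pow_one p
  have hcyc : CycExt F K₂ L (γ ^ (p ^ m)) p := by
    have := S₂.cyc
    rwa [hq] at this
  have hmap : (XsJ l N).map (ng (γ ^ (p ^ m)) p) ≤ (XsJ l N₂).map (ext K₂ L) := by
    rintro _ ⟨b, hb, rfl⟩
    obtain ⟨c, hc, hc'⟩ := hNRM F K₂ L κ l N₂ N (γ ^ (p ^ m)) p hcyc S₂.mat S₂.com b hb
    exact ⟨c, hc, hc'⟩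
  have hle : (prin : K₂ˣ →* J K₂).range ≤ (prin : Lˣ →* J L).range.comap (ext K₂ L) := by
    rintro _ ⟨y, rfl⟩
    rw [Subgroup.mem_comap, ext_prin]
    exact ⟨_, rfl⟩
  apply vle _ (rel_ne K₂ _)
  have e1 : (prin : Lˣ →* J L).range.relIndex ((XsJ l N).map (ng (γ ^ (p ^ m)) p) ⊔
      (prin : Lˣ →* J L).range) ∣ (prin : Lˣ →* J L).range.relIndex ((XsJ l N₂).map (ext K₂ L) ⊔
      (prin : Lˣ →* J L).range) := by
    rw [← Subgroup.relIndex_mul_relIndex (prin : Lˣ →* J L).range _ _ le_sup_right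
      (sup_le_sup_right hmap (prin : Lˣ →* J L).range)]
    exact dvd_mul_right _ _
  refine e1.trans ?_
  rw [Subgroup.relIndex_sup_right]
  have e2 : (prin : Lˣ →* J L).range.relIndex ((XsJ l N₂).map (ext K₂ L)) =
      ((prin : Lˣ →* J L).range.comap (ext K₂ L)).relIndex (XsJ l N₂) := by
    rw [Subgroup.relIndex_comap]
  rw [e2]
  exact Subgroup.relIndex_dvd_of_le_left _ hle

end Pool.Agent.RID
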