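import Pool.Agent.RID.St
import Pool.Agent.RI.BCH

/-!
# Assembly of the situation of one step
-/

open NumberField Finset IsDedekindDomain
open scoped nonZeroDivisors Pointwise

namespace Pool.Agent.RID

open Pool.Agent.RI

theorem t_SYSC (hSCN : S_SCN) (hSCM : S_SCM) (hSCI : S_SCI) (hSCR : S_SCR) (hCDR : S_CDR)
    (hCYC : S_CYC) : S_SYSC := by
  intro p a _ F K M' M _ _ _ _ l hCD h₁ h₂ hG₁ h h'
  letI aK := algC h
  letI aKL := algC h'
  letI aL := algC (h.trans h')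
  letI tow := towerC h h'
  intro g hg
  have hCD' : CD p F K M' l := hCDR p F K M' M l hCD h₁ h₂ hG₁
  have hBCH := BCH_thm
  have gK : IsGalois F ↥(K ⊔ M') :=
    (isGalois_algC h).2 (hBCH.2 F K M' hCD.hK h₁ h hCD.gK hG₁)
  have gL : IsGalois F ↥(K ⊔ M) :=
    (isGalois_algC (h.trans h')).2 (hBCH.2 F K M hCD.hK hCD.hM (h.trans h') hCD.gK hCD.gM)
  have hfix : ∀ x : ↥(K ⊔ M), (x : ℂ) ∈ K → g x = x := by
    intro x hx
    rw [hg.fix]
    exact ⟨⟨x, (le_sup_left : K ≤ K ⊔ M') hx⟩, rfl⟩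
  have hcyc := hCYC F ↥(K ⊔ M') ↥(K ⊔ M) g (p ^ a) hg
  have hN := hSCN p F K M l hCD (h.trans h')
  have hN' := hSCN p F K M' l hCD' h
  exact
    { galK := gK
      galL := gL
      ne := hCD.ne
      cyc := hg
      nrm := fun E hE => (hN E hE).1
      nrm' := fun E hE => (hN' E hE).1
      cop := fun E hE => (hN E hE).2.1
      com := fun E hE σ hσ => (hN E hE).2.2 g hfix σ hσ
      mat := fun E hE => hSCM p F K M' M l hCD h₁ h₂ hG₁ h h' E hE
      inf := by
        rw [← hcyc.2.1]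
        exact hSCI p F K M' M l hCD h₁ h₂ hG₁ h'
      ram := fun w hw => hSCR p F K M' M l hCD h₁ h₂ hG₁ h h' w hw }

end Pool.Agent.RID
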