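import Pool.Agent.RID.Asm
import Pool.Agent.RID.P_ABS1
import Pool.Agent.RID.P_ABS2
import Pool.Agent.RID.P_HQ1
import Pool.Agent.RID.P_HQ2
import Pool.Agent.RID.P_HQ3
import Pool.Agent.RID.P_HERBQ
import Pool.Agent.RID.P_ALG1
import Pool.Agent.RID.P_ALG2
import Pool.Agent.RID.P_ALGR
import Pool.Agent.RID.P_GENA
import Pool.Agent.RID.P_RK1
import Pool.Agent.RID.P_RK2
import Pool.Agent.RID.P_RK3
import Pool.Agent.RID.P_CYC
import Pool.Agent.RID.P_RK4
import Pool.Agent.RID.P_RES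
import Pool.Agent.RID.P_NUS
import Pool.Agent.RID.P_INVE
import Pool.Agent.RID.P_NRM
import Pool.Agent.RID.P_STEPC
import Pool.Agent.RID.P_STEP1
import Pool.Agent.RID.P_STEPN
import Pool.Agent.RID.P_SCN
import Pool.Agent.RID.P_SCM
import Pool.Agent.RID.P_SCI
import Pool.Agent.RID.P_SCR
import Pool.Agent.RID.P_CDR
import Pool.Agent.RID.P_SYSC
import Pool.Agent.RID.P_GCC
import Pool.Agent.RID.P_GCP
import Pool.Agent.RID.P_GENC
import Pool.Agent.RID.P_CYCM
import Pool.Agent.RID.P_MAIN1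
import Pool.Agent.RID.P_MAIN2
import Pool.Agent.RID.P_BND
import Pool.Agent.RID.P_INJ
import Pool.Agent.RID.P_LAYC
import Pool.Agent.RID.P_CDL
import Pool.Agent.RID.P_MAIN3
import Pool.Agent.RID.P_SGL

/-!
# Decomposition fields and the growth of class groups: assembly
-/

open NumberField IntermediateField Pool.Agent.RI

namespace Pool.Agent.RID

theorem finalHQ3 : S_HQ3 := t_HQ3 t_HQ1 t_HQ2

theorem finalHERBQ : S_HERBQ := t_HERBQ t_HQ1 finalHQ3

theorem finalALGR : S_ALGR := t_ALGR t_ALG1 t_ALG2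

theorem finalRK4 : S_RK4 := t_RK4 t_RK1 t_RK2 t_RK3 t_CYC

theorem finalINVE : S_INVE := t_INVE t_CYC

theorem finalNRM : S_NRM := t_NRM t_CYC t_RES t_NUS

theorem finalSTEPC : S_STEPC :=
  t_STEPC t_ABS1 t_ABS2 finalHERBQ t_RK3 finalRK4 t_CYC t_RES t_NUS finalINVE

theorem finalSTEP1 : S_STEP1 := t_STEP1 finalSTEPC t_NUS

theorem finalSTEPN : S_STEPN := t_STEPN finalSTEPC finalNRM finalALGR t_NUS

theorem finalSCM : S_SCM := t_SCM t_SCN

theorem finalSYSC : S_SYSC := t_SYSC t_SCN finalSCM t_SCI t_SCR t_CDR t_CYC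

theorem finalGENC : S_GENC := t_GENC t_GENA t_SCN t_NUS

theorem finalMAIN1 : S_MAIN1 := t_MAIN1 t_CDR finalSYSC t_GCC finalSTEP1 finalGENC

theorem finalMAIN2 : S_MAIN2 :=
  t_MAIN2 t_CDR t_CYCM finalSYSC t_GCC t_GCP finalSTEPN finalGENC

theorem finalCDL : S_CDL := t_CDL t_LAYC

theorem finalMAIN3 : S_MAIN3 := t_MAIN3 finalMAIN2 t_BND t_INJ finalCDL

end Pool.Agent.RID
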