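import Pool.Agent.RID.St
import Pool.Agent.RI.CHIEF

/-!
# Decomposition fields and the growth of class groups: the module MAIN1
-/

open NumberField Finset IsDedekindDomain
open scoped nonZeroDivisors Pointwise

namespace Pool.Agent.RID

open Pool.Agent.RI

namespace MAIN1

/-- The upper part of a Galois extension is Galois. -/
lemma gal_top {F M' M : IntermediateField ℚ ℂ} (h₁ : F ≤ M') (h₂ : M' ≤ M)
    (hG : IsGalois F (IntermediateField.extendScalars (h₁.trans h₂))) :
    IsGalois M' (IntermediateField.extendScalars h₂) := by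
  rw [← isGalois_algC] at hG ⊢
  let : Algebra F M' := algC h₁
  let : Algebra M' M := algC h₂
  let : Algebra F M := algC (h₁.trans h₂)
  have : IsScalarTower F M' M := towerC h₁ h₂
  have : IsGalois F M := hG
  exact IsGalois.tower_top_of_isGalois F M' M

/-- A Galois extension of prime degree is cyclic. -/
lemma cyclic_prime {p : ℕ} [hp : Fact p.Prime] {M' M : IntermediateField ℚ ℂ} (h₂ : M' ≤ M)
    (hG : IsGalois M' (IntermediateField.extendScalars h₂))
    (hd : Module.finrank M' (IntermediateField.extendScalars h₂) = p) :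
    IsCyclic ((IntermediateField.extendScalars h₂) ≃ₐ[M']
      (IntermediateField.extendScalars h₂)) := by
  have : FiniteDimensional M' (IntermediateField.extendScalars h₂) :=
    Module.finite_of_finrank_pos (by rw [hd]; exact hp.out.pos)
  have hc : Nat.card ((IntermediateField.extendScalars h₂) ≃ₐ[M']
      (IntermediateField.extendScalars h₂)) = p := by
    rw [IsGalois.card_aut_eq_finrank, hd]
  exact isCyclic_of_prime_card hc

/-- An extension of degree one is trivial. -/
lemma eq_of_one {F M : IntermediateField ℚ ℂ} (hM : F ≤ M)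
    (hdeg : Module.finrank F (IntermediateField.extendScalars hM) = 1) : M = F := by
  rw [IntermediateField.finrank_eq_one_iff] at hdeg
  apply le_antisymm _ hM
  intro x hx
  have hx' : x ∈ IntermediateField.extendScalars hM := hx
  rw [hdeg, IntermediateField.mem_bot] at hx'
  obtain ⟨y, rfl⟩ := hx'
  exact y.2

end MAIN1

theorem t_MAIN1 (hCDR : S_CDR) (hSYSC : S_SYSC) (hGCC : S_GCC) (hSTEP1 : S_STEP1)
    (hGENC : S_GENC) : S_MAIN1 := by
  have key : ∀ (a p : ℕ) [Fact p.Prime] (F K M : IntermediateField ℚ ℂ)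
      [FiniteDimensional ℚ F] [FiniteDimensional ℚ K] [FiniteDimensional ℚ M]
      (l : List (IntermediateField ℚ ℂ)) (hM : F ≤ M),
      Module.finrank F (IntermediateField.extendScalars hM) = p ^ a → CD p F K M l →
      eOf p K F {E | E ∈ l} = 0 → eOf p K M {E | E ∈ l} = 0 := by
    intro a
    induction a with
    | zero =>
      intro p _ F K M _ _ _ l hM hdeg hCD h0
      have hMF : M = F := MAIN1.eq_of_one hM (by rw [hdeg, pow_zero])
      subst hMF
      exact h0
    | succ a ih =>
      intro p hp F K M _ _ _ l hM hdeg hCD h0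
      obtain ⟨M', h₁, h₂, hG', hd', hdM⟩ := CHIEF_thm p a F M hM hCD.gM hdeg
      have hfd : FiniteDimensional ℚ M' := by
        exact FiniteDimensional.of_injective (IntermediateField.inclusion h₂).toLinearMap
          (IntermediateField.inclusion h₂).toRingHom.injective
      have hCD' : CD p F K M' l := hCDR p F K M' M l hCD h₁ h₂ hG'
      have hrec := ih p F K M' l h₁ hd' hCD' h0
      have hKM' : F ≤ K ⊔ M' := hCD.hK.trans le_sup_left
      have h' : K ⊔ M' ≤ K ⊔ M := sup_le_sup_left h₂ K
      have hcyc := MAIN1.cyclic_prime h₂ (MAIN1.gal_top h₁ h₂ hCD.gM) hdM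
      obtain ⟨g, hg, hfix⟩ := hGCC p F K M' M l hCD h₁ h₂ hcyc (hKM'.trans h')
      let i1 : Algebra F ↥(K ⊔ M') := algC hKM'
      let i2 : Algebra ↥(K ⊔ M') ↥(K ⊔ M) := algC h'
      let i3 : Algebra F ↥(K ⊔ M) := algC (hKM'.trans h')
      have i4 : IsScalarTower F ↥(K ⊔ M') ↥(K ⊔ M) := towerC hKM' h'
      have hce : CycExt F ↥(K ⊔ M') ↥(K ⊔ M) g (p ^ 1) := by
        refine ⟨?_, ?_⟩
        · rw [pow_one, ← hdM]
          exact hg
        · intro x
          rw [hfix x]
          constructor
          · intro hx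
            exact ⟨⟨(x : ℂ), hx⟩, rfl⟩
          · rintro ⟨y, rfl⟩
            exact y.2
      have hs := hSYSC p 1 F K M' M l hCD h₁ h₂ hG' hKM' h' g hce
      have h1 := hSTEP1 p 1 F ↥(K ⊔ M') ↥(K ⊔ M) (IntermediateField ℚ ℂ) l _ _ g hs
      have e1 := hGENC p F K M' l hCD' hKM'
      have e2 := hGENC p F K M l hCD (hKM'.trans h')
      rw [← e2]
      apply h1
      rw [e1]
      exact hrec
  intro p _ F K M _ _ _ l hCD h0
  obtain ⟨a, ha⟩ := hCD.degM
  exact key a p F K M l hCD.hM ha hCD h0

end Pool.Agent.RID
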