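import Pool.Agent.RID.St

/-!
# Decomposition fields and the growth of class groups: a further statement
-/

open NumberField Finset IsDedekindDomain
open scoped nonZeroDivisors Pointwise

namespace Pool.Agent.RID

open Pool.Agent.RI

/-- SGL: `e(M)` for the set `{F}`.
Proof. `D = F ⊔ M = M`, `L = K ⊔ M` is Galois over `M` of degree dividing `[K : F]` (`BCH_thm`), prime to `p`.
`fromSub L {M}` is the image of `j : Cl(M) → Cl(L)`, `c ↦ c 𝓞_L` (generators are images; every class of `Cl(M)` is the
class of an integral ideal), and the kernel of `j` is killed by `[L : M]` (norm, `nm_ext` in `Pool/Agent/RI/CL.lean`,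
`ext_injective`; or in terms of `J`, `prin`, `ext`), so `v_p |fromSub| = v_p h(M)`, and
`h(L) = index * |fromSub|`. -/
def S_SGL : Prop := ∀ (p : ℕ) [Fact p.Prime] (F K M : IntermediateField ℚ ℂ)
    [FiniteDimensional ℚ K] [FiniteDimensional ℚ M] (hK : F ≤ K) (_ : F ≤ M),
    IsGalois F (IntermediateField.extendScalars hK) →
    ¬ p ∣ Module.finrank F (IntermediateField.extendScalars hK) →
    eOf p K M {F} + padicValNat p (classNo M) = padicValNat p (classNo (K ⊔ M))

end Pool.Agent.RID
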